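import Pool.Agent.MP_3312ae_al.HR.Spec

/-! Definitions for the elementary proof of Zelmanov's theorem (graded form, Higman law).
Paper proof: team store file MP_3312ae_Z_helper30.md. Operators act on the left here. -/

set_option autoImplicit false
set_option linter.unusedSectionVars false

namespace Pool.Agent.MP_3312ae_al.HR.Z30

open Finset LieAlgebra

/-! ### The Higman law and the target -/

/-- ordered product of the `h i`, `i ∈ A` -/
def ordP {R : Type} [Monoid R] {s : ℕ} (h : Fin s → R) (A : Finset (Fin s)) : R :=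
  (List.ofFn fun i => if i ∈ A then h i else 1).prod

/-- coefficient of `e_S` in `(∏ (1 + e_i h_i)) ^ q` -/
def Tq {R : Type} [Ring R] {s : ℕ} (h : Fin s → R) : ℕ → Finset (Fin s) → R
  | 0, S => if S = ∅ then 1 else 0
  | q + 1, S => ∑ A ∈ S.powerset, ordP h A * Tq h q (S \ A)

/-- Zelmanov's theorem, graded form with the Higman law. -/
def ThmZ2 : Prop :=
  ∀ (p : ℕ) [Fact p.Prime] (K : Type) [Field K] [IsAlgClosed K] [CharP K p]
    (L : Type) [LieRing L] [LieAlgebra K L] (A : ℕ → Submodule K L) (r e j0 : ℕ) (a : Fin r → L),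
    iSupIndep A → (∀ i j x y, x ∈ A i → y ∈ A j → ⁅x, y⁆ ∈ A (i + j)) → (∀ i, a i ∈ A 1) →
    LieSubalgebra.lieSpan K L (Set.range a) = ⊤ →
    (∀ x, IsComm a x → IsNilpotent (ad K L x)) →
    (∀ (s : ℕ) (x : Fin s → L) (S : Finset (Fin s)), (∀ i, ∃ d, j0 ≤ d ∧ x i ∈ A d) →
      S.Nonempty → Tq (fun i => ad K L (x i)) (p ^ e) S = 0) →
    ∃ S : ℕ, ∀ d, S ≤ d → A d = ⊥

/-! ### Graded Lie algebras generated in degree one with nilpotent commutators -/

structure GrL (K L : Type) [Field K] [LieRing L] [LieAlgebra K L] where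
  A : ℕ → Submodule K L
  π : ℕ → L →ₗ[K] L
  π_mem : ∀ i x, π i x ∈ A i
  π_of : ∀ i j x, x ∈ A j → π i x = if i = j then x else 0
  fin : ∀ x, ∃ N, ∀ M, N ≤ M → ∑ i ∈ range M, π i x = x
  lie_mem : ∀ i j x y, x ∈ A i → y ∈ A j → ⁅x, y⁆ ∈ A (i + j)
  r : ℕ
  a : Fin r → L
  a_mem : ∀ i, a i ∈ A 1
  gen : LieSubalgebra.lieSpan K L (Set.range a) = ⊤
  nil : ∀ x, IsComm a x → IsNilpotent (ad K L x)

section
variable {K L : Type} [Field K] [LieRing L] [LieAlgebra K L]

/-- homogeneous of degree at least `j` -/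
def GrL.Hom (G : GrL K L) (j : ℕ) (x : L) : Prop := ∃ d, j ≤ d ∧ x ∈ G.A d

theorem GrL.π_lie_eq_zero (G : GrL K L) {j : ℕ} {y : L} (hy : ∀ i < j, G.π i y = 0) (x : L) :
    ∀ i < j, G.π i ⁅x, y⁆ = 0 := by
  intro i hi
  obtain ⟨N, hN⟩ := G.fin x
  obtain ⟨N', hN'⟩ := G.fin y
  rw [← hN N le_rfl, ← hN' N' le_rfl, sum_lie, map_sum]
  refine Finset.sum_eq_zero fun a _ => ?_
  rw [lie_sum, map_sum]
  refine Finset.sum_eq_zero fun b _ => ?_
  by_cases hb : b < j
  · rw [hy b hb, lie_zero, map_zero]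
  · rw [G.π_of i (a + b) _ (G.lie_mem _ _ _ _ (G.π_mem a x) (G.π_mem b y)), if_neg (by omega)]

/-- the ideal `L^j` of elements of degree at least `j` -/
def GrL.ge (G : GrL K L) (j : ℕ) : LieIdeal K L where
  carrier := {x | ∀ i < j, G.π i x = 0}
  add_mem' := fun {x y} hx hy i hi => by rw [map_add, hx i hi, hy i hi, add_zero]
  zero_mem' := fun i _ => map_zero _
  smul_mem' := fun c x hx i hi => by rw [map_smul, hx i hi, smul_zero]
  lie_mem := fun {x y} hy => G.π_lie_eq_zero hy x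

/-- the Higman law of exponent `q` in degrees `≥ j0` -/
def GrL.Hig (G : GrL K L) (q j0 : ℕ) : Prop :=
  ∀ (s : ℕ) (x : Fin s → L) (S : Finset (Fin s)), (∀ i, G.Hom j0 (x i)) → S.Nonempty →
    Tq (fun i => ad K L (x i)) q S = 0

/-- graded just infinite -/
structure GrL.JI (G : GrL K L) : Prop where
  inf : ∀ d, 1 ≤ d → G.A d ≠ ⊥
  ji : ∀ I : LieIdeal K L, (∀ i x, x ∈ I → G.π i x ∈ I) → I ≠ ⊥ → ∃ S, G.ge S ≤ I

/-- the action of `L` on `L^j` -/
noncomputable def GrL.ψ (G : GrL K L) (j : ℕ) : L →ₗ[K] Module.End K (G.ge j) :=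
  LinearMap.mk₂ K (fun (x : L) (y : G.ge j) => ⁅x, y⁆) (fun _ _ _ => add_lie _ _ _)
    (fun _ _ _ => smul_lie _ _ _) (fun _ _ _ => lie_add _ _ _) (fun _ _ _ => lie_smul _ _ _)

theorem GrL.ψ_apply (G : GrL K L) (j : ℕ) (x : L) (y : G.ge j) :
    ((G.ψ j x y : G.ge j) : L) = ⁅x, (y : L)⁆ := rfl

/-- the adjoint action as a linear map -/
noncomputable def adL (K L : Type) [Field K] [LieRing L] [LieAlgebra K L] :
    L →ₗ[K] Module.End K L :=
  LinearMap.mk₂ K (fun (x y : L) => ⁅x, y⁆) (fun _ _ _ => add_lie _ _ _)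
    (fun _ _ _ => smul_lie _ _ _) (fun _ _ _ => lie_add _ _ _) (fun _ _ _ => lie_smul _ _ _)

theorem adL_eq (x : L) : adL K L x = ad K L x := rfl

/-- a representation of `L` in an associative algebra -/
def IsRep {R : Type} [Ring R] [Algebra K R] (ψ : L →ₗ[K] R) : Prop :=
  ∀ x y, ψ ⁅x, y⁆ = ψ x * ψ y - ψ y * ψ x

/-- product of the images of a list -/
def word {R : Type} [Ring R] [Algebra K R] (ψ : L →ₗ[K] R) (l : List L) : R := (l.map ψ).prod

/-- the unital algebra generated by the image, as a subspace -/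
def env {R : Type} [Ring R] [Algebra K R] (ψ : L →ₗ[K] R) : Submodule K R :=
  Submodule.span K (Set.range (word ψ))

end

/-! ### `L ⊗ E` with `e_i ^ 2 = 0` as functions on finite sets -/

/-- coefficient functions -/
def SF (ι L : Type) : Type := Finset ι → L

section SF
variable {ι K L : Type} [DecidableEq ι] [Field K] [LieRing L] [LieAlgebra K L]

instance : AddCommGroup (SF ι L) := inferInstanceAs (AddCommGroup (Finset ι → L))
instance : Module K (SF ι L) := inferInstanceAs (Module K (Finset ι → L))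
instance : Bracket (SF ι L) (SF ι L) :=
  ⟨fun x y S => ∑ A ∈ S.powerset, ⁅x A, y (S \ A)⁆⟩

theorem SF.ext {x y : SF ι L} (h : ∀ S, x S = y S) : x = y := funext h
@[simp] theorem SF.add_apply (x y : SF ι L) (S : Finset ι) : (x + y) S = x S + y S := rfl
@[simp] theorem SF.sub_apply (x y : SF ι L) (S : Finset ι) : (x - y) S = x S - y S := rfl
@[simp] theorem SF.neg_apply (x : SF ι L) (S : Finset ι) : (-x) S = -x S := rfl
@[simp] theorem SF.zero_apply (S : Finset ι) : (0 : SF ι L) S = 0 := rfl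
@[simp] theorem SF.smul_apply (c : K) (x : SF ι L) (S : Finset ι) : (c • x) S = c • x S := rfl
theorem SF.lie_apply (x y : SF ι L) (S : Finset ι) :
    ⁅x, y⁆ S = ∑ A ∈ S.powerset, ⁅x A, y (S \ A)⁆ := rfl

theorem sum_pow_assoc {W : Type} [AddCommMonoid W] (S : Finset ι)
    (g : Finset ι → Finset ι → Finset ι → W) :
    ∑ U ∈ S.powerset, ∑ A ∈ U.powerset, g A (U \ A) (S \ U) =
      ∑ A ∈ S.powerset, ∑ B ∈ (S \ A).powerset, g A B ((S \ A) \ B) := by
  rw [Finset.sum_sigma', Finset.sum_sigma']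
  refine Finset.sum_bij' (fun u _ => ⟨u.2, u.1 \ u.2⟩) (fun v _ => ⟨v.1 ∪ v.2, v.1⟩)
    ?_ ?_ ?_ ?_ ?_
  · rintro ⟨U, A⟩ h
    simp only [mem_sigma, mem_powerset] at h ⊢
    exact ⟨h.2.trans h.1, sdiff_subset_sdiff h.1 Subset.rfl⟩
  · rintro ⟨A, B⟩ h
    simp only [mem_sigma, mem_powerset] at h ⊢
    exact ⟨union_subset h.1 (h.2.trans sdiff_subset), subset_union_left⟩
  · rintro ⟨U, A⟩ h
    simp only [mem_sigma, mem_powerset] at h
    simp [union_sdiff_of_subset h.2]
  · rintro ⟨A, B⟩ h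
    simp only [mem_sigma, mem_powerset] at h
    have hd : Disjoint A B := (disjoint_sdiff.mono_right h.2)
    simp [union_sdiff_cancel_left hd]
  · rintro ⟨U, A⟩ h
    simp only [mem_sigma, mem_powerset] at h
    have : (S \ A) \ (U \ A) = S \ U := by
      ext i
      have h1 := @h.2 i
      simp only [mem_sdiff]
      tauto
    simp [this]

theorem sum_pow_comm {W : Type} [AddCommMonoid W] (S : Finset ι)
    (g : Finset ι → Finset ι → Finset ι → W) :
    ∑ B ∈ S.powerset, ∑ A ∈ (S \ B).powerset, g A B ((S \ B) \ A) =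
      ∑ A ∈ S.powerset, ∑ B ∈ (S \ A).powerset, g A B ((S \ A) \ B) := by
  rw [Finset.sum_sigma', Finset.sum_sigma']
  refine Finset.sum_bij' (fun u _ => ⟨u.2, u.1⟩) (fun v _ => ⟨v.2, v.1⟩) ?_ ?_ ?_ ?_ ?_
  · rintro ⟨B, A⟩ h
    simp only [mem_sigma, mem_powerset, subset_sdiff] at h ⊢
    exact ⟨h.2.1, h.1, h.2.2.symm⟩
  · rintro ⟨A, B⟩ h
    simp only [mem_sigma, mem_powerset, subset_sdiff] at h ⊢
    exact ⟨h.2.1, h.1, h.2.2.symm⟩
  · rintro ⟨B, A⟩ _; rfl
  · rintro ⟨B, A⟩ _; rfl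
  · rintro ⟨B, A⟩ _
    simp only [sdiff_sdiff_comm (a := S) (b := B) (c := A)]

theorem sum_pow_flip {W : Type} [AddCommMonoid W] (S : Finset ι) (g : Finset ι → Finset ι → W) :
    ∑ A ∈ S.powerset, g A (S \ A) = ∑ A ∈ S.powerset, g (S \ A) A := by
  refine Finset.sum_bij' (fun A _ => S \ A) (fun A _ => S \ A) ?_ ?_ ?_ ?_ ?_
  · intro A _; simp
  · intro A _; simp
  · intro A h; exact Finset.sdiff_sdiff_eq_self (mem_powerset.1 h)
  · intro A h; exact Finset.sdiff_sdiff_eq_self (mem_powerset.1 h)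
  · intro A h; rw [Finset.sdiff_sdiff_eq_self (mem_powerset.1 h)]

instance : LieRing (SF ι L) where
  add_lie x y z := SF.ext fun S => by simp [SF.lie_apply, sum_add_distrib]
  lie_add x y z := SF.ext fun S => by simp [SF.lie_apply, sum_add_distrib]
  lie_self x := SF.ext fun S => by
    rw [SF.lie_apply, SF.zero_apply]
    refine Finset.sum_involution (fun A _ => S \ A) ?_ ?_ ?_ ?_
    · intro A h
      rw [Finset.sdiff_sdiff_eq_self (mem_powerset.1 h), ← lie_skew, neg_add_cancel]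
    · intro A _ h0 h
      apply h0
      rw [h, lie_self]
    · intro A _; simp
    · intro A h; exact Finset.sdiff_sdiff_eq_self (mem_powerset.1 h)
  leibniz_lie x y z := SF.ext fun S => by
    simp only [SF.add_apply, SF.lie_apply, lie_sum, sum_lie]
    rw [sum_pow_assoc S (fun A B C => ⁅⁅x A, y B⁆, z C⁆),
      sum_pow_comm S (fun A B C => ⁅y B, ⁅x A, z C⁆⁆), ← sum_add_distrib]
    refine sum_congr rfl fun A _ => ?_
    rw [← sum_add_distrib]
    exact sum_congr rfl fun B _ => leibniz_lie _ _ _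

instance : LieAlgebra K (SF ι L) where
  lie_smul c x y := SF.ext fun S => by simp [SF.lie_apply, smul_sum]

/-- the pure element `e_A ⊗ x` -/
def sg (A : Finset ι) (x : L) : SF ι L := fun S => if S = A then x else 0

/-- the abelian ideal `e_i (L ⊗ E)` -/
def II (K L : Type) [Field K] [LieRing L] [LieAlgebra K L] (i : ι) : LieIdeal K (SF ι L) where
  carrier := {ξ | ∀ S, i ∉ S → ξ S = 0}
  add_mem' := fun {x y} hx hy S h => by rw [SF.add_apply, hx S h, hy S h, add_zero]
  zero_mem' := fun _ _ => rfl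
  smul_mem' := fun c x hx S h => by rw [SF.smul_apply, hx S h, smul_zero]
  lie_mem := fun {x y} hy S h => by
    rw [SF.lie_apply]
    exact sum_eq_zero fun A _ => by rw [hy _ fun h' => h (mem_sdiff.1 h').1, lie_zero]

/-- elements without constant term and with all coefficients in `L^j` -/
def MM (G : GrL K L) (ι : Type) [DecidableEq ι] (j : ℕ) : LieIdeal K (SF ι L) where
  carrier := {ξ | ξ ∅ = 0 ∧ ∀ S, ξ S ∈ G.ge j}
  add_mem' := fun {x y} hx hy =>
    ⟨by rw [SF.add_apply, hx.1, hy.1, add_zero], fun S => add_mem (hx.2 S) (hy.2 S)⟩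
  zero_mem' := ⟨rfl, fun _ => zero_mem _⟩
  smul_mem' := fun c x hx =>
    ⟨by rw [SF.smul_apply, hx.1, smul_zero], fun S => SMulMemClass.smul_mem c (hx.2 S)⟩
  lie_mem := fun {x y} hy =>
    ⟨by simp [SF.lie_apply, hy.1], fun S => by
      rw [SF.lie_apply]
      exact sum_mem fun A _ => (G.ge j).lie_mem (hy.2 _)⟩

/-- elements whose coefficients involve at most `d` indices from `U` -/
def DG (K L : Type) [Field K] [LieRing L] [LieAlgebra K L] (U : Finset ι) (d : ℕ) :
    Submodule K (SF ι L) where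
  carrier := {ξ | ∀ S, d < (S ∩ U).card → ξ S = 0}
  add_mem' := fun {x y} hx hy S h => by rw [SF.add_apply, hx S h, hy S h, add_zero]
  zero_mem' := fun _ _ => rfl
  smul_mem' := fun c x hx S h => by rw [SF.smul_apply, hx S h, smul_zero]

end SF

/-! ### The construction, in any Lie algebra -/

section Con
variable (K : Type) {M : Type} [Field K] [LieRing M] [LieAlgebra K M]

/-- coefficient of `t ^ k` in `∏ (1 + t ad v)` -/
noncomputable def UU : List M → ℕ → Module.End K M
  | [], 0 => 1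
  | [], _ + 1 => 0
  | _ :: l, 0 => UU l 0
  | v :: l, k + 1 => UU l (k + 1) + ad K M v * UU l k

/-- the automorphism `∏ (1 + ad h)` -/
noncomputable def PP (hs : List M) : Module.End K M := (hs.map fun h => 1 + ad K M h).prod

/-- the components: each `u` adds the component `Q u` -/
noncomputable def con (bs us : List M) : List M :=
  us.foldl (fun cs u => UU K cs 2 u :: cs) bs

/-- the components of the whole construction -/
noncomputable def comps (m0 m : ℕ) (ys zs bs us : List M) : List M :=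
  con K (bs.map (UU K (zs.map ((ad K M ys.sum ^ m0 : Module.End K M))) m)) us

end Con

/-- data: elements of `L` attached to indices, and four lists of indices -/
structure Dat (ι L : Type) where
  x : ι → L
  ys : List ι
  zs : List ι
  bs : List ι
  us : List ι
  disj : ∀ i ∈ us, i ∉ ys ∧ i ∉ zs ∧ i ∉ bs

/-- change the element attached to one index -/
def Dat.upd {ι L : Type} [DecidableEq ι] (δ : Dat ι L) (i : ι) (y : L) : Dat ι L :=
  { δ with x := Function.update δ.x i y }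

section Val
variable {K L : Type} [Field K] [LieRing L] [LieAlgebra K L]

/-- `e_i ⊗ x_i` -/
def Dat.e {ι : Type} [DecidableEq ι] (δ : Dat ι L) (i : ι) : SF ι L := sg {i} (δ.x i)

noncomputable def Dat.cs (K : Type) [Field K] [LieAlgebra K L] {ι : Type} [DecidableEq ι]
    (δ : Dat ι L) (m0 m : ℕ) : List (SF ι L) :=
  comps K m0 m (δ.ys.map δ.e) (δ.zs.map δ.e) (δ.bs.map δ.e) (δ.us.map δ.e)

noncomputable def Dat.val (K : Type) [Field K] [LieAlgebra K L] {ι : Type} [DecidableEq ι]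
    (δ : Dat ι L) (m0 m : ℕ) : SF ι L := (δ.cs K m0 m).sum

/-- coefficients at sets with `n` indices of type `u` and `l` indices in all, data in `L^j` -/
def Cls (G : GrL K L) (m0 m n l j : ℕ) : Set L :=
  {v | ∃ (ι : Type) (_ : Fintype ι) (_ : DecidableEq ι) (δ : Dat ι L) (S : Finset ι),
    (∀ i, G.Hom j (δ.x i)) ∧ (S ∩ δ.us.toFinset).card = n ∧ S.card = l ∧ v = δ.val K m0 m S}

/-- `D ^ m = 0` in depth `j` -/
def NullA (G : GrL K L) (m j : ℕ) : Prop :=
  ∀ (ι : Type) [Fintype ι] [DecidableEq ι] (y z : SF ι L), y ∈ MM G ι j → z ∈ MM G ι j →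
    (ad K (SF ι L) y ^ m) z = 0

/-- `V ^ k = 0` in depth `j`, `V` the image of `D ^ m0` -/
def NullB (G : GrL K L) (m0 k j : ℕ) : Prop :=
  ∀ (ι : Type) [Fintype ι] [DecidableEq ι] (y w : SF ι L) (zs : List (SF ι L)),
    y ∈ MM G ι j → w ∈ MM G ι j → (∀ z ∈ zs, z ∈ MM G ι j) → zs.length = k →
    (zs.map fun z => ad K (SF ι L) ((ad K (SF ι L) y ^ m0) z)).prod w = 0

end Val

end Pool.Agent.MP_3312ae_al.HR.Z30
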