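import Pool.Agent.MP_3312ae_al.HR.Z30.Spec

/-! Assembly of the rows into the theorem for just infinite algebras. -/

set_option autoImplicit false

namespace Pool.Agent.MP_3312ae_al.HR.Z30

open Finset LieAlgebra Submodule

namespace Asm

variable {K L : Type} [Field K] [LieRing L] [LieAlgebra K L]

theorem mm_anti (G : GrL K L) (ι : Type) [DecidableEq ι] {j j' : ℕ} (h : j ≤ j') {x : SF ι L}
    (hx : x ∈ MM G ι j') : x ∈ MM G ι j :=
  ⟨hx.1, fun S i hi => hx.2 S i (lt_of_lt_of_le hi h)⟩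

theorem hb_mono (G : GrL K L) {q j j' : ℕ} (h : j ≤ j') (H : HB G q j) : HB G q j' :=
  fun ι _ _ hs hh => H ι hs fun x hx => ⟨mm_anti G ι h (hh x hx).1, (hh x hx).2⟩

theorem nullB_mono (G : GrL K L) {m0 k j j' : ℕ} (h : j ≤ j') (H : NullB G m0 k j) :
    NullB G m0 k j' :=
  fun ι _ _ y w zs hy hw hz hl =>
    H ι y w zs (mm_anti G ι h hy) (mm_anti G ι h hw) (fun z hz' => mm_anti G ι h (hz z hz')) hl

theorem cls_anti (G : GrL K L) {m0 m n l j j' : ℕ} (h : j ≤ j') :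
    Cls G m0 m n l j' ⊆ Cls G m0 m n l j := by
  rintro v ⟨ι, f, d, δ, S, h1, h2⟩
  refine ⟨ι, f, d, δ, S, fun i => ?_, h2⟩
  obtain ⟨c, hc, hx⟩ := h1 i
  exact ⟨c, h.trans hc, hx⟩

theorem mm_ne (G : GrL K L) (hJ : G.JI) (j : ℕ) : ∃ z ∈ MM G Unit j, z ≠ 0 := by
  obtain ⟨x, hx, hx0⟩ := Submodule.exists_mem_ne_zero_of_ne_bot (hJ.inf (j + 1) (by omega))
  refine ⟨sg {()} x, ⟨?_, fun S => ?_⟩, fun h => hx0 ?_⟩
  · exact if_neg (Finset.singleton_ne_empty ()).symm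
  · unfold sg
    split_ifs
    · intro i hi
      rw [G.π_of i (j + 1) x hx, if_neg (by omega)]
    · exact zero_mem _
  · have := congrFun h {()}
    simpa [sg] using this

theorem exists_pred {P : ℕ → Prop} {N : ℕ} (hN : P N) (h0 : ¬ P 0) :
    ∃ m, P (m + 1) ∧ ¬ P m := by
  induction N with
  | zero => exact absurd hN h0
  | succ n ih =>
    by_cases h : P n
    · exact ih h
    · exact ⟨n, hN, h⟩

end Asm

open Asm

theorem sAsm : SAsm := by
  intro hGB hColA hColB hGen hEJ hDens hNoA hNoB hLL hHb hDq hDm hM1 hInner hBound hCls hReg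
    hDeg hEqv hRel p _ K _ _ _ L _ _ G e j0 hJ hH
  classical
  have gb := hGB K L G
  have hq : 1 ≤ p ^ e := Nat.one_le_pow _ _ (Fact.out : p.Prime).pos
  have hb := hHb K L G gb _ _ hH
  obtain ⟨gen, cent⟩ := hGen hColA K L G gb
  obtain ⟨m0, ⟨j1, a1⟩, a0⟩ := exists_pred (P := fun m => ∃ j, NullA G m j)
    ⟨j0, hDq p K L G e j0 hb⟩ (by
      rintro ⟨j, h⟩
      obtain ⟨z, hz, hz0⟩ := mm_ne G hJ j
      exact hz0 (by simpa using h Unit 0 z (zero_mem _) hz))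
  obtain ⟨m, ⟨j2, b1⟩, b0⟩ := exists_pred (P := fun k => ∃ j, NullB G m0 (k + 1) j)
    (N := 2 * m0 + 2) ⟨j1, hDm K L G m0 j1 a1⟩
    (by
      rintro ⟨j, h⟩
      exact a0 ⟨j, hM1 K L G gb (cent hJ) m0 j h⟩)
  obtain ⟨l0, hl0⟩ := hReg K L G gb m0 (m + 1) fun j h => b0 ⟨j, h⟩
  have big := hCls hInner hBound K L G gb (p ^ e) m0 (m + 1) (max j0 j2) hq (by omega)
    (hb_mono G (le_max_left _ _) hb) (nullB_mono G (le_max_right _ _) b1)
  let Reg : ℕ → ℕ → Prop := fun n l => ∀ j, ∃ v ∈ Cls G m0 (m + 1) n l j, v ≠ 0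
  let R : ℕ → Prop := fun n => ∃ l, Reg n l
  have hR : R (Nat.findGreatest R (2 * p ^ e)) :=
    Nat.findGreatest_spec (P := R) (Nat.zero_le _) ⟨l0, hl0⟩
  set n := Nat.findGreatest R (2 * p ^ e) with hn
  set l := Nat.find hR with hl
  have hreg : Reg n l := Nat.find_spec hR
  have hch : ∀ n' l', ∃ j, ¬ Reg n' l' → ∀ v ∈ Cls G m0 (m + 1) n' l' j, v = 0 := by
    intro n' l'
    by_cases h : Reg n' l'
    · exact ⟨0, fun h' => absurd h h'⟩
    · simp only [Reg, not_forall, not_exists, not_and, not_not] at h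
      obtain ⟨j, hj⟩ := h
      exact ⟨j, fun _ => hj⟩
  choose jf hjf using hch
  let j := max (max j0 j2)
    ((range (2 * p ^ e + 1) ×ˢ range (2 * l + 2)).sup fun x => jf x.1 x.2)
  have hle : ∀ n' l', n' ≤ 2 * p ^ e → l' ≤ 2 * l + 1 → jf n' l' ≤ j := fun n' l' h1 h2 =>
    le_max_of_le_right (Finset.le_sup (f := fun x : ℕ × ℕ => jf x.1 x.2) (b := (n', l'))
      (by simp only [mem_product, mem_range]; omega))
  have hab : NullAbove G m0 (m + 1) n l j := by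
    refine ⟨fun n' l' h1 h2 v hv => ?_, fun l' h1 v hv => ?_⟩
    · by_cases h : n' ≤ 2 * p ^ e
      · exact hjf n' l' (fun hr => Nat.findGreatest_is_greatest h1 h ⟨l', hr⟩) v
          (cls_anti G (hle n' l' h h2) hv)
      · exact big n' l' (by omega) v (cls_anti G (le_max_left _ _) hv)
    · exact hjf n l' (Nat.find_min hR h1) v
        (cls_anti G (hle n l' (Nat.findGreatest_le _) (by omega)) hv)
  obtain ⟨S, hS⟩ := hLL K L G gb hJ gen (hDeg K L G) (hEqv K L) m0 (m + 1) n l j hreg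
    (hRel K L G gb (hDeg K L G) m0 (m + 1) n l j hab)
  have hrk := hColB K L G gb _ (G.ψ j) (gb.rep j) (gb.rep_nil j) S hS
  rcases hDens K L G gb hJ j with h | h
  · exact hNoA hEJ K L G gb hJ h
  · exact hNoB K L G gb hJ j hrk h

end Pool.Agent.MP_3312ae_al.HR.Z30
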