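import Pool.Agent.MP_3312ae_al.HR.Z30.Spec

/-! Shared lemmas for part I. -/

set_option autoImplicit false
set_option linter.unusedSectionVars false

namespace Pool.Agent.MP_3312ae_al.HR.Z30

open Finset LieAlgebra

theorem coef_zero {K W : Type} [Field K] [Infinite K] [AddCommGroup W] [Module K W] (N : ℕ)
    (f : ℕ → W) (h : ∀ t : K, ∑ k ∈ range N, t ^ k • f k = 0) : ∀ k < N, f k = 0 := by
  intro k hk
  rw [← Module.forall_dual_apply_eq_zero_iff K]
  intro φ
  have hP : (∑ i ∈ range N, Polynomial.monomial i (φ (f i)) : Polynomial K) = 0 := by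
    apply Polynomial.funext
    intro t
    have := congrArg φ (h t)
    simp only [map_sum, map_smul, smul_eq_mul, map_zero] at this
    simp only [Polynomial.eval_finsetSum, Polynomial.eval_monomial, Polynomial.eval_zero]
    rw [← this]
    exact sum_congr rfl fun i _ => mul_comm _ _
  have := congrArg (fun P => Polynomial.coeff P k) hP
  simpa [Polynomial.finsetSum_coeff, Polynomial.coeff_monomial, hk] using this

theorem coef_eq {K W : Type} [Field K] [Infinite K] [AddCommGroup W] [Module K W] (N : ℕ)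
    (f g : ℕ → W) (h : ∀ t : K, ∑ k ∈ range N, t ^ k • f k = ∑ k ∈ range N, t ^ k • g k) :
    ∀ k < N, f k = g k := by
  intro k hk
  rw [← sub_eq_zero]
  refine coef_zero (K := K) N (fun k => f k - g k) (fun t => ?_) k hk
  simp only [smul_sub, sum_sub_distrib, h t, sub_self]

section Con
variable {K M M' : Type} [Field K] [LieRing M] [LieAlgebra K M] [LieRing M'] [LieAlgebra K M']

theorem UU_cons_succ (v : M) (l : List M) (k : ℕ) :
    UU K (v :: l) (k + 1) = UU K l (k + 1) + ad K M v * UU K l k := rfl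

@[simp] theorem UU_zero (l : List M) : UU K l 0 = 1 := by
  induction l with
  | nil => rfl
  | cons v l ih => exact ih

theorem UU_one (l : List M) : UU K l 1 = ad K M l.sum := by
  induction l with
  | nil => simp [UU]
  | cons v l ih => rw [UU_cons_succ, ih, UU_zero, mul_one, List.sum_cons, map_add, add_comm]

theorem UU_of_lt (l : List M) : ∀ k, l.length < k → UU K l k = 0 := by
  induction l with
  | nil => intro k hk; cases k with
    | zero => simp at hk
    | succ k => rfl
  | cons v l ih => intro k hk; cases k with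
    | zero => simp at hk
    | succ k =>
      rw [List.length_cons] at hk
      rw [UU_cons_succ, ih _ (by omega), ih _ (by omega), mul_zero, add_zero]

theorem UU_length (l : List M) : UU K l l.length = (l.map fun v => ad K M v).prod := by
  induction l with
  | nil => rfl
  | cons v l ih =>
    rw [List.length_cons, UU_cons_succ, UU_of_lt l _ (Nat.lt_succ_self _), ih, zero_add,
      List.map_cons, List.prod_cons]

theorem PP_nil : PP K ([] : List M) = 1 := rfl
theorem PP_cons (h : M) (l : List M) : PP K (h :: l) = (1 + ad K M h) * PP K l := rfl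
theorem PP_append (l l' : List M) : PP K (l ++ l') = PP K l * PP K l' := by
  simp [PP]

theorem PP_smul (t : K) (l : List M) :
    ∀ N, l.length < N → PP K (l.map fun v => t • v) = ∑ k ∈ range N, t ^ k • UU K l k := by
  induction l with
  | nil =>
    intro N hN
    obtain ⟨N, rfl⟩ : ∃ n, N = n + 1 := ⟨N - 1, by simp at hN; omega⟩
    rw [sum_range_succ']
    simp [UU, PP]
  | cons v l ih =>
    intro N hN
    obtain ⟨N, rfl⟩ : ∃ n, N = n + 1 := ⟨N - 1, by omega⟩
    rw [List.length_cons] at hN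
    rw [List.map_cons, PP_cons, add_mul, one_mul]
    nth_rewrite 1 [ih (N + 1) (by omega)]
    rw [ih N (by omega), sum_range_succ', sum_range_succ' _ N, mul_sum]
    simp only [UU_cons_succ, smul_add, sum_add_distrib, UU_zero, map_smul, smul_mul_assoc,
      mul_smul_comm, smul_smul, pow_succ]
    abel

/-- `1 + ad h` is an automorphism when `h` lies in an abelian ideal -/
theorem one_add_ad_lie (I : LieIdeal K M) (hI : ∀ x ∈ I, ∀ y ∈ I, ⁅x, y⁆ = 0) {h : M}
    (hh : h ∈ I) (x y : M) :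
    (1 + ad K M h) ⁅x, y⁆ = ⁅(1 + ad K M h) x, (1 + ad K M h) y⁆ := by
  have h0 : ⁅⁅h, x⁆, ⁅h, y⁆⁆ = 0 :=
    hI _ (lie_mem_left K M I h x hh) _ (lie_mem_left K M I h y hh)
  simp only [LinearMap.add_apply, Module.End.one_apply, ad_apply, add_lie, lie_add, h0]
  rw [leibniz_lie h x y]
  abel

theorem PP_lie (hs : List M)
    (h : ∀ v ∈ hs, ∃ I : LieIdeal K M, (∀ x ∈ I, ∀ y ∈ I, ⁅x, y⁆ = 0) ∧ v ∈ I) (x y : M) :
    PP K hs ⁅x, y⁆ = ⁅PP K hs x, PP K hs y⁆ := by
  induction hs with
  | nil => rfl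
  | cons v l ih =>
    obtain ⟨I, hI, hv⟩ := h v List.mem_cons_self
    rw [PP_cons, Module.End.mul_apply, Module.End.mul_apply, Module.End.mul_apply,
      ih fun v hv => h v (List.mem_cons_of_mem _ hv), one_add_ad_lie I hI hv]

theorem con_nil (bs : List M) : con K bs [] = bs := rfl
theorem con_cons (bs : List M) (u : M) (us : List M) :
    con K bs (u :: us) = con K (UU K bs 2 u :: bs) us := rfl
theorem con_concat (bs us : List M) (u : M) :
    con K bs (us ++ [u]) = UU K (con K bs us) 2 u :: con K bs us := by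
  simp [con, List.foldl_append]

/-! naturality -/

theorem ad_pow_map (f : M →ₗ⁅K⁆ M') (y : M) (k : ℕ) (w : M) :
    f ((ad K M y ^ k) w) = (ad K M' (f y) ^ k) (f w) := by
  induction k with
  | zero => rfl
  | succ k ih => simp only [pow_succ', Module.End.mul_apply, ad_apply, LieHom.map_lie, ih]

theorem ad_prod_map (f : M →ₗ⁅K⁆ M') (l : List M) (w : M) :
    f ((l.map fun v => ad K M v).prod w) = ((l.map f).map fun v => ad K M' v).prod (f w) := by
  induction l with
  | nil => rfl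
  | cons v l ih =>
    simp only [List.map_cons, List.prod_cons, Module.End.mul_apply, ad_apply, LieHom.map_lie, ih]

theorem UU_map (f : M →ₗ⁅K⁆ M') (l : List M) :
    ∀ (k : ℕ) (w : M), f (UU K l k w) = UU K (l.map f) k (f w) := by
  induction l with
  | nil => intro k w; cases k with
    | zero => rfl
    | succ k => simp [UU]
  | cons v l ih => intro k w; cases k with
    | zero => simp
    | succ k =>
      simp only [List.map_cons, UU_cons_succ, LinearMap.add_apply, Module.End.mul_apply, ad_apply,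
        map_add, LieHom.map_lie, ih]

theorem PP_map (f : M →ₗ⁅K⁆ M') (l : List M) (w : M) :
    f (PP K l w) = PP K (l.map f) (f w) := by
  induction l with
  | nil => rfl
  | cons v l ih =>
    simp only [List.map_cons, PP_cons, LinearMap.add_apply, Module.End.mul_apply, ad_apply,
      Module.End.one_apply, map_add, LieHom.map_lie, ih]

theorem con_map (f : M →ₗ⁅K⁆ M') (us : List M) :
    ∀ bs : List M, (con K bs us).map f = con K (bs.map f) (us.map f) := by
  induction us with
  | nil => intro bs; rfl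
  | cons u us ih => intro bs; rw [con_cons, ih, List.map_cons, List.map_cons, con_cons, UU_map]

theorem comps_map (f : M →ₗ⁅K⁆ M') (m0 m : ℕ) (ys zs bs us : List M) :
    (comps K m0 m ys zs bs us).map f =
      comps K m0 m (ys.map f) (zs.map f) (bs.map f) (us.map f) := by
  unfold comps
  rw [con_map]
  congr 1
  rw [List.map_map, List.map_map]
  refine List.map_congr_left fun b _ => ?_
  simp only [Function.comp_apply]
  rw [UU_map]
  congr 2
  rw [List.map_map, List.map_map]
  refine List.map_congr_left fun z _ => ?_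
  simp only [Function.comp_apply]
  rw [ad_pow_map, map_list_sum]

theorem comps_sum_map (f : M →ₗ⁅K⁆ M') (m0 m : ℕ) (ys zs bs us : List M) :
    f (comps K m0 m ys zs bs us).sum =
      (comps K m0 m (ys.map f) (zs.map f) (bs.map f) (us.map f)).sum := by
  rw [map_list_sum, comps_map]

/-! membership -/

theorem UU_mem_of (N : Submodule K M) (l : List M) (h : ∀ v ∈ l, ∀ w ∈ N, ⁅v, w⁆ ∈ N) :
    ∀ (k : ℕ), ∀ w ∈ N, UU K l k w ∈ N := by
  induction l with
  | nil => intro k w hw; cases k with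
    | zero => exact hw
    | succ k => exact N.zero_mem
  | cons v l ih => intro k w hw; cases k with
    | zero => simpa using hw
    | succ k =>
      have ih' := ih fun v hv => h v (List.mem_cons_of_mem _ hv)
      exact N.add_mem (ih' _ w hw) (h v List.mem_cons_self _ (ih' _ w hw))

theorem ad_pow_mem_of (N : Submodule K M) (y : M) (h : ∀ w ∈ N, ⁅y, w⁆ ∈ N) (k : ℕ) :
    ∀ w ∈ N, (ad K M y ^ k) w ∈ N := by
  induction k with
  | zero => intro w hw; exact hw
  | succ k ih => intro w hw; rw [pow_succ']; exact h _ (ih w hw)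

theorem UU_mem_ideal (I : LieIdeal K M) (l : List M) (k : ℕ) {w : M} (hw : w ∈ I) :
    UU K l k w ∈ I :=
  UU_mem_of I.toSubmodule l (fun _ _ _ hw => I.lie_mem hw) k w hw

theorem ad_pow_mem_ideal (I : LieIdeal K M) (y : M) (k : ℕ) {w : M} (hw : w ∈ I) :
    (ad K M y ^ k) w ∈ I :=
  ad_pow_mem_of I.toSubmodule y (fun _ hw => I.lie_mem hw) k w hw

theorem UU_mem (S : LieSubalgebra K M) (l : List M) (h : ∀ v ∈ l, v ∈ S) (k : ℕ) {w : M}
    (hw : w ∈ S) : UU K l k w ∈ S :=
  UU_mem_of S.toSubmodule l (fun v hv _ hw => S.lie_mem (h v hv) hw) k w hw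

theorem con_mem (S : LieSubalgebra K M) (us : List M) (hu : ∀ u ∈ us, u ∈ S) :
    ∀ bs : List M, (∀ b ∈ bs, b ∈ S) → ∀ c ∈ con K bs us, c ∈ S := by
  induction us with
  | nil => intro bs hb; exact hb
  | cons u us ih =>
    intro bs hb
    rw [con_cons]
    refine ih (fun v hv => hu v (List.mem_cons_of_mem _ hv)) _ fun b hb' => ?_
    rcases List.mem_cons.1 hb' with rfl | hb'
    · exact UU_mem S bs hb 2 (hu u List.mem_cons_self)
    · exact hb b hb'

theorem comps_mem (S : LieSubalgebra K M) (m0 m : ℕ) (ys zs bs us : List M)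
    (hy : ∀ v ∈ ys, v ∈ S) (hz : ∀ v ∈ zs, v ∈ S) (hb : ∀ v ∈ bs, v ∈ S) (hu : ∀ v ∈ us, v ∈ S) :
    ∀ c ∈ comps K m0 m ys zs bs us, c ∈ S := by
  refine con_mem S us hu _ fun b hb' => ?_
  obtain ⟨b, hb2, rfl⟩ := List.mem_map.1 hb'
  refine UU_mem S _ (fun v hv => ?_) m (hb b hb2)
  obtain ⟨z, hz', rfl⟩ := List.mem_map.1 hv
  exact ad_pow_mem_of S.toSubmodule _ (fun w hw => S.lie_mem (list_sum_mem hy) hw) m0 z (hz z hz')

theorem comps_sum_mem (S : LieSubalgebra K M) (m0 m : ℕ) (ys zs bs us : List M)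
    (hy : ∀ v ∈ ys, v ∈ S) (hz : ∀ v ∈ zs, v ∈ S) (hb : ∀ v ∈ bs, v ∈ S) (hu : ∀ v ∈ us, v ∈ S) :
    (comps K m0 m ys zs bs us).sum ∈ S :=
  list_sum_mem (comps_mem S m0 m ys zs bs us hy hz hb hu)

theorem con_mem_ideal (J : Set (LieIdeal K M)) (us : List M) (hu : ∀ u ∈ us, ∃ I ∈ J, u ∈ I) :
    ∀ bs : List M, (∀ b ∈ bs, ∃ I ∈ J, b ∈ I) → ∀ c ∈ con K bs us, ∃ I ∈ J, c ∈ I := by
  induction us with
  | nil => intro bs hb; exact hb
  | cons u us ih =>
    intro bs hb
    rw [con_cons]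
    refine ih (fun v hv => hu v (List.mem_cons_of_mem _ hv)) _ fun b hb' => ?_
    rcases List.mem_cons.1 hb' with rfl | hb'
    · obtain ⟨I, hI, h⟩ := hu u List.mem_cons_self
      exact ⟨I, hI, UU_mem_ideal I bs 2 h⟩
    · exact hb b hb'

theorem comps_mem_ideal (J : Set (LieIdeal K M)) (m0 m : ℕ) (ys zs bs us : List M)
    (hb : ∀ b ∈ bs, ∃ I ∈ J, b ∈ I) (hu : ∀ u ∈ us, ∃ I ∈ J, u ∈ I) :
    ∀ c ∈ comps K m0 m ys zs bs us, ∃ I ∈ J, c ∈ I := by
  refine con_mem_ideal J us hu _ fun b hb' => ?_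
  obtain ⟨b, hb2, rfl⟩ := List.mem_map.1 hb'
  obtain ⟨I, hI, h⟩ := hb b hb2
  exact ⟨I, hI, UU_mem_ideal I _ m h⟩

/-! removal of zero entries -/

/-- the second list is obtained from the first by deleting some zero entries -/
inductive ZR : List M → List M → Prop
  | nil : ZR [] []
  | cons (v : M) {l l' : List M} : ZR l l' → ZR (v :: l) (v :: l')
  | zero {l l' : List M} : ZR l l' → ZR (0 :: l) l'

theorem ZR.refl (l : List M) : ZR l l := by
  induction l with
  | nil => exact ZR.nil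
  | cons v l ih => exact ZR.cons v ih

theorem ZR.of_zero (l : List M) (h : ∀ v ∈ l, v = 0) : ZR l [] := by
  induction l with
  | nil => exact ZR.nil
  | cons v l ih =>
    rw [h v List.mem_cons_self]
    exact ZR.zero (ih fun v hv => h v (List.mem_cons_of_mem _ hv))

theorem ZR.append {l₁ l₁' l₂ l₂' : List M} (h₁ : ZR l₁ l₁') (h₂ : ZR l₂ l₂') :
    ZR (l₁ ++ l₂) (l₁' ++ l₂') := by
  induction h₁ with
  | nil => exact h₂
  | cons v _ ih => exact ZR.cons v ih
  | zero _ ih => exact ZR.zero ih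

theorem ZR.append_left (l l' : List M) (h : ∀ v ∈ l', v = 0) : ZR (l ++ l') l := by
  simpa using (ZR.refl l).append (ZR.of_zero l' h)

theorem ZR.append_right (l l' : List M) (h : ∀ v ∈ l, v = 0) : ZR (l ++ l') l' := by
  simpa using (ZR.of_zero l h).append (ZR.refl l')

theorem ZR.sum_eq {l l' : List M} (h : ZR l l') : l.sum = l'.sum := by
  induction h with
  | nil => rfl
  | cons v _ ih => simp [ih]
  | zero _ ih => simp [ih]

theorem ZR.map {l l' : List M} (h : ZR l l') (f : M → M) (hf : f 0 = 0) :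
    ZR (l.map f) (l'.map f) := by
  induction h with
  | nil => exact ZR.nil
  | cons v _ ih => exact ZR.cons _ ih
  | zero _ ih => rw [List.map_cons, hf]; exact ZR.zero ih

theorem ZR.UU_eq {l l' : List M} (h : ZR l l') : ∀ k, UU K l k = UU K l' k := by
  induction h with
  | nil => intro k; rfl
  | cons v _ ih => intro k; cases k with
    | zero => simp
    | succ k => rw [UU_cons_succ, UU_cons_succ, ih, ih]
  | zero _ ih => intro k; cases k with
    | zero => simp
    | succ k => rw [UU_cons_succ, ih, map_zero, zero_mul, add_zero]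

theorem ZR.con {us us' : List M} (h : ZR us us') :
    ∀ {bs bs' : List M}, ZR bs bs' → ZR (con K bs us) (con K bs' us') := by
  induction h with
  | nil => intro bs bs' hb; exact hb
  | cons v _ ih =>
    intro bs bs' hb
    rw [con_cons, con_cons, hb.UU_eq]
    exact ih (ZR.cons _ hb)
  | zero _ ih =>
    intro bs bs' hb
    rw [con_cons, map_zero]
    exact ih (ZR.zero hb)

theorem ZR.comps (m0 m : ℕ) {ys ys' zs zs' bs bs' us us' : List M} (hy : ZR ys ys')
    (hz : ZR zs zs') (hb : ZR bs bs') (hu : ZR us us') :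
    ZR (comps K m0 m ys zs bs us) (comps K m0 m ys' zs' bs' us') := by
  unfold Z30.comps
  rw [hy.sum_eq, (hz.map _ (map_zero _)).UU_eq]
  exact hu.con (hb.map _ (map_zero _))

end Con

section SF
variable {ι κ K L : Type} [DecidableEq ι] [DecidableEq κ] [Field K] [LieRing L] [LieAlgebra K L]

theorem sg_apply (A S : Finset ι) (x : L) : sg A x S = if S = A then x else 0 := rfl
@[simp] theorem sg_self (A : Finset ι) (x : L) : sg A x A = x := if_pos rfl
theorem sg_ne {A S : Finset ι} (h : S ≠ A) (x : L) : sg A x S = 0 := if_neg h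
@[simp] theorem sg_zero (A : Finset ι) : sg A (0 : L) = 0 := SF.ext fun S => by simp [sg_apply]
theorem sg_add (A : Finset ι) (x y : L) : sg A (x + y) = sg A x + sg A y :=
  SF.ext fun S => by simp only [sg_apply, SF.add_apply]; split_ifs <;> simp
theorem sg_smul (A : Finset ι) (c : K) (x : L) : sg A (c • x) = c • sg A x :=
  SF.ext fun S => by simp only [sg_apply, SF.smul_apply]; split_ifs <;> simp

theorem SF.sum_apply {α : Type} (s : Finset α) (f : α → SF ι L) (S : Finset ι) :
    (∑ a ∈ s, f a) S = ∑ a ∈ s, f a S := Finset.sum_apply S s f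

theorem SF.list_sum_apply (l : List (SF ι L)) (S : Finset ι) :
    l.sum S = (l.map fun ξ => ξ S).sum := by
  induction l with
  | nil => rfl
  | cons v l ih => simp [ih]

theorem sg_sum {α : Type} (A : Finset ι) (s : Finset α) (f : α → L) :
    sg A (∑ a ∈ s, f a) = ∑ a ∈ s, sg A (f a) :=
  SF.ext fun S => by
    simp only [SF.sum_apply, sg_apply]; split_ifs <;> simp

theorem sum_sg [Fintype ι] (ξ : SF ι L) : ∑ A : Finset ι, sg A (ξ A) = ξ :=
  SF.ext fun S => by
    rw [SF.sum_apply, sum_eq_single S]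
    · exact sg_self _ _
    · intro B _ hB; exact sg_ne hB.symm _
    · intro h; exact absurd (mem_univ _) h

theorem sg_lie_apply (A S : Finset ι) (x : L) (ξ : SF ι L) :
    ⁅sg A x, ξ⁆ S = if A ⊆ S then ⁅x, ξ (S \ A)⁆ else 0 := by
  rw [SF.lie_apply]
  split_ifs with h
  · rw [sum_eq_single A]
    · rw [sg_self]
    · intro B _ hB; rw [sg_ne hB, zero_lie]
    · intro h'; exact absurd (mem_powerset.2 h) h'
  · refine sum_eq_zero fun B hB => ?_
    rw [sg_ne, zero_lie]
    rintro rfl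
    exact h (mem_powerset.1 hB)

theorem lie_sg_apply (A S : Finset ι) (x : L) (ξ : SF ι L) :
    ⁅ξ, sg A x⁆ S = if A ⊆ S then ⁅ξ (S \ A), x⁆ else 0 := by
  rw [← lie_skew, SF.neg_apply, sg_lie_apply]
  split_ifs
  · rw [lie_skew]
  · rw [neg_zero]

theorem sg_lie_sg (A B : Finset ι) (x y : L) :
    ⁅sg A x, sg B y⁆ = if Disjoint A B then sg (A ∪ B) ⁅x, y⁆ else 0 := by
  refine SF.ext fun S => ?_
  rw [sg_lie_apply, sg_apply]
  by_cases hS : A ⊆ S ∧ S \ A = B
  · obtain ⟨h1, rfl⟩ := hS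
    rw [if_pos h1, if_pos rfl, if_pos disjoint_sdiff, union_sdiff_of_subset h1, sg_self]
  · have h0 : (if A ⊆ S then ⁅x, if S \ A = B then y else 0⁆ else 0) = (0 : L) := by
      split_ifs with h1 h2
      · exact absurd ⟨h1, h2⟩ hS
      · exact lie_zero x
      · rfl
    rw [h0]
    split_ifs with hd
    · rw [sg_ne]
      rintro rfl
      exact hS ⟨subset_union_left, union_sdiff_cancel_left hd⟩
    · rfl

theorem mem_II {i : ι} {ξ : SF ι L} : ξ ∈ II K L i ↔ ∀ S, i ∉ S → ξ S = 0 := Iff.rfl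
theorem mem_MM {G : GrL K L} {j : ℕ} {ξ : SF ι L} :
    ξ ∈ MM G ι j ↔ ξ ∅ = 0 ∧ ∀ S, ξ S ∈ G.ge j := Iff.rfl
theorem mem_DG {U : Finset ι} {d : ℕ} {ξ : SF ι L} :
    ξ ∈ DG K L U d ↔ ∀ S, d < (S ∩ U).card → ξ S = 0 := Iff.rfl
theorem GrL.mem_ge {G : GrL K L} {j : ℕ} {x : L} : x ∈ G.ge j ↔ ∀ i < j, G.π i x = 0 := Iff.rfl

theorem GrL.Hom.mem_ge {G : GrL K L} {j : ℕ} {x : L} (h : G.Hom j x) : x ∈ G.ge j := by
  obtain ⟨d, hd, hx⟩ := h
  intro i hi
  rw [G.π_of i d x hx, if_neg (by omega)]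

theorem GrL.Hom.mono {G : GrL K L} {j j' : ℕ} {x : L} (h : G.Hom j' x) (hj : j ≤ j') :
    G.Hom j x := by
  obtain ⟨d, hd, hx⟩ := h
  exact ⟨d, hj.trans hd, hx⟩

theorem GrL.ge_anti (G : GrL K L) {j j' : ℕ} (hj : j ≤ j') : G.ge j' ≤ G.ge j :=
  fun _ hx i hi => hx i (hi.trans_le hj)

theorem MM_anti (G : GrL K L) {j j' : ℕ} (hj : j ≤ j') : MM G ι j' ≤ MM G ι j :=
  fun _ hx => ⟨hx.1, fun S => G.ge_anti hj (hx.2 S)⟩

theorem II_abelian (i : ι) : ∀ x ∈ II K L i, ∀ y ∈ II K L i, ⁅x, y⁆ = (0 : SF ι L) := by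
  intro x hx y hy
  refine SF.ext fun S => ?_
  rw [SF.lie_apply]
  refine sum_eq_zero fun A _ => ?_
  by_cases h : i ∈ A
  · rw [hy _ fun h' => (mem_sdiff.1 h').2 h, lie_zero]
  · rw [hx _ h, zero_lie]

theorem sg_mem_II {i : ι} {A : Finset ι} (h : i ∈ A) (x : L) : sg A x ∈ II K L i :=
  fun S hS => sg_ne (by rintro rfl; exact hS h) x

theorem sg_mem_MM {G : GrL K L} {j : ℕ} {A : Finset ι} (hA : A.Nonempty) {x : L}
    (hx : x ∈ G.ge j) : sg A x ∈ MM G ι j :=
  ⟨sg_ne hA.ne_empty.symm x, fun S => by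
    rw [sg_apply]; split_ifs
    · exact hx
    · exact zero_mem _⟩

theorem sg_mem_DG {U A : Finset ι} {d : ℕ} (h : (A ∩ U).card ≤ d) (x : L) :
    sg A x ∈ DG K L U d :=
  fun S hS => sg_ne (by rintro rfl; omega) x

theorem DG_mono (U : Finset ι) : Monotone (DG K L U) :=
  fun _ _ h _ hx S hS => hx S (h.trans_lt hS)

theorem DG_lie (U : Finset ι) (a b : ℕ) (x y : SF ι L) (hx : x ∈ DG K L U a)
    (hy : y ∈ DG K L U b) : ⁅x, y⁆ ∈ DG K L U (a + b) := by
  intro S hS
  rw [SF.lie_apply]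
  refine sum_eq_zero fun A hA => ?_
  by_cases h : a < (A ∩ U).card
  · rw [hx _ h, zero_lie]
  · rw [hy, lie_zero]
    have h1 : S ∩ U ⊆ (A ∩ U) ∪ ((S \ A) ∩ U) := by
      intro i hi
      simp only [mem_inter, mem_union, mem_sdiff] at hi ⊢
      tauto
    have := (card_le_card h1).trans (card_union_le _ _)
    omega

/-- pull back along an embedding of index sets -/
def pull (K L : Type) [Field K] [LieRing L] [LieAlgebra K L] (φ : ι ↪ κ) :
    SF κ L →ₗ⁅K⁆ SF ι L where
  toFun ξ := fun S => ξ (S.map φ)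
  map_add' _ _ := rfl
  map_smul' _ _ := rfl
  map_lie' := fun {x y} => SF.ext fun S => by
    change ∑ A ∈ (S.map φ).powerset, ⁅x A, y (S.map φ \ A)⁆ =
      ∑ A ∈ S.powerset, ⁅x (A.map φ), y ((S \ A).map φ)⁆
    symm
    refine sum_bij (fun A _ => A.map φ) ?_ ?_ ?_ ?_
    · intro A hA
      exact mem_powerset.2 (map_subset_map.2 (mem_powerset.1 hA))
    · intro A _ B _ h
      exact map_injective φ h
    · intro B hB
      obtain ⟨A, hA, rfl⟩ := subset_map_iff.1 (mem_powerset.1 hB)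
      exact ⟨A, mem_powerset.2 hA, rfl⟩
    · intro A _
      rw [Finset.map_sdiff]

theorem pull_apply (φ : ι ↪ κ) (ξ : SF κ L) (S : Finset ι) : pull K L φ ξ S = ξ (S.map φ) := rfl

theorem pull_sg (φ : ι ↪ κ) (A : Finset ι) (x : L) : pull K L φ (sg (A.map φ) x) = sg A x :=
  SF.ext fun S => by simp only [pull_apply, sg_apply, map_inj]

theorem pull_sg_single (φ : ι ↪ κ) (i : ι) (x : L) : pull K L φ (sg {φ i} x) = sg {i} x := by
  rw [← map_singleton, pull_sg]

theorem pull_sg_zero (φ : ι ↪ κ) {A : Finset κ} {k : κ} (hk : k ∈ A) (h : ∀ i, φ i ≠ k) (x : L) :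
    pull K L φ (sg A x) = 0 :=
  SF.ext fun S => by
    rw [pull_apply, sg_ne, SF.zero_apply]
    rintro rfl
    obtain ⟨i, _, hi⟩ := mem_map.1 hk
    exact h i hi

theorem Cls_anti (G : GrL K L) (m0 m n l : ℕ) {j j' : ℕ} (hj : j ≤ j') :
    Cls G m0 m n l j' ⊆ Cls G m0 m n l j := by
  rintro v ⟨ι, h1, h2, δ, S, hx, h⟩
  exact ⟨ι, h1, h2, δ, S, fun i => (hx i).mono hj, h⟩

end SF

end Pool.Agent.MP_3312ae_al.HR.Z30
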