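import Pool.Agent.MP_3312ae_al.HR.Z30.Spec

/-! Row `SBound`: the components of the construction have bounded degree. -/

set_option autoImplicit false

namespace Pool.Agent.MP_3312ae_al.HR.Z30

open LieAlgebra

namespace Bound

variable {K M : Type} [Field K] [LieRing M] [LieAlgebra K M]

theorem ad_lie' (x y : M) : ad K M ⁅x, y⁆ = ad K M x * ad K M y - ad K M y * ad K M x := by
  ext w
  simp

theorem UU_zero (cs : List M) : UU K cs 0 = 1 := by
  induction cs with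
  | nil => rfl
  | cons v l ih => rw [UU, ih]

theorem UU_one (cs : List M) : UU K cs 1 = ad K M cs.sum := by
  induction cs with
  | nil => rw [UU]; simp
  | cons v l ih => rw [UU, ih, UU_zero, mul_one, List.sum_cons, map_add, add_comm]

theorem UU_two_cons (v : M) (l : List M) :
    UU K (v :: l) 2 = UU K l 2 + ad K M v * ad K M l.sum := by
  rw [UU, UU_one]

theorem UU_two_nil : UU K ([] : List M) 2 = 0 := by rw [UU]

theorem PP_cons (h : M) (hs : List M) : PP K (h :: hs) = (1 + ad K M h) * PP K hs := by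
  simp [PP]

theorem Q_ideal (cs : List M) (I : LieIdeal K M) {x : M} (hx : x ∈ I) : UU K cs 2 x ∈ I := by
  induction cs with
  | nil => rw [UU_two_nil]; exact zero_mem _
  | cons v l ih =>
    rw [UU_two_cons]
    exact add_mem ih (I.lie_mem (I.lie_mem hx))

theorem pure0 {I : LieIdeal K M} (hI : ∀ x ∈ I, ∀ y ∈ I, ⁅x, y⁆ = 0) {x y : M} (hx : x ∈ I)
    (hy : y ∈ I) (X : Module.End K M) (hX : ∀ z ∈ I, X z ∈ I) :
    ad K M x * X * ad K M y = 0 := by
  ext w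
  exact hI _ hx _ (hX _ (lie_mem_left K M I y w hy))

theorem sum_mem' {V : Submodule K M} {cs : List M} (h : ∀ c ∈ cs, c ∈ V) : cs.sum ∈ V :=
  list_sum_mem h

section
variable {V : Submodule K M} (hab : ∀ v ∈ V, ∀ v' ∈ V, ⁅v, v'⁆ = 0)
  (hin : ∀ v ∈ V, ∀ v' ∈ V, ∀ w : M, ⁅v, ⁅v', w⁆⁆ ∈ V)

include hin in
theorem Q_mem (cs : List M) (h : ∀ c ∈ cs, c ∈ V) (w : M) : UU K cs 2 w ∈ V := by
  induction cs with
  | nil => rw [UU_two_nil]; exact zero_mem _
  | cons v l ih =>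
    rw [UU_two_cons]
    have hl : ∀ c ∈ l, c ∈ V := fun c hc => h c (List.mem_cons_of_mem _ hc)
    exact add_mem (ih hl) (hin _ (h v List.mem_cons_self) _ (sum_mem' hl) w)

include hab in
theorem Q_kill (cs : List M) (h : ∀ c ∈ cs, c ∈ V) {x : M} (hx : ∀ v ∈ V, ⁅v, x⁆ ∈ V) :
    UU K cs 2 x = 0 := by
  induction cs with
  | nil => rw [UU_two_nil]; rfl
  | cons v l ih =>
    rw [UU_two_cons]
    have hl : ∀ c ∈ l, c ∈ V := fun c hc => h c (List.mem_cons_of_mem _ hc)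
    have := hab _ (h v List.mem_cons_self) _ (hx _ (sum_mem' hl))
    rw [LinearMap.add_apply, ih hl, zero_add]
    exact this

include hab in
theorem ad_comm {v v' : M} (hv : v ∈ V) (hv' : v' ∈ V) :
    ad K M v * ad K M v' = ad K M v' * ad K M v := by
  rw [← sub_eq_zero, ← ad_lie', hab _ hv _ hv', map_zero]

include hab hin in
theorem ad_Q (cs : List M) (h : ∀ c ∈ cs, c ∈ V) {v : M} (hv : v ∈ V) :
    ad K M v * UU K cs 2 = 0 := by
  ext w
  exact hab _ hv _ (Q_mem hin cs h w)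

include hab hin in
theorem Q_ad (cs : List M) (h : ∀ c ∈ cs, c ∈ V) {v : M} (hv : v ∈ V) :
    UU K cs 2 * ad K M v = 0 := by
  ext w
  exact Q_kill hab cs h fun v' hv' => hin _ hv' _ hv w

variable {J : Set (LieIdeal K M)} (hJ : ∀ I ∈ J, ∀ x ∈ I, ∀ y ∈ I, ⁅x, y⁆ = 0)

include hab hJ in
theorem Y_sq (cs : List M) (h : ∀ c ∈ cs, c ∈ V ∧ ∃ I ∈ J, c ∈ I) :
    ad K M cs.sum * ad K M cs.sum = UU K cs 2 + UU K cs 2 := by
  induction cs with
  | nil => simp [UU_two_nil]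
  | cons v l ih =>
    have hl : ∀ c ∈ l, c ∈ V ∧ ∃ I ∈ J, c ∈ I := fun c hc => h c (List.mem_cons_of_mem _ hc)
    obtain ⟨hv, I, hI, hvI⟩ := h v List.mem_cons_self
    have h1 := ih hl
    have h2 := pure0 (hJ I hI) hvI hvI 1 (fun _ hz => hz)
    have h3 := ad_comm hab hv (sum_mem' fun c hc => (hl c hc).1)
    rw [UU_two_cons, List.sum_cons, map_add]
    linear_combination (norm := noncomm_ring) h1 + h2 - h3

include hab hJ in
theorem star2 (cs : List M) (h : ∀ c ∈ cs, c ∈ V ∧ ∃ I ∈ J, c ∈ I) (u : M) :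
    ad K M (UU K cs 2 u) = UU K cs 2 * ad K M u - ad K M cs.sum * ad K M u * ad K M cs.sum
      + ad K M u * UU K cs 2 := by
  induction cs with
  | nil => simp [UU_two_nil]
  | cons v l ih =>
    have hl : ∀ c ∈ l, c ∈ V ∧ ∃ I ∈ J, c ∈ I := fun c hc => h c (List.mem_cons_of_mem _ hc)
    obtain ⟨hv, I, hI, hvI⟩ := h v List.mem_cons_self
    have h1 := ih hl
    have h2 := pure0 (hJ I hI) hvI hvI (ad K M u) (fun _ hz => I.lie_mem hz)
    have h3 := ad_comm hab hv (sum_mem' fun c hc => (hl c hc).1)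
    have h4 : (ad K M v * ad K M l.sum) u = ⁅v, ⁅l.sum, u⁆⁆ := rfl
    rw [UU_two_cons, List.sum_cons, LinearMap.add_apply, map_add, map_add, h4, ad_lie', ad_lie']
    linear_combination (norm := noncomm_ring) h1 + h2 - ad K M u * h3

include hab hin hJ in
theorem star3 (cs : List M) (h : ∀ c ∈ cs, c ∈ V ∧ ∃ I ∈ J, c ∈ I) (u : M) :
    UU K cs 2 * ad K M u * ad K M cs.sum = ad K M cs.sum * ad K M u * UU K cs 2 := by
  induction cs with
  | nil => simp [UU_two_nil]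
  | cons v l ih =>
    have hl : ∀ c ∈ l, c ∈ V ∧ ∃ I ∈ J, c ∈ I := fun c hc => h c (List.mem_cons_of_mem _ hc)
    have hl' : ∀ c ∈ l, c ∈ V := fun c hc => (hl c hc).1
    obtain ⟨hv, I, hI, hvI⟩ := h v List.mem_cons_self
    have h1 := ih hl
    have h2 := pure0 (hJ I hI) hvI hvI (ad K M u) (fun _ hz => I.lie_mem hz)
    have h2' := pure0 (hJ I hI) hvI hvI (ad K M l.sum * ad K M u)
      (fun _ hz => I.lie_mem (I.lie_mem hz))
    have h3 := ad_comm hab hv (sum_mem' hl')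
    have h4 := ad_comm hab hv (Q_mem hin l hl' u)
    rw [star2 hab hJ l hl u] at h4
    have h5 := ad_Q hab hin l hl' hv
    have h6 := Q_ad hab hin l hl' hv
    rw [UU_two_cons, List.sum_cons, map_add]
    linear_combination (norm := noncomm_ring) h1 + h2' - h2 * ad K M l.sum - h4 + h5 * ad K M u
      - ad K M u * h6 - ad K M l.sum * ad K M u * h3

/-- the invariants of the construction -/
structure Inv (V : Submodule K M) (J : Set (LieIdeal K M)) (N : ℕ → Submodule K M)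
    (Qb : Module.End K M) (cs hs : List M) (Γ B : Module.End K M) : Prop where
  good : ∀ c ∈ cs, c ∈ V ∧ ∃ I ∈ J, c ∈ I
  hpure : ∀ h ∈ hs, ∃ I ∈ J, h ∈ I
  i1 : UU K cs 2 * PP K hs = Qb
  i2 : ∀ w, ⁅cs.sum, PP K hs w⁆ - Γ w ∈ V
  i3 : ∀ w, ∀ v ∈ V, ⁅v, PP K hs w - B w⁆ ∈ V
  i4 : ∀ x, (∀ v ∈ V, ⁅v, x⁆ ∈ V) → ∀ v ∈ V, ⁅v, PP K hs x⁆ ∈ V
  dG : ∀ a x, x ∈ N a → Γ x ∈ N (a + 1)
  dB : ∀ a x, x ∈ N a → B x ∈ N (a + 2)

include hab hin hJ in
theorem Inv.step {N : ℕ → Submodule K M}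
    (hN : ∀ a b x y, x ∈ N a → y ∈ N b → ⁅x, y⁆ ∈ N (a + b))
    {Qb : Module.End K M} (hQ : ∀ a x, x ∈ N a → Qb x ∈ N a) {cs hs : List M}
    {Γ B : Module.End K M} (h : Inv V J N Qb cs hs Γ B) {u : M} (hu : u ∈ N 1)
    {I : LieIdeal K M} (hI : I ∈ J) (huI : u ∈ I) :
    Inv V J N Qb (UU K cs 2 u :: cs) (-⁅cs.sum, u⁆ :: hs) (Γ + ad K M u * Qb)
      (B + ad K M u * Γ) := by
  have hl' : ∀ c ∈ cs, c ∈ V := fun c hc => (h.good c hc).1
  have hs' : cs.sum ∈ V := sum_mem' hl'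
  have hQI : UU K cs 2 u ∈ I := Q_ideal cs I huI
  have hYI : ⁅cs.sum, u⁆ ∈ I := I.lie_mem huI
  have s2 := star2 hab hJ cs h.good u
  have s3 := star3 hab hin hJ cs h.good u
  have sq := Y_sq hab hJ cs h.good
  have h5 := ad_Q hab hin cs hl' hs'
  have h6 := Q_ad hab hin cs hl' hs'
  have p1 := pure0 (hJ I hI) hQI hYI (ad K M cs.sum) (fun _ hz => I.lie_mem hz)
  have p2 := pure0 (hJ I hI) hQI hYI 1 (fun _ hz => hz)
  have aY := ad_lie' (K := K) cs.sum u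
  have F0 : ∀ x y : M, (∀ v ∈ V, ⁅v, x⁆ ∈ V) → (∀ v ∈ V, ⁅v, y⁆ ∈ V) →
      ∀ v ∈ V, ⁅v, ⁅x, y⁆⁆ ∈ V := by
    intro x y hx hy v hv
    have e : ⁅v, ⁅x, y⁆⁆ = ⁅⁅v, x⁆, y⁆ - ⁅⁅v, y⁆, x⁆ := by
      rw [leibniz_lie v x y, sub_eq_add_neg, lie_skew]
    rw [e]
    exact sub_mem (hy _ (hx v hv)) (hx _ (hy v hv))
  have F1 : ∀ v' ∈ V, ∀ (w : M), ∀ v ∈ V, ⁅v, ⁅w, v'⁆⁆ ∈ V := by
    intro v' hv' w v hv
    rw [← lie_skew w v', lie_neg]
    exact neg_mem (hin _ hv _ hv' w)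
  refine ⟨?_, ?_, ?_, ?_, ?_, ?_, ?_, ?_⟩
  · intro c hc
    rcases List.mem_cons.1 hc with rfl | hc
    · exact ⟨Q_mem hin cs hl' u, I, hI, hQI⟩
    · exact h.good c hc
  · intro c hc
    rcases List.mem_cons.1 hc with rfl | hc
    · exact ⟨I, hI, neg_mem hYI⟩
    · exact h.hpure c hc
  · have key : (UU K cs 2 + ad K M (UU K cs 2 u) * ad K M cs.sum) * (1 + -ad K M ⁅cs.sum, u⁆)
        = UU K cs 2 := by
      linear_combination (norm := noncomm_ring) -p1 - UU K cs 2 * aY + s2 * ad K M cs.sum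
        - h6 * ad K M u + ad K M u * h6 - ad K M cs.sum * ad K M u * sq + s3 + s3
    rw [UU_two_cons, PP_cons, map_neg, ← mul_assoc, key, h.i1]
  · intro w
    have key : (ad K M (UU K cs 2 u) + ad K M cs.sum) * (1 + -ad K M ⁅cs.sum, u⁆)
        = ad K M cs.sum + ad K M u * UU K cs 2 - UU K cs 2 * ad K M u := by
      linear_combination (norm := noncomm_ring) -p2 + s2 - ad K M cs.sum * aY - sq * ad K M u
    have e1 : ⁅(UU K cs 2 u :: cs).sum, PP K (-⁅cs.sum, u⁆ :: hs) w⁆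
        = ((ad K M (UU K cs 2 u) + ad K M cs.sum) * (1 + -ad K M ⁅cs.sum, u⁆)) (PP K hs w) := by
      rw [List.sum_cons, PP_cons, map_neg, ← map_add]
      rfl
    have e2 : Qb w = UU K cs 2 (PP K hs w) := by rw [← h.i1]; rfl
    have e3 : ⁅(UU K cs 2 u :: cs).sum, PP K (-⁅cs.sum, u⁆ :: hs) w⁆ - (Γ + ad K M u * Qb) w
        = (⁅cs.sum, PP K hs w⁆ - Γ w) - UU K cs 2 ⁅u, PP K hs w⁆ := by
      rw [e1, key]
      simp only [LinearMap.add_apply, LinearMap.sub_apply, Module.End.mul_apply, ad_apply, e2]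
      abel
    rw [e3]
    exact sub_mem (h.i2 w) (Q_mem hin cs hl' _)
  · intro w v hv
    have e3 : PP K (-⁅cs.sum, u⁆ :: hs) w - (B + ad K M u * Γ) w
        = (PP K hs w - B w) - ⁅cs.sum, ⁅u, PP K hs w⁆⁆ + ⁅u, ⁅cs.sum, PP K hs w⁆ - Γ w⁆ := by
      rw [PP_cons, map_neg, aY]
      simp only [LinearMap.add_apply, LinearMap.sub_apply, LinearMap.neg_apply,
        Module.End.mul_apply, ad_apply, Module.End.one_apply, lie_sub]
      abel
    rw [e3, lie_add, lie_sub]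
    exact add_mem (sub_mem (h.i3 w v hv) (hin _ hv _ hs' _)) (F1 _ (h.i2 w) u v hv)
  · intro x hx v hv
    have e3 : PP K (-⁅cs.sum, u⁆ :: hs) x = PP K hs x - ⁅⁅cs.sum, u⁆, PP K hs x⁆ := by
      rw [PP_cons, map_neg]
      simp only [LinearMap.add_apply, LinearMap.neg_apply,
        Module.End.mul_apply, ad_apply, Module.End.one_apply]
      abel
    rw [e3, lie_sub]
    exact sub_mem (h.i4 x hx v hv)
      (F0 _ _ (fun v' hv' => hin _ hv' _ hs' u) (h.i4 x hx) v hv)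
  · intro a x hx
    refine add_mem (h.dG a x hx) ?_
    rw [add_comm a 1]
    exact hN _ _ _ _ hu (hQ a x hx)
  · intro a x hx
    refine add_mem (h.dB a x hx) ?_
    rw [show a + 2 = 1 + (a + 1) by omega]
    exact hN _ _ _ _ hu (h.dG a x hx)

theorem Inv.deg {N : ℕ → Submodule K M} {Qb : Module.End K M}
    (hQ : ∀ a x, x ∈ N a → Qb x ∈ N a) (hQ0 : ∀ x, (∀ v ∈ V, ⁅v, x⁆ ∈ V) → Qb x = 0)
    {cs hs : List M} {Γ B : Module.End K M} (h : Inv V J N Qb cs hs Γ B) {q : ℕ} (hq : 1 ≤ q)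
    (hP : PP K hs ^ q = 1) {u : M} (hu : u ∈ N 1) : UU K cs 2 u ∈ N (2 * q - 1) := by
  have a1 : ∀ k : ℕ, (∀ v ∈ V, ⁅v, (PP K hs ^ k) u - (B ^ k) u⁆ ∈ V) ∧
      (B ^ k) u ∈ N (2 * k + 1) := by
    intro k
    induction k with
    | zero => exact ⟨fun v _ => by simp, by simpa using hu⟩
    | succ k ih =>
      refine ⟨fun v hv => ?_, ?_⟩
      · have e : (PP K hs ^ (k + 1)) u - (B ^ (k + 1)) u
            = PP K hs ((PP K hs ^ k) u - (B ^ k) u) + (PP K hs ((B ^ k) u) - B ((B ^ k) u)) := by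
          rw [pow_succ', pow_succ', Module.End.mul_apply, Module.End.mul_apply, map_sub]
          abel
        rw [e, lie_add]
        exact add_mem (h.i4 _ ih.1 v hv) (h.i3 _ v hv)
      · rw [pow_succ', Module.End.mul_apply, show 2 * (k + 1) + 1 = 2 * k + 1 + 2 by omega]
        exact h.dB _ _ ih.2
  obtain ⟨k, rfl⟩ : ∃ k, q = k + 1 := ⟨q - 1, by omega⟩
  have e1 : UU K cs 2 = Qb * PP K hs ^ k := by
    rw [← h.i1, mul_assoc, ← pow_succ', hP, mul_one]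
  have e2 : UU K cs 2 u = Qb ((B ^ k) u) := by
    rw [e1, Module.End.mul_apply, ← sub_eq_zero, ← map_sub]
    exact hQ0 _ (a1 k).1
  rw [e2, show 2 * (k + 1) - 1 = 2 * k + 1 by omega]
  exact hQ _ _ (a1 k).2

end

theorem Q_deg {N : ℕ → Submodule K M}
    (hN : ∀ a b x y, x ∈ N a → y ∈ N b → ⁅x, y⁆ ∈ N (a + b)) (bs : List M)
    (hb : ∀ b ∈ bs, b ∈ N 0) (a : ℕ) (x : M) (hx : x ∈ N a) : UU K bs 2 x ∈ N a := by
  induction bs with
  | nil => rw [UU_two_nil]; exact zero_mem _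
  | cons v l ih =>
    rw [UU_two_cons]
    have hl : ∀ c ∈ l, c ∈ N 0 := fun c hc => hb c (List.mem_cons_of_mem _ hc)
    refine add_mem (ih hl) ?_
    have h1 := hN _ _ _ _ (hb v List.mem_cons_self) (hN _ _ _ _ (sum_mem' hl) hx)
    rwa [zero_add, zero_add] at h1

end Bound

open _root_.Pool.Agent.MP_3312ae_al.HR.Z30.Bound in
theorem sBound : SBound := by
  intro K M _ _ _ _ J hJ V hab hin N hmono hN q hq hP bs us hbs hus
  have hbV : ∀ b ∈ bs, b ∈ V := fun b hb => (hbs b hb).1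
  have hQ := Q_deg hN bs fun b hb => (hbs b hb).2.1
  have hQ0 : ∀ x, (∀ v ∈ V, ⁅v, x⁆ ∈ V) → UU K bs 2 x = 0 := fun x hx => Q_kill hab bs hbV hx
  have main : ∀ (us cs hs : List M) (Γ B : Module.End K M), Inv V J N (UU K bs 2) cs hs Γ B →
      (∀ c ∈ cs, c ∈ N (2 * q - 1)) → (∀ u ∈ us, u ∈ N 1 ∧ ∃ I ∈ J, u ∈ I) →
      ∀ c ∈ con K cs us, c ∈ N (2 * q - 1) := by
    intro us
    induction us with
    | nil => intro cs _ _ _ _ h _; exact h
    | cons u us ih =>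
      intro cs hs Γ B h hc hu
      obtain ⟨hu1, I, hI, huI⟩ := hu u List.mem_cons_self
      refine ih _ _ _ _ (h.step hab hin hJ hN hQ hu1 hI huI) ?_
        fun u' hu' => hu u' (List.mem_cons_of_mem _ hu')
      intro c hc'
      rcases List.mem_cons.1 hc' with rfl | hc'
      · exact h.deg hQ hQ0 hq (hP hs h.hpure) hu1
      · exact hc c hc'
  have hPP : PP K ([] : List M) = 1 := by simp [PP]
  refine main us bs [] (ad K M bs.sum) 1 ⟨fun b hb => ⟨(hbs b hb).1, (hbs b hb).2.2⟩, by simp,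
    by rw [hPP, mul_one], fun w => by simp [hPP], fun w v _ => by simp [hPP],
    fun x hx => by simpa [hPP] using hx, fun a x hx => ?_,
    fun a x hx => hmono (by omega) hx⟩ (fun b hb => hmono (Nat.zero_le _) (hbs b hb).2.1) hus
  have h1 := hN _ _ _ _ (sum_mem' fun b hb => (hbs b hb).2.1) hx
  exact hmono (by omega) h1

end Pool.Agent.MP_3312ae_al.HR.Z30
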