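import Pool.Agent.MP_3312ae_al.HR.Z30.Spec

/-! Row Cls: classes with many `u`-indices vanish. -/

set_option autoImplicit false
set_option linter.unusedSectionVars false

namespace Pool.Agent.MP_3312ae_al.HR.Z30

open Finset LieAlgebra

namespace ClsAux

section Nat
variable {K M M' : Type} [Field K] [LieRing M] [LieAlgebra K M] [LieRing M'] [LieAlgebra K M']

theorem UU_map (f : M →ₗ⁅K⁆ M') : ∀ (l : List M) (k : ℕ) (x : M),
    f (UU K l k x) = UU K (l.map f) k (f x)
  | [], 0, x => by simp [UU]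
  | [], _ + 1, x => by simp [UU]
  | _ :: l, 0, x => by simpa [UU] using UU_map f l 0 x
  | v :: l, k + 1, x => by
    simp only [UU, List.map_cons, LinearMap.add_apply, Module.End.mul_apply, ad_apply, map_add,
      LieHom.map_lie, UU_map f l (k + 1) x, UU_map f l k x]

theorem con_map (f : M →ₗ⁅K⁆ M') (us : List M) : ∀ bs : List M,
    (con K bs us).map f = con K (bs.map f) (us.map f) := by
  induction us with
  | nil => intro bs; rfl
  | cons u us ih =>
    intro bs
    have := ih (UU K bs 2 u :: bs)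
    simp only [con, List.foldl_cons, List.map_cons] at this ⊢
    rw [this, UU_map]

theorem pow_map (f : M →ₗ⁅K⁆ M') (y : M) : ∀ (m : ℕ) (z : M),
    f ((ad K M y ^ m) z) = (ad K M' (f y) ^ m) (f z)
  | 0, z => by simp
  | m + 1, z => by
    rw [pow_succ', pow_succ', Module.End.mul_apply, Module.End.mul_apply, ad_apply, ad_apply,
      LieHom.map_lie, pow_map f y m z]

theorem comps_map (f : M →ₗ⁅K⁆ M') (m0 m : ℕ) (ys zs bs us : List M) :
    (comps K m0 m ys zs bs us).map f =
      comps K m0 m (ys.map f) (zs.map f) (bs.map f) (us.map f) := by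
  unfold comps
  rw [con_map, List.map_map, List.map_map, List.map_map]
  congr 1
  refine List.map_congr_left fun b _ => ?_
  simp only [Function.comp_apply]
  rw [UU_map, List.map_map]
  congr 2
  refine List.map_congr_left fun z _ => ?_
  simp only [Function.comp_apply]
  rw [pow_map, map_list_sum]

theorem adprod_map (f : M →ₗ⁅K⁆ M') : ∀ (l : List M) (w : M),
    f ((l.map fun v => ad K M v).prod w) = ((l.map f).map fun v => ad K M' v).prod (f w)
  | [], w => by simp
  | v :: l, w => by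
    simp only [List.map_cons, List.prod_cons, Module.End.mul_apply, ad_apply, LieHom.map_lie,
      adprod_map f l w]

theorem PP_map (f : M →ₗ⁅K⁆ M') : ∀ (l : List M) (w : M),
    f (PP K l w) = PP K (l.map f) (f w)
  | [], w => by simp [PP]
  | v :: l, w => by
    have := PP_map f l w
    simp only [PP] at this
    simp only [PP, List.map_cons, List.prod_cons, Module.End.mul_apply, LinearMap.add_apply,
      Module.End.one_apply, ad_apply, map_add, LieHom.map_lie, this]

theorem PP_pow_map (f : M →ₗ⁅K⁆ M') (l : List M) : ∀ (q : ℕ) (w : M),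
    f ((PP K l ^ q) w) = (PP K (l.map f) ^ q) (f w)
  | 0, w => by simp
  | q + 1, w => by
    rw [pow_succ', pow_succ', Module.End.mul_apply, Module.End.mul_apply, PP_map,
      PP_pow_map f l q w]

theorem UU_mem (P : Submodule K M) : ∀ (l : List M), (∀ v ∈ l, ∀ x ∈ P, ⁅v, x⁆ ∈ P) →
    ∀ (k : ℕ) (x : M), x ∈ P → UU K l k x ∈ P
  | [], _, 0, x, hx => by simpa [UU] using hx
  | [], _, _ + 1, x, _ => by simp [UU]
  | _ :: l, h, 0, x, hx => by
    simpa [UU] using UU_mem P l (fun v hv => h v (List.mem_cons_of_mem _ hv)) 0 x hx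
  | v :: l, h, k + 1, x, hx => by
    have h' := fun w hw => h w (List.mem_cons_of_mem v hw)
    simp only [UU, LinearMap.add_apply, Module.End.mul_apply, ad_apply]
    exact add_mem (UU_mem P l h' _ x hx) (h v List.mem_cons_self _ (UU_mem P l h' _ x hx))

theorem pow_mem' (P : Submodule K M) (y : M) (h : ∀ x ∈ P, ⁅y, x⁆ ∈ P) :
    ∀ (m : ℕ) (z : M), z ∈ P → (ad K M y ^ m) z ∈ P
  | 0, z, hz => by simpa using hz
  | m + 1, z, hz => by
    rw [pow_succ', Module.End.mul_apply, ad_apply]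
    exact h _ (pow_mem' P y h m z hz)

end Nat

section SF
variable {ι K L : Type} [DecidableEq ι] [Field K] [LieRing L] [LieAlgebra K L]

theorem II_ab (i : ι) {x y : SF ι L} (hx : x ∈ II K L i) (hy : y ∈ II K L i) : ⁅x, y⁆ = 0 := by
  refine SF.ext fun S => ?_
  rw [SF.lie_apply, SF.zero_apply]
  refine sum_eq_zero fun A _ => ?_
  by_cases h : i ∈ A
  · rw [hy _ fun h' => (mem_sdiff.1 h').2 h, lie_zero]
  · rw [hx _ h, zero_lie]

theorem DG_lie (U : Finset ι) {a b : ℕ} {x y : SF ι L} (hx : x ∈ DG K L U a)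
    (hy : y ∈ DG K L U b) : ⁅x, y⁆ ∈ DG K L U (a + b) := by
  intro S hS
  rw [SF.lie_apply]
  refine sum_eq_zero fun A hA => ?_
  by_cases h : a < (A ∩ U).card
  · rw [hx _ h, zero_lie]
  · have hc : (S ∩ U).card ≤ (A ∩ U).card + ((S \ A) ∩ U).card := by
      refine le_trans (card_le_card ?_) (card_union_le _ _)
      intro i hi
      simp only [mem_union, mem_inter, mem_sdiff] at hi ⊢
      tauto
    rw [hy _ (by omega), lie_zero]

theorem sg_II (i : ι) (x : L) : sg {i} x ∈ II K L i := by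
  intro S hS
  unfold sg
  rw [if_neg]
  rintro rfl
  exact hS (mem_singleton_self i)

theorem sg_DG0 (U : Finset ι) {i : ι} (hi : i ∉ U) (x : L) : sg {i} x ∈ DG K L U 0 := by
  intro S hS
  unfold sg
  rw [if_neg]
  rintro rfl
  rw [singleton_inter_of_notMem hi] at hS
  simp at hS

theorem sg_DG1 (U : Finset ι) (i : ι) (x : L) : sg {i} x ∈ DG K L U 1 := by
  intro S hS
  unfold sg
  rw [if_neg]
  rintro rfl
  have : (({i} : Finset ι) ∩ U).card ≤ ({i} : Finset ι).card := card_le_card inter_subset_left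
  rw [card_singleton] at this
  omega

theorem sg_MM (G : GrL K L) (hG : G.GB) {j : ℕ} (i : ι) {x : L} (hx : G.Hom j x) :
    sg {i} x ∈ MM G ι j := by
  refine ⟨?_, fun S => ?_⟩
  · unfold sg
    rw [if_neg (singleton_ne_empty i).symm]
  · unfold sg
    split_ifs
    · exact (hG.ge_iff j x).2 (Submodule.subset_span hx)
    · exact zero_mem _

end SF

theorem exists_map {α β : Type} (g : α → β) : ∀ l : List β, (∀ v ∈ l, ∃ z, g z = v) →
    ∃ l' : List α, l'.map g = l
  | [], _ => ⟨[], rfl⟩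
  | v :: l, h => by
    obtain ⟨z, rfl⟩ := h v List.mem_cons_self
    obtain ⟨l', rfl⟩ := exists_map g l fun w hw => h w (List.mem_cons_of_mem _ hw)
    exact ⟨z :: l', rfl⟩

end ClsAux

open ClsAux in
theorem sCls : SCls := by
  intro hI hB K L _ _ _ _ G hG q m0 m j hq hm hHB hN n l hn v hv
  obtain ⟨ι, _, _, δ, S, hx, hS, -, rfl⟩ := hv
  let M : Type := MM G ι j
  let f : M →ₗ⁅K⁆ SF ι L := (MM G ι j).incl
  have hf : Function.Injective f := (MM G ι j).incl_injective
  let e : ι → M := fun i => ⟨δ.e i, sg_MM G hG i (hx i)⟩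
  have hfe : ∀ l : List ι, (l.map e).map f = l.map δ.e := fun l => by
    rw [List.map_map]; rfl
  let J : Set (LieIdeal K M) := {I | ∃ i : ι, I = (II K L i).comap f}
  have hJ : ∀ I ∈ J, ∀ x ∈ I, ∀ y ∈ I, ⁅x, y⁆ = 0 := by
    rintro I ⟨i, rfl⟩ x hx y hy
    apply hf
    rw [LieHom.map_lie, map_zero]
    exact II_ab i (LieIdeal.mem_comap.1 hx) (LieIdeal.mem_comap.1 hy)
  have heJ : ∀ i, e i ∈ (II K L i).comap f := fun i => LieIdeal.mem_comap.2 (sg_II i _)
  let y : M := (δ.ys.map e).sum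
  let vs : List M := (δ.zs.map e).map (ad K M y ^ m0 : Module.End K M)
  have hvsJ : ∀ v ∈ vs, ∃ I ∈ J, v ∈ I := by
    intro v hv
    simp only [vs, List.mem_map] at hv
    obtain ⟨_, ⟨i, -, rfl⟩, rfl⟩ := hv
    exact ⟨_, ⟨i, rfl⟩, pow_mem' ((II K L i).comap f).toSubmodule y
      (fun x hx => ((II K L i).comap f).lie_mem hx) m0 _ (heJ i)⟩
  have hnull : ∀ l : List M, (∀ v ∈ l, v ∈ vs) → l.length = m + 1 →
      (l.map fun v => ad K M v).prod = 0 := by
    intro l hl hlen
    obtain ⟨l', rfl⟩ := exists_map (ad K M y ^ m0 : Module.End K M) l fun v hv => by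
      obtain ⟨z, -, hz⟩ := List.mem_map.1 (hl v hv)
      exact ⟨z, hz⟩
    ext1 w
    apply hf
    rw [adprod_map, LinearMap.zero_apply, map_zero]
    have := hN ι (f y) (f w) (l'.map f) y.2 w.2
      (fun z hz => by obtain ⟨z', -, rfl⟩ := List.mem_map.1 hz; exact z'.2)
      (by simpa using hlen)
    rw [← this, List.map_map, List.map_map, List.map_map]
    congr 2
    refine List.map_congr_left fun z _ => ?_
    simp only [Function.comp_apply]
    rw [pow_map]
  obtain ⟨hab, hinn⟩ := hI K M J hJ vs m hm hvsJ hnull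
  let U : Finset ι := δ.us.toFinset
  let N : ℕ → Submodule K M := fun d => (DG K L U d).comap (f : M →ₗ[K] SF ι L)
  have hNlie : ∀ a b x y, x ∈ N a → y ∈ N b → ⁅x, y⁆ ∈ N (a + b) := by
    intro a b x y hx hy
    have : f ⁅x, y⁆ ∈ DG K L U (a + b) := by
      rw [LieHom.map_lie]
      exact DG_lie U hx hy
    exact this
  have he0 : ∀ i, i ∉ δ.us → e i ∈ N 0 := fun i hi =>
    sg_DG0 (K := K) U (fun h => hi (List.mem_toFinset.1 h)) (δ.x i)
  have hy0 : y ∈ N 0 := list_sum_mem fun z hz => by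
    obtain ⟨i, hi, rfl⟩ := List.mem_map.1 hz
    exact he0 i fun h => (δ.disj i h).1 hi
  have hvs0 : ∀ v ∈ vs, v ∈ N 0 := by
    intro v hv
    simp only [vs, List.mem_map] at hv
    obtain ⟨_, ⟨i, hi, rfl⟩, rfl⟩ := hv
    exact pow_mem' (N 0) y (fun x hx => hNlie 0 0 _ _ hy0 hx) m0 _
      (he0 i fun h => (δ.disj i h).2.1 hi)
  have key := hB K M J hJ (LinearMap.range (UU K vs m))
    (by rintro _ ⟨u, rfl⟩ _ ⟨u', rfl⟩; exact hab u u')
    (by
      rintro _ ⟨u, rfl⟩ _ ⟨u', rfl⟩ w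
      obtain ⟨w', hw'⟩ := hinn u u' w
      exact ⟨w', hw'.symm⟩)
    N (fun a b hab x hx T hT => hx T (lt_of_le_of_lt hab hT)) hNlie q hq
    (by
      intro hs hhs
      ext1 w
      apply hf
      rw [PP_pow_map, hHB ι (hs.map f)]
      · rfl
      · intro h hh
        obtain ⟨h', hh', rfl⟩ := List.mem_map.1 hh
        obtain ⟨_, ⟨i, rfl⟩, hi⟩ := hhs h' hh'
        exact ⟨h'.2, i, LieIdeal.mem_comap.1 hi⟩)
    ((δ.bs.map e).map (UU K vs m)) (δ.us.map e)
    (by
      intro b hb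
      simp only [List.mem_map] at hb
      obtain ⟨_, ⟨i, hi, rfl⟩, rfl⟩ := hb
      refine ⟨⟨_, rfl⟩, UU_mem (N 0) vs (fun v hv x hx => hNlie 0 0 _ _ (hvs0 v hv) hx) m _
        (he0 i fun h => (δ.disj i h).2.2 hi), _, ⟨i, rfl⟩, ?_⟩
      exact UU_mem ((II K L i).comap f).toSubmodule vs
        (fun v _ x hx => ((II K L i).comap f).lie_mem hx) m _ (heJ i))
    (by
      intro u hu
      obtain ⟨i, -, rfl⟩ := List.mem_map.1 hu
      exact ⟨sg_DG1 (K := K) U i (δ.x i), _, ⟨i, rfl⟩, heJ i⟩)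
  have hsum : (comps K m0 m (δ.ys.map e) (δ.zs.map e) (δ.bs.map e) (δ.us.map e)).sum ∈
      N (2 * q - 1) := list_sum_mem key
  have hval : δ.val K m0 m =
      f (comps K m0 m (δ.ys.map e) (δ.zs.map e) (δ.bs.map e) (δ.us.map e)).sum := by
    rw [map_list_sum, comps_map, hfe, hfe, hfe, hfe]
    rfl
  rw [hval]
  exact hsum S (by change 2 * q - 1 < (S ∩ δ.us.toFinset).card; omega)

end Pool.Agent.MP_3312ae_al.HR.Z30
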