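import Pool.Agent.MP_3312ae_al.HR.Z30.Spec
import Pool.Agent.MP_3312ae_al.HR.Z.EJ

/-! Rows ColA and ColB: collecting short nilpotent commutators. -/

set_option autoImplicit false

namespace Pool.Agent.MP_3312ae_al.HR.Z30

open Submodule

namespace ColA

variable {K L : Type} [Field K] [LieRing L] [LieAlgebra K L]
variable {R : Type} [Ring R] [Algebra K R]

theorem exists_short (G : GrL K L) (hG : G.GB) (S : ℕ) :
    ∃ C : Finset L, (∀ c ∈ C, IsComm G.a c ∧ ∃ d, c ∈ G.A d) ∧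
      ∀ d < S, G.A d ≤ span K (C : Set L) := by
  classical
  have h : ∀ d, ∃ C : Finset L, (∀ c ∈ C, IsComm G.a c ∧ c ∈ G.A d) ∧
      G.A d ≤ span K (C : Set L) := by
    intro d
    have he : span K {x | IsComm G.a x ∧ x ∈ G.A d} = G.A d :=
      le_antisymm (span_le.2 fun x hx => hx.2) (hG.comm_span d)
    have hfg : (span K {x | IsComm G.a x ∧ x ∈ G.A d}).FG := by
      rw [he]
      have := hG.fd d
      exact Module.Finite.iff_fg.1 inferInstance
    obtain ⟨C, hC, hC'⟩ := (fg_span_iff_fg_span_finset_subset _).1 hfg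
    exact ⟨C, fun c hc => hC hc, by rw [← hC', he]⟩
  choose C hC hC' using h
  refine ⟨(Finset.range S).biUnion C, fun c hc => ?_, fun d hd => (hC' d).trans (span_mono ?_)⟩
  · obtain ⟨d, _, hd⟩ := Finset.mem_biUnion.1 hc
    exact ⟨(hC d c hd).1, d, (hC d c hd).2⟩
  · exact Finset.coe_subset.2 (Finset.subset_biUnion_of_mem C (Finset.mem_range.2 hd))

theorem hom_ind (G : GrL K L) {M : Type} [AddCommGroup M] [Module K M] (f : L →ₗ[K] M)
    (T : Submodule K M) (h : ∀ d x, x ∈ G.A d → f x ∈ T) (x : L) : f x ∈ T := by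
  obtain ⟨N, hN⟩ := G.fin x
  rw [← hN N le_rfl, map_sum]
  exact sum_mem fun i _ => h i _ (G.π_mem i x)

theorem range_br {ψ : L →ₗ[K] R} (hψ : IsRep ψ) :
    ∀ x ∈ LinearMap.range ψ, ∀ y ∈ LinearMap.range ψ, x * y - y * x ∈ LinearMap.range ψ := by
  rintro _ ⟨x, rfl⟩ _ ⟨y, rfl⟩
  exact ⟨⁅x, y⁆, hψ x y⟩

theorem word_mem (ψ : L →ₗ[K] R) (l : List L) :
    word ψ l ∈ (1 ⊔ LinearMap.range ψ) ^ l.length := by
  have := EJ.prod_mem_pow (1 ⊔ LinearMap.range ψ) (l.map ψ) (by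
    intro x hx
    obtain ⟨y, _, rfl⟩ := List.mem_map.1 hx
    exact mem_sup_right ⟨y, rfl⟩)
  simpa [word] using this

theorem short_mem [DecidableEq R] (ψ : L →ₗ[K] R) {C : Finset L} {x : L}
    (hx : x ∈ span K (C : Set L)) : ψ x ∈ span K ((C.image ψ : Finset R) : Set R) := by
  rw [Finset.coe_image, ← map_span]
  exact mem_map_of_mem hx

theorem word_cons (ψ : L →ₗ[K] R) (x : L) (l : List L) : word ψ (x :: l) = ψ x * word ψ l := by
  simp [word]

theorem word_append (ψ : L →ₗ[K] R) (l l' : List L) :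
    word ψ (l ++ l') = word ψ l * word ψ l' := by
  simp [word]

theorem pow_le_words [DecidableEq R] (ψ : L →ₗ[K] R) (C : Finset L) (m : ℕ) :
    (1 ⊔ span K ((C.image ψ : Finset R) : Set R)) ^ m ≤
      span K (word ψ '' {b | (∀ c ∈ b, c ∈ C) ∧ b.length ≤ m}) := by
  induction m with
  | zero =>
    rw [pow_zero, Submodule.one_le]
    exact subset_span ⟨[], by simp, by simp [word]⟩
  | succ m ih =>
    rw [pow_succ']
    refine (mul_le_mul_right ih _).trans ?_
    rw [Submodule.sup_mul, one_mul, span_mul_span]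
    refine sup_le (span_mono (Set.image_mono fun b hb => ⟨hb.1, hb.2.trans (Nat.le_succ m)⟩))
      (span_mono ?_)
    rintro _ ⟨x, hx, _, ⟨b, hb, rfl⟩, rfl⟩
    obtain ⟨c, hc, rfl⟩ := Finset.mem_image.1 (Finset.mem_coe.1 hx)
    refine ⟨c :: b, ⟨?_, by simpa using hb.2⟩, word_cons ψ c b⟩
    intro y hy
    rcases List.mem_cons.1 hy with rfl | hy
    · exact hc
    · exact hb.1 y hy

omit [LieRing L] in
theorem finite_lists (C : Finset L) (m : ℕ) :
    {b : List L | (∀ c ∈ b, c ∈ C) ∧ b.length ≤ m}.Finite := by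
  refine ((List.finite_length_le C m).image (List.map Subtype.val)).subset ?_
  rintro b ⟨hb, hl⟩
  refine ⟨b.pmap Subtype.mk hb, by simpa using hl, ?_⟩
  simp [List.map_pmap]

theorem abs_col {Ls Lg : Submodule K R} (hbr : ∀ x ∈ Ls, ∀ y ∈ Ls, x * y - y * x ∈ Ls)
    (C : Finset R) (hC : ∀ c ∈ C, c ∈ Ls) (hn : ∀ c ∈ C, IsNilpotent c) (h1 : 1 ≤ Lg)
    (hgg : Lg * Lg ≤ Lg) (hLs : Ls * Lg ≤ Lg * (1 ⊔ span K (C : Set R))) :
    ∃ m : ℕ, ∀ t : ℕ, (1 ⊔ Ls) ^ t ≤ Lg * (1 ⊔ span K (C : Set R)) ^ m := by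
  set S := span K (C : Set R) with hS
  have hSL : S ≤ 1 ⊔ Ls := (span_le.2 hC).trans le_sup_right
  have hA : ∀ t, (1 ⊔ Ls) ^ t ≤ Lg * (1 ⊔ S) ^ t := by
    intro t
    induction t with
    | zero => simpa using h1
    | succ t ih =>
      rw [pow_succ' (1 ⊔ Ls)]
      refine (mul_le_mul_right ih _).trans ?_
      rw [Submodule.sup_mul, one_mul, ← mul_assoc]
      refine sup_le (mul_le_mul_right (EJ.pow_mono_one le_sup_left (Nat.le_succ t)) _) ?_
      rw [pow_succ', ← mul_assoc]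
      exact mul_le_mul_left hLs _
  obtain ⟨m, hm⟩ := EJ.span_pow_le hbr C hC hn
  have hB : ∀ t, (1 ⊔ S) ^ (m + t) ≤ Lg * (1 ⊔ S) ^ m := by
    intro t
    induction t with
    | zero => simpa using mul_le_mul_left h1 _
    | succ t ih =>
      refine (EJ.sup_pow_le S (m + t)).trans (sup_le ?_ ih)
      have h2 : S ^ (m + t + 1) ≤ (1 ⊔ Ls) ^ (m + t) := by
        rw [show m + t + 1 = m + 1 + t by omega, pow_add, pow_add (1 ⊔ Ls)]
        exact mul_le_mul' hm (pow_le_pow_left' hSL _)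
      refine (h2.trans (hA _)).trans ((mul_le_mul_right ih _).trans ?_)
      rw [← mul_assoc]
      exact mul_le_mul_left hgg _
  refine ⟨m, fun t => ?_⟩
  refine ((EJ.pow_mono_one le_sup_left (Nat.le_add_left t m)).trans (hA _)).trans ?_
  refine (mul_le_mul_right (hB t) _).trans ?_
  rw [← mul_assoc]
  exact mul_le_mul_left hgg _

theorem comm_word (G : GrL K L) {ψ : L →ₗ[K] R} (hψ : IsRep ψ) (S : ℕ) {d : ℕ} {x : L}
    (hx : x ∈ G.A d) (l : List L) (hl : ∀ z ∈ l, G.Hom S z) :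
    ψ x * word ψ l - word ψ l * ψ x ∈ span K (word ψ '' {l | ∀ z ∈ l, G.Hom S z}) := by
  induction l with
  | nil => simp [word]
  | cons z l ih =>
    have hl' : ∀ y ∈ l, G.Hom S y := fun y hy => hl y (by simp [hy])
    obtain ⟨e, he, hz⟩ := hl z (by simp)
    have h1 : ψ x * word ψ (z :: l) - word ψ (z :: l) * ψ x =
        word ψ (⁅x, z⁆ :: l) + ψ z * (ψ x * word ψ l - word ψ l * ψ x) := by
      rw [word_cons, word_cons, hψ]; noncomm_ring
    rw [h1]
    refine add_mem (subset_span ⟨_, ?_, rfl⟩) ?_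
    · intro y hy
      rcases List.mem_cons.1 hy with rfl | hy
      · exact ⟨d + e, by omega, G.lie_mem _ _ _ _ hx hz⟩
      · exact hl' y hy
    · refine span_induction (p := fun r _ => ψ z * r ∈
        span K (word ψ '' {l | ∀ z ∈ l, G.Hom S z})) ?_ (by simp) ?_ ?_ (ih hl')
      · rintro _ ⟨l', hl'', rfl⟩
        refine subset_span ⟨z :: l', ?_, word_cons ψ z l'⟩
        intro y hy
        rcases List.mem_cons.1 hy with rfl | hy
        · exact ⟨e, he, hz⟩
        · exact hl'' y hy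
      · intro a b _ _ ha hb
        rw [mul_add]; exact add_mem ha hb
      · intro c a _ ha
        rw [mul_smul_comm]; exact smul_mem _ c ha

end ColA

open ColA

theorem sColA : SColA := by
  classical
  intro K L _ _ _ G hG R _ _ ψ hψ hnil S
  obtain ⟨C, hC, hCs⟩ := exists_short G hG S
  set Lg := span K (word ψ '' {l | ∀ z ∈ l, G.Hom S z}) with hLg
  have h1 : 1 ≤ Lg := Submodule.one_le.2 (subset_span ⟨[], by simp, by simp [word]⟩)
  have hgg : Lg * Lg ≤ Lg := by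
    rw [hLg, span_mul_span]
    refine span_mono ?_
    rintro _ ⟨_, ⟨l, hl, rfl⟩, _, ⟨l', hl', rfl⟩, rfl⟩
    refine ⟨l ++ l', fun z hz => ?_, word_append ψ l l'⟩
    rcases List.mem_append.1 hz with h | h
    · exact hl z h
    · exact hl' z h
  have hLs : LinearMap.range ψ * Lg ≤ Lg * (1 ⊔ span K ((C.image ψ : Finset R) : Set R)) := by
    have hle : Lg ≤ Lg * (1 ⊔ span K ((C.image ψ : Finset R) : Set R)) := by
      simpa using mul_le_mul_right (le_sup_left (a := (1 : Submodule K R))) Lg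
    rw [Submodule.mul_le]
    rintro _ ⟨x, rfl⟩ r hr
    refine span_induction (p := fun r _ => ψ x * r ∈
      Lg * (1 ⊔ span K ((C.image ψ : Finset R) : Set R))) ?_ (by simp) ?_ ?_ hr
    · rintro _ ⟨l, hl, rfl⟩
      refine hom_ind G ((LinearMap.mulRight K (word ψ l)).comp ψ) _ ?_ x
      intro d y hy
      change ψ y * word ψ l ∈ _
      by_cases hd : d < S
      · have : ψ y * word ψ l = word ψ l * ψ y + (ψ y * word ψ l - word ψ l * ψ y) := by abel
        rw [this]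
        exact add_mem (mul_mem_mul (subset_span ⟨l, hl, rfl⟩)
          (mem_sup_right (short_mem ψ (hCs d hd hy)))) (hle (comm_word G hψ S hy l hl))
      · refine hle (subset_span ⟨y :: l, ?_, word_cons ψ y l⟩)
        intro z hz
        rcases List.mem_cons.1 hz with rfl | hz
        · exact ⟨d, by omega, hy⟩
        · exact hl z hz
    · intro a b _ _ ha hb
      rw [mul_add]; exact add_mem ha hb
    · intro c a _ ha
      rw [mul_smul_comm]; exact smul_mem _ c ha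
  obtain ⟨m, hm⟩ := abs_col (range_br hψ) (C.image ψ)
    (fun c hc => by obtain ⟨x, _, rfl⟩ := Finset.mem_image.1 hc; exact ⟨x, rfl⟩)
    (fun c hc => by obtain ⟨x, hx, rfl⟩ := Finset.mem_image.1 hc; exact hnil x (hC x hx).1)
    h1 hgg hLs
  refine ⟨_, finite_lists C m, fun b hb c hc => (hC c (hb.1 c hc)).2, span_le.2 ?_⟩
  rintro _ ⟨l, rfl⟩
  refine (mul_le_mul_right (pow_le_words ψ C m) Lg).trans ?_ (hm _ (word_mem ψ l))
  rw [hLg, span_mul_span]
  refine span_mono ?_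
  rintro _ ⟨_, ⟨l, hl, rfl⟩, _, ⟨b, hb, rfl⟩, rfl⟩
  exact ⟨l, b, hb, hl, rfl⟩

theorem sColB : SColB := by
  classical
  intro K L _ _ _ G hG R _ _ ψ hψ hnil S hLL
  obtain ⟨C, hC, hCs⟩ := exists_short G hG S
  have hL : LinearMap.range ψ * LinearMap.range ψ ≤
      LinearMap.range ψ * span K ((C.image ψ : Finset R) : Set R) ⊔ LinearMap.range ψ := by
    rw [Submodule.mul_le]
    rintro _ ⟨x, rfl⟩ _ ⟨y, rfl⟩
    refine hom_ind G ((LinearMap.mulRight K (ψ y)).comp ψ) _ ?_ x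
    intro d x hx
    refine hom_ind G ((LinearMap.mulLeft K (ψ x)).comp ψ) _ ?_ y
    intro e y hy
    change ψ x * ψ y ∈ _
    by_cases he : e < S
    · exact mem_sup_left (mul_mem_mul ⟨x, rfl⟩ (short_mem ψ (hCs e he hy)))
    by_cases hd : d < S
    · have : ψ x * ψ y = ψ y * ψ x + ψ ⁅x, y⁆ := by rw [hψ]; abel
      rw [this]
      exact add_mem_sup (mul_mem_mul ⟨y, rfl⟩ (short_mem ψ (hCs d hd hx))) ⟨_, rfl⟩
    refine (sup_le_sup_right (?_ : _ ≤ LinearMap.range ψ *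
      span K ((C.image ψ : Finset R) : Set R)) (LinearMap.range ψ) : _ ≤ _)
      (hLL x y ⟨d, by omega, hx⟩ ⟨e, by omega, hy⟩)
    rw [span_le]
    rintro _ ⟨u, c, f, hf, hc, rfl⟩
    exact mul_mem_mul ⟨u, rfl⟩ (short_mem ψ (hCs f hf hc))
  obtain ⟨m, hm⟩ := EJ.col (range_br hψ) (C.image ψ)
    (fun c hc => by obtain ⟨x, _, rfl⟩ := Finset.mem_image.1 hc; exact ⟨x, rfl⟩)
    (fun c hc => by obtain ⟨x, hx, rfl⟩ := Finset.mem_image.1 hc; exact hnil x (hC x hx).1) hL
  refine ⟨_, (finite_lists C m).image (word ψ), span_le.2 ?_⟩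
  rintro _ ⟨l, rfl⟩
  refine (mul_le_mul_right (pow_le_words ψ C m) _).trans ?_ (hm _ (word_mem ψ l))
  rw [Submodule.sup_mul, one_mul]
  refine sup_le (span_mono fun b hb => ⟨b, hb, Or.inl rfl⟩) ?_
  rw [← span_eq (LinearMap.range ψ), span_mul_span]
  refine span_mono ?_
  rintro _ ⟨_, ⟨z, rfl⟩, b, hb, rfl⟩
  exact ⟨b, hb, Or.inr ⟨z, rfl⟩⟩

end Pool.Agent.MP_3312ae_al.HR.Z30
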