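import Pool.Agent.MP_3312ae_al.HR.Z30.Spec

/-! Degrees and equivariance of the coefficients of the construction. -/

set_option autoImplicit false
set_option linter.unusedSectionVars false

namespace Pool.Agent.MP_3312ae_al.HR.Z30

open Finset LieAlgebra

namespace Deg

section Gen
variable {K M M' : Type} [Field K] [LieRing M] [LieAlgebra K M] [LieRing M'] [LieAlgebra K M']

theorem UU_map (f : M →ₗ⁅K⁆ M') (l : List M) :
    ∀ (k : ℕ) (u : M), f (UU K l k u) = UU K (l.map f) k (f u) := by
  induction l with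
  | nil => intro k u; cases k <;> simp [UU]
  | cons v l ih =>
    intro k u
    cases k with
    | zero => simpa [UU] using ih 0 u
    | succ k => simp [UU, ih]

theorem con_map (f : M →ₗ⁅K⁆ M') (us : List M) :
    ∀ bs : List M, (con K bs us).map f = con K (bs.map f) (us.map f) := by
  induction us with
  | nil => intro bs; rfl
  | cons u us ih =>
    intro bs
    have h := ih (UU K bs 2 u :: bs)
    rw [List.map_cons, UU_map] at h
    exact h

theorem pow_map (f : M →ₗ⁅K⁆ M') (y : M) (n : ℕ) (z : M) :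
    f ((ad K M y ^ n) z) = (ad K M' (f y) ^ n) (f z) := by
  induction n with
  | zero => simp
  | succ n ih => simp [pow_succ', ih]

theorem comps_map (f : M →ₗ⁅K⁆ M') (m0 m : ℕ) (ys zs bs us : List M) :
    (comps K m0 m ys zs bs us).map f =
      comps K m0 m (ys.map f) (zs.map f) (bs.map f) (us.map f) := by
  have h1 : (zs.map (ad K M ys.sum ^ m0 : Module.End K M)).map f =
      (zs.map f).map (ad K M' (ys.map f).sum ^ m0 : Module.End K M') := by
    rw [List.map_map, List.map_map]
    refine List.map_congr_left fun z _ => ?_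
    rw [Function.comp_apply, Function.comp_apply, pow_map, map_list_sum]
  unfold comps
  rw [con_map, ← h1, List.map_map, List.map_map (l := bs)]
  refine congrArg (fun t => con K t (us.map f)) (List.map_congr_left fun b _ => ?_)
  rw [Function.comp_apply, Function.comp_apply, UU_map]

theorem UU_mem (H : LieSubalgebra K M) (l : List M) (hl : ∀ v ∈ l, v ∈ H) :
    ∀ (k : ℕ) (u : M), u ∈ H → UU K l k u ∈ H := by
  induction l with
  | nil =>
    intro k u hu
    cases k with
    | zero => exact hu
    | succ k => exact H.zero_mem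
  | cons v l ih =>
    intro k u hu
    have ih' := ih fun w hw => hl w (List.mem_cons_of_mem _ hw)
    cases k with
    | zero => exact ih' 0 u hu
    | succ k => exact H.add_mem (ih' _ u hu) (H.lie_mem (hl v List.mem_cons_self) (ih' _ u hu))

theorem con_mem (H : LieSubalgebra K M) (us : List M) (hus : ∀ u ∈ us, u ∈ H) :
    ∀ bs : List M, (∀ b ∈ bs, b ∈ H) → ∀ c ∈ con K bs us, c ∈ H := by
  induction us with
  | nil => intro bs h; exact h
  | cons u us ih =>
    intro bs h
    refine ih (fun w hw => hus w (List.mem_cons_of_mem _ hw)) (UU K bs 2 u :: bs) fun b hb => ?_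
    rcases List.mem_cons.1 hb with rfl | hb
    · exact UU_mem H bs h 2 u (hus u List.mem_cons_self)
    · exact h b hb

theorem pow_mem (H : LieSubalgebra K M) {y z : M} (hy : y ∈ H) (hz : z ∈ H) (n : ℕ) :
    (ad K M y ^ n) z ∈ H := by
  induction n with
  | zero => exact hz
  | succ n ih => rw [pow_succ']; exact H.lie_mem hy ih

theorem comps_sum_mem (H : LieSubalgebra K M) {ι : Type} (e : ι → M) (he : ∀ i, e i ∈ H)
    (m0 m : ℕ) (ys zs bs us : List ι) :
    (comps K m0 m (ys.map e) (zs.map e) (bs.map e) (us.map e)).sum ∈ H := by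
  have h0 : ∀ l : List ι, ∀ v ∈ l.map e, v ∈ H := fun l v hv => by
    obtain ⟨i, -, rfl⟩ := List.mem_map.1 hv
    exact he i
  refine list_sum_mem (con_mem H _ (h0 us) _ fun b hb => ?_)
  obtain ⟨b', hb', rfl⟩ := List.mem_map.1 hb
  refine UU_mem H _ (fun v hv => ?_) m b' (h0 bs b' hb')
  obtain ⟨z, hz, rfl⟩ := List.mem_map.1 hv
  exact pow_mem H (list_sum_mem (h0 ys)) (h0 zs z hz) m0

end Gen

section Fn
variable {ι K L : Type} [DecidableEq ι] [Field K] [LieRing L] [LieAlgebra K L]

/-- elements whose coefficient at `S` has degree the weight of `S` -/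
def degSub (G : GrL K L) (d : ι → ℕ) : LieSubalgebra K (SF ι L) where
  carrier := {ξ | ∀ S, ξ S ∈ G.A (∑ i ∈ S, d i)}
  add_mem' := fun hx hy S => add_mem (hx S) (hy S)
  zero_mem' := fun _ => zero_mem _
  smul_mem' := fun c _ hx S => Submodule.smul_mem _ c (hx S)
  lie_mem' := fun {x y} hx hy S => by
    rw [SF.lie_apply]
    refine Submodule.sum_mem _ fun A hA => ?_
    rw [← Finset.sum_sdiff (mem_powerset.1 hA), add_comm]
    exact G.lie_mem _ _ _ _ (hx A) (hy _)

/-- functions of the data with values in `SF ι L` -/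
def FN (ι L : Type) : Type := (ι → L) → SF ι L

instance : AddCommGroup (FN ι L) := inferInstanceAs (AddCommGroup ((ι → L) → SF ι L))
instance : Module K (FN ι L) := inferInstanceAs (Module K ((ι → L) → SF ι L))
instance : Bracket (FN ι L) (FN ι L) := ⟨fun F G x => ⁅F x, G x⁆⟩

instance : LieRing (FN ι L) where
  add_lie F G H := funext fun x => add_lie (F x) (G x) (H x)
  lie_add F G H := funext fun x => lie_add (F x) (G x) (H x)
  lie_self F := funext fun x => lie_self (F x)
  leibniz_lie F G H := funext fun x => leibniz_lie (F x) (G x) (H x)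

instance : LieAlgebra K (FN ι L) where
  lie_smul c F G := funext fun x => lie_smul c (F x) (G x)

/-- evaluation at the data -/
def ev (K : Type) [Field K] [LieAlgebra K L] (x : ι → L) : FN ι L →ₗ⁅K⁆ SF ι L where
  toFun F := F x
  map_add' _ _ := rfl
  map_smul' _ _ := rfl
  map_lie' := rfl

/-- the generators -/
def EE (i : ι) : FN ι L := fun x => sg {i} (x i)

/-- local and equivariant functions -/
def eqvSub (K : Type) [Field K] [LieAlgebra K L] (ι : Type) [DecidableEq ι] (a : L) :
    LieSubalgebra K (FN ι L) where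
  carrier := {F | (∀ x x' S, (∀ i ∈ S, x i = x' i) → F x S = F x' S) ∧
    ∀ x S, ⁅a, F x S⁆ = ∑ i ∈ S, F (Function.update x i ⁅a, x i⁆) S}
  add_mem' := fun {F G} hF hG =>
    ⟨fun x x' S h => by
      change F x S + G x S = F x' S + G x' S
      rw [hF.1 x x' S h, hG.1 x x' S h], fun x S => by
      change ⁅a, F x S + G x S⁆ = ∑ i ∈ S, (F _ S + G _ S)
      rw [lie_add, hF.2, hG.2, sum_add_distrib]⟩
  zero_mem' := ⟨fun _ _ _ _ => rfl, fun x S => by
    change ⁅a, (0 : L)⁆ = ∑ i ∈ S, (0 : L)
    simp⟩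
  smul_mem' := fun c F hF =>
    ⟨fun x x' S h => by
      change c • F x S = c • F x' S
      rw [hF.1 x x' S h], fun x S => by
      change ⁅a, c • F x S⁆ = ∑ i ∈ S, c • F _ S
      rw [lie_smul, hF.2, smul_sum]⟩
  lie_mem' := fun {F G} hF hG =>
    ⟨fun x x' S h => by
      change ∑ A ∈ S.powerset, ⁅F x A, G x (S \ A)⁆ = ∑ A ∈ S.powerset, ⁅F x' A, G x' (S \ A)⁆
      refine sum_congr rfl fun A hA => ?_
      rw [hF.1 x x' A fun i hi => h i (mem_powerset.1 hA hi),
        hG.1 x x' (S \ A) fun i hi => h i (mem_sdiff.1 hi).1], fun x S => by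
      change ⁅a, ∑ A ∈ S.powerset, ⁅F x A, G x (S \ A)⁆⁆ = ∑ i ∈ S, ∑ A ∈ S.powerset,
        ⁅F (Function.update x i ⁅a, x i⁆) A, G (Function.update x i ⁅a, x i⁆) (S \ A)⁆
      rw [lie_sum, sum_comm]
      refine sum_congr rfl fun A hA => ?_
      rw [leibniz_lie, hF.2, hG.2, sum_lie, lie_sum, ← Finset.sum_sdiff (mem_powerset.1 hA),
        add_comm]
      refine congrArg₂ (· + ·) (sum_congr rfl fun i hi => ?_) (sum_congr rfl fun i hi => ?_)
      · rw [hF.1 x (Function.update x i ⁅a, x i⁆) A fun k hk =>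
          (Function.update_of_ne (fun h : k = i => (mem_sdiff.1 hi).2 (h ▸ hk)) _ _).symm]
      · rw [hG.1 x (Function.update x i ⁅a, x i⁆) (S \ A) fun k hk =>
          (Function.update_of_ne (fun h : k = i => (mem_sdiff.1 hk).2 (h ▸ hi)) _ _).symm]⟩

theorem EE_mem (a : L) (i : ι) : (EE i : FN ι L) ∈ eqvSub K ι a := by
  refine ⟨fun x x' S h => ?_, fun x S => ?_⟩
  · unfold EE sg
    split_ifs with hS
    · exact h i (hS ▸ mem_singleton_self i)
    · rfl
  · unfold EE sg
    split_ifs with hS
    · rw [hS, sum_singleton, Function.update_self]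
    · simp

theorem val_eq (δ : Dat ι L) (m0 m : ℕ) :
    δ.val K m0 m = (comps K m0 m (δ.ys.map EE) (δ.zs.map EE) (δ.bs.map EE)
      (δ.us.map EE) : List (FN ι L)).sum δ.x := by
  have h := map_list_sum (ev K δ.x) (comps K m0 m (δ.ys.map EE) (δ.zs.map EE) (δ.bs.map EE)
    (δ.us.map EE) : List (FN ι L))
  rw [comps_map, List.map_map, List.map_map, List.map_map, List.map_map] at h
  exact h.symm

end Fn

end Deg

theorem sDeg : SDeg := by
  intro K L _ _ _ G ι _ δ m0 m d S hx
  refine Deg.comps_sum_mem (Deg.degSub G d) δ.e (fun i T => ?_) m0 m δ.ys δ.zs δ.bs δ.us S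
  unfold Dat.e sg
  split_ifs with hT
  · rw [hT, sum_singleton]
    exact hx i
  · exact zero_mem _

theorem sEqv : SEqv := by
  intro K L _ _ _ ι _ δ m0 m a S
  rw [Deg.val_eq, (Deg.comps_sum_mem (Deg.eqvSub K ι a) Deg.EE (Deg.EE_mem a) m0 m δ.ys δ.zs
    δ.bs δ.us).2]
  exact sum_congr rfl fun i _ => by rw [Deg.val_eq]; rfl

end Pool.Agent.MP_3312ae_al.HR.Z30
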