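import Pool.Agent.MP_3312ae_al.HR.Z30.Spec

/-! Row Dens: the graded density alternative. -/

set_option autoImplicit false

namespace Pool.Agent.MP_3312ae_al.HR.Z30

open Finset

namespace Dens

variable {K L : Type} [Field K] [LieRing L] [LieAlgebra K L] (G : GrL K L) (j : ℕ)

/-- a graded left ideal of operators -/
structure Good (T : Submodule K (Module.End K (G.ge j))) : Prop where
  mul : ∀ x r, r ∈ T → G.ψ j x * r ∈ T
  low : ∀ r ∈ T, ∀ d (y : G.ge j), (y : L) ∈ G.A d → ∀ i < d, G.π i (r y : L) = 0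
  comp : ∀ r ∈ T, ∀ n, ∃ r' ∈ T, ∀ d (y : G.ge j), (y : L) ∈ G.A d →
    (r' y : L) = G.π (d + n) (r y : L)

theorem env_mul {R : Type} [Ring R] [Algebra K R] (ψ : L →ₗ[K] R) (x : L) {r : R}
    (hr : r ∈ env ψ) : ψ x * r ∈ env ψ := by
  induction hr using Submodule.span_induction with
  | mem r h =>
    obtain ⟨l, rfl⟩ := h
    exact Submodule.subset_span ⟨x :: l, by simp [word]⟩
  | zero => simp
  | add a b _ _ ha hb => rw [mul_add]; exact add_mem ha hb
  | smul c a _ ha => rw [mul_smul_comm]; exact Submodule.smul_mem _ c ha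

theorem env_one {R : Type} [Ring R] [Algebra K R] (ψ : L →ₗ[K] R) : (1 : R) ∈ env ψ :=
  Submodule.subset_span ⟨[], by simp [word]⟩

/-- operators of degree `n` in the envelope -/
def Rn (n : ℕ) : Submodule K (Module.End K (G.ge j)) where
  carrier := {r | r ∈ env (G.ψ j) ∧ ∀ d (y : G.ge j), (y : L) ∈ G.A d → (r y : L) ∈ G.A (d + n)}
  add_mem' := fun {a b} ha hb => ⟨add_mem ha.1 hb.1, fun d y hy => by
    simpa using add_mem (ha.2 d y hy) (hb.2 d y hy)⟩
  zero_mem' := ⟨zero_mem _, fun d y _ => by simp⟩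
  smul_mem' := fun c a ha => ⟨Submodule.smul_mem _ c ha.1, fun d y hy => by
    simpa using Submodule.smul_mem _ c (ha.2 d y hy)⟩

theorem sup_mul (x : L) {r : Module.End K (G.ge j)} (hr : r ∈ ⨆ n, Rn G j n) :
    G.ψ j x * r ∈ ⨆ n, Rn G j n := by
  induction hr using Submodule.iSup_induction' with
  | mem n r h =>
    obtain ⟨N, hN⟩ := G.fin x
    rw [← hN N le_rfl, map_sum, Finset.sum_mul]
    refine sum_mem fun i _ => Submodule.mem_iSup_of_mem (n + i) ⟨env_mul _ _ h.1, ?_⟩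
    intro d y hy
    have := G.lie_mem _ _ _ _ (G.π_mem i x) (h.2 d y hy)
    rw [show d + (n + i) = i + (d + n) by omega]
    exact this
  | zero => simp
  | add a b _ _ ha hb => rw [mul_add]; exact add_mem ha hb

theorem env_le : env (G.ψ j) ≤ ⨆ n, Rn G j n := by
  refine Submodule.span_le.2 ?_
  rintro _ ⟨l, rfl⟩
  induction l with
  | nil =>
    refine Submodule.mem_iSup_of_mem 0 ⟨env_one _ |> fun h => by simpa [word] using h, ?_⟩
    intro d y hy
    simpa [word] using hy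
  | cons x l ih =>
    have : word (G.ψ j) (x :: l) = G.ψ j x * word (G.ψ j) l := by simp [word]
    rw [this]
    exact sup_mul G j x ih

theorem good_env : Good G j (env (G.ψ j)) where
  mul x r hr := env_mul _ x hr
  low r hr d y hy i hi := by
    have h := env_le G j hr
    clear hr
    induction h using Submodule.iSup_induction' with
    | mem n r h => rw [G.π_of i _ _ (h.2 d y hy), if_neg (by omega)]
    | zero => simp
    | add a b _ _ ha hb => simp [ha, hb]
  comp r hr n := by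
    have h := env_le G j hr
    clear hr
    induction h using Submodule.iSup_induction' with
    | mem m r h =>
      by_cases hm : n = m
      · subst hm
        exact ⟨r, h.1, fun d y hy => by rw [G.π_of _ _ _ (h.2 d y hy), if_pos rfl]⟩
      · exact ⟨0, zero_mem _, fun d y hy => by
          rw [G.π_of _ _ _ (h.2 d y hy), if_neg (by omega)]; simp⟩
    | zero => exact ⟨0, zero_mem _, fun d y _ => by simp⟩
    | add a b _ _ ha hb =>
      obtain ⟨a', ha1, ha2⟩ := ha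
      obtain ⟨b', hb1, hb2⟩ := hb
      exact ⟨a' + b', add_mem ha1 hb1, fun d y hy => by simp [ha2 d y hy, hb2 d y hy]⟩

/-- the operators of `T` that kill `u` -/
def kill (T : Submodule K (Module.End K (G.ge j))) (u : G.ge j) :
    Submodule K (Module.End K (G.ge j)) where
  carrier := {r | r ∈ T ∧ r u = 0}
  add_mem' := fun {a b} ha hb => ⟨add_mem ha.1 hb.1, by simp [ha.2, hb.2]⟩
  zero_mem' := ⟨zero_mem _, rfl⟩
  smul_mem' := fun c a ha => ⟨Submodule.smul_mem _ c ha.1, by simp [ha.2]⟩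

variable {G j}

theorem Good.kill {T : Submodule K (Module.End K (G.ge j))} (h : Good G j T) {u : G.ge j} {d : ℕ}
    (hu : (u : L) ∈ G.A d) : Good G j (kill G j T u) where
  mul x r hr := ⟨h.mul x r hr.1, by rw [Module.End.mul_apply, hr.2, map_zero]⟩
  low r hr := h.low r hr.1
  comp r hr n := by
    obtain ⟨r', h1, h2⟩ := h.comp r hr.1 n
    refine ⟨r', ⟨h1, Subtype.ext ?_⟩, h2⟩
    rw [h2 d u hu, hr.2]
    simp

/-- the orbit of `u` under `T` -/
def orb {T : Submodule K (Module.End K (G.ge j))} (h : Good G j T) (u : G.ge j) :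
    LieIdeal K L where
  carrier := {v | ∃ r ∈ T, (r u : L) = v}
  add_mem' := by
    rintro _ _ ⟨a, ha, rfl⟩ ⟨b, hb, rfl⟩
    exact ⟨a + b, add_mem ha hb, by simp⟩
  zero_mem' := ⟨0, zero_mem _, by simp⟩
  smul_mem' := by
    rintro c _ ⟨a, ha, rfl⟩
    exact ⟨c • a, Submodule.smul_mem _ c ha, by simp⟩
  lie_mem := by
    rintro x _ ⟨a, ha, rfl⟩
    exact ⟨G.ψ j x * a, h.mul x a ha, rfl⟩

theorem Good.big {T : Submodule K (Module.End K (G.ge j))} (h : Good G j T) (hJ : G.JI)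
    {u : G.ge j} {d : ℕ} (hu : (u : L) ∈ G.A d) (h0 : ∃ r ∈ T, r u ≠ 0) :
    ∃ S, ∀ v ∈ G.ge S, ∃ r ∈ T, (r u : L) = v := by
  refine hJ.ji (orb h u) ?_ ?_
  · rintro i _ ⟨r, hr, rfl⟩
    rcases lt_or_ge i d with hi | hi
    · rw [h.low r hr d u hu i hi]; exact zero_mem _
    · obtain ⟨n, rfl⟩ := Nat.exists_eq_add_of_le hi
      obtain ⟨r', h1, h2⟩ := h.comp r hr n
      exact ⟨r', h1, h2 d u hu⟩
  · obtain ⟨r, hr, hne⟩ := h0
    intro hb
    apply hne
    have : (r u : L) ∈ orb h u := ⟨r, hr, rfl⟩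
    rw [hb] at this
    exact Subtype.ext ((LieSubmodule.mem_bot _).1 this)

theorem mem_ge {x : L} {d S : ℕ} (hx : x ∈ G.A d) (h : S ≤ d) : x ∈ G.ge S :=
  fun i hi => by rw [G.π_of i d x hx, if_neg (by omega)]

theorem Good.swap {T : Submodule K (Module.End K (G.ge j))} (h : Good G j T) (hJ : G.JI)
    {u u' : G.ge j} {d d' : ℕ} (hu : (u : L) ∈ G.A d) (hu' : (u' : L) ∈ G.A d')
    (h1 : ∃ r ∈ T, r u' ≠ 0) (h2 : ∃ r ∈ T, r u' = 0 ∧ r u ≠ 0) :
    ∃ r ∈ T, r u = 0 ∧ r u' ≠ 0 := by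
  obtain ⟨S1, hS1⟩ := h.big hJ hu' h1
  obtain ⟨S2, hS2⟩ := (h.kill hu').big hJ hu
    (by obtain ⟨r, a, b, c⟩ := h2; exact ⟨r, ⟨a, b⟩, c⟩)
  obtain ⟨v, hv, hv0⟩ := (Submodule.ne_bot_iff _).1 (hJ.inf (d' + (S1 + S2 + 1)) (by omega))
  obtain ⟨r, hr, hrv⟩ := hS1 v (mem_ge hv (by omega))
  obtain ⟨r', hr', hc⟩ := h.comp r hr (S1 + S2 + 1)
  have e1 : (r' u' : L) = v := by rw [hc d' u' hu', hrv, G.π_of _ _ _ hv, if_pos rfl]
  obtain ⟨r'', hr'', e2⟩ := hS2 (r' u) (by
    rw [hc d u hu]; exact mem_ge (G.π_mem _ _) (by omega))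
  refine ⟨r' - r'', sub_mem hr' hr''.1, ?_, ?_⟩
  · rw [LinearMap.sub_apply, sub_eq_zero]; exact (Subtype.ext e2).symm
  · rw [LinearMap.sub_apply, hr''.2, sub_zero]
    intro h0
    apply hv0
    rw [← e1, h0]; rfl

theorem Good.caseA {T : Submodule K (Module.End K (G.ge j))} (h : Good G j T) (hJ : G.JI)
    {u u' : G.ge j} {d d' : ℕ} (hu : (u : L) ∈ G.A d) (hu' : (u' : L) ∈ G.A d') (hd : d < d')
    (h1 : ∃ r ∈ T, r u ≠ 0) (h2 : ∀ r ∈ T, r u = 0 ↔ r u' = 0) : CaseA G := by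
  obtain ⟨S, hS⟩ := h.big hJ hu h1
  choose f hfT hf using hS
  have wd : ∀ r ∈ T, ∀ r' ∈ T, (r u : L) = r' u → (r u' : L) = r' u' := by
    intro r hr r' hr' e
    have : (r - r') u' = 0 := (h2 _ (sub_mem hr hr')).1 (by
      rw [LinearMap.sub_apply, sub_eq_zero]; exact Subtype.ext e)
    rw [LinearMap.sub_apply, sub_eq_zero] at this
    rw [this]
  have hmem : ∀ y : G.ge S, (f y y.2 u' : L) ∈ G.ge S := by
    intro y i hi
    rcases lt_or_ge i d' with h3 | h3
    · exact h.low _ (hfT _ _) d' u' hu' i h3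
    · obtain ⟨n, rfl⟩ := Nat.exists_eq_add_of_le h3
      obtain ⟨r', hr', hc⟩ := h.comp _ (hfT y y.2) n
      have e : r' u = 0 := Subtype.ext (by
        rw [hc d u hu, hf y y.2]; exact y.2 _ (by omega))
      rw [← hc d' u' hu', (h2 r' hr').1 e]; rfl
  let θ : G.ge S →ₗ[K] G.ge S :=
    { toFun := fun y => ⟨f y y.2 u', hmem y⟩
      map_add' := fun a b => Subtype.ext (by
        have := wd _ (hfT (a + b : G.ge S) (a + b).2) _ (add_mem (hfT a a.2) (hfT b b.2))
          (by simp [hf])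
        simpa using this)
      map_smul' := fun c a => Subtype.ext (by
        have := wd _ (hfT (c • a : G.ge S) (c • a).2) _ (Submodule.smul_mem _ c (hfT a a.2))
          (by simp [hf])
        simpa using this) }
  have hθ : ∀ y : G.ge S, ∀ r ∈ T, (r u : L) = y → (θ y : L) = r u' :=
    fun y r hr e => wd _ (hfT y y.2) r hr (by rw [hf, e])
  refine ⟨S, d' - d, θ, by omega, ?_, ?_, ?_⟩
  · rw [injective_iff_map_eq_zero]
    intro y hy
    have e0 : (θ y : L) = 0 := by rw [hy]; rfl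
    have e : f y y.2 u' = 0 := Subtype.ext e0
    have e' := (h2 _ (hfT y y.2)).2 e
    exact Subtype.ext (by rw [← hf y y.2, e']; rfl)
  · intro x y
    refine Subtype.ext ?_
    rw [hθ _ _ (h.mul x _ (hfT y y.2)) (by
      rw [Module.End.mul_apply, G.ψ_apply, G.ψ_apply, hf])]
    rfl
  · intro e y hy
    rcases lt_or_ge e d with h3 | h3
    · have e0 : (y : L) = 0 := by
        have := h.low _ (hfT y y.2) d u hu e h3
        rwa [hf, G.π_of _ _ _ hy, if_pos rfl] at this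
      rw [hθ y 0 (zero_mem _) (by rw [e0]; rfl)]
      exact zero_mem _
    · obtain ⟨n, rfl⟩ := Nat.exists_eq_add_of_le h3
      obtain ⟨r', hr', hc⟩ := h.comp _ (hfT y y.2) n
      rw [hθ y r' hr' (by rw [hc d u hu, hf, G.π_of _ _ _ hy, if_pos rfl]), hc d' u' hu',
        show d + n + (d' - d) = d' + n by omega]
      exact G.π_mem _ _

theorem sep (hJ : G.JI) (hA : ¬ CaseA G) {J : ℕ} (u : Fin J → G.ge j) (d : Fin J → ℕ)
    (hd : Function.Injective d) (hu : ∀ i, (u i : L) ∈ G.A (d i) ∧ u i ≠ 0)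
    (s : Finset (Fin J)) :
    ∃ T, Good G j T ∧ (∀ r ∈ T, r ∈ env (G.ψ j) ∧ ∀ k ∈ s, r (u k) = 0) ∧
      ∀ i, i ∉ s → ∃ r ∈ T, r (u i) ≠ 0 := by
  induction s using Finset.induction_on with
  | empty =>
    exact ⟨_, good_env G j, fun r hr => ⟨hr, by simp⟩,
      fun i _ => ⟨1, env_one _, (hu i).2⟩⟩
  | insert k s hk ih =>
    obtain ⟨T, hT, h1, h2⟩ := ih
    refine ⟨kill G j T (u k), hT.kill (hu k).1, ?_, ?_⟩
    · intro r hr
      refine ⟨(h1 r hr.1).1, fun k' hk' => ?_⟩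
      rcases mem_insert.1 hk' with rfl | hk'
      · exact hr.2
      · exact (h1 r hr.1).2 k' hk'
    · intro i hi
      rw [mem_insert, not_or] at hi
      by_contra hc
      have H1 : ∀ r ∈ T, r (u k) = 0 → r (u i) = 0 := by
        intro r hr e
        by_contra e'
        exact hc ⟨r, ⟨hr, e⟩, e'⟩
      have H2 : ∀ r ∈ T, r (u i) = 0 → r (u k) = 0 := by
        intro r hr e
        by_contra e'
        obtain ⟨r', a, b, c⟩ := hT.swap hJ (hu k).1 (hu i).1 (h2 i hi.2) ⟨r, hr, e, e'⟩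
        exact c (H1 r' a b)
      rcases lt_or_gt_of_ne (fun e => hi.1 (hd e)) with h3 | h3
      · exact hA (hT.caseA hJ (hu i).1 (hu k).1 h3 (h2 i hi.2) fun r hr => ⟨H2 r hr, H1 r hr⟩)
      · exact hA (hT.caseA hJ (hu k).1 (hu i).1 h3 (h2 k hk) fun r hr => ⟨H1 r hr, H2 r hr⟩)

end Dens

theorem sDens : SDens := by
  intro K L _ _ _ G _ hJ j
  by_cases hA : CaseA G
  · exact Or.inl hA
  refine Or.inr fun J u d hd hu => ?_
  have key : ∀ i, ∃ S, ∀ v : G.ge j, (v : L) ∈ G.ge S →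
      ∃ r ∈ env (G.ψ j), r (u i) = v ∧ ∀ k, k ≠ i → r (u k) = 0 := by
    intro i
    obtain ⟨T, hT, h1, h2⟩ := Dens.sep hJ hA u d hd hu (univ.erase i)
    obtain ⟨S, hS⟩ := hT.big hJ (hu i).1 (h2 i (by simp))
    refine ⟨S, fun v hv => ?_⟩
    obtain ⟨r, hr, e⟩ := hS v hv
    exact ⟨r, (h1 r hr).1, Subtype.ext e, fun k hk => (h1 r hr).2 k (by simp [hk])⟩
  choose S hS using key
  refine ⟨univ.sup S, fun i v hv => hS i v fun w hw => hv w ?_⟩
  exact lt_of_lt_of_le hw (Finset.le_sup (mem_univ i))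

end Pool.Agent.MP_3312ae_al.HR.Z30
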