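import Pool.Agent.MP_3312ae_al.HR.Z30.Spec

/-! Rows `Dm` and `M1`: the image of the top power of `ad y` is nilpotent in the
multiplication algebra. -/

set_option autoImplicit false
set_option linter.unusedSectionVars false

namespace Pool.Agent.MP_3312ae_al.HR.Z30

open Finset LieAlgebra

namespace Dm

section ring
variable {R : Type} [Ring R] (D : R) (T : Set R) (m : ℕ)

/-- sums of `D ^ a * A * D ^ b` with `a + b = n` -/
def W (n : ℕ) : AddSubgroup R :=
  AddSubgroup.closure {r | ∃ a b A, a + b = n ∧ A ∈ T ∧ r = D ^ a * A * D ^ b}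

/-- the levels -/
def Lv (n : ℕ) : Ideal R :=
  Ideal.span {r | r = D ^ ((n + 1) / 2) ∨ ∃ A ∈ T, r = D ^ m * A * D ^ (n / 2)}

variable {D T m}

theorem pow_zero_of (hD : D ^ (m + 1) = 0) {k : ℕ} (hk : m + 1 ≤ k) : D ^ k = 0 :=
  pow_eq_zero_of_le hk hD

theorem mem_pow {n k : ℕ} (r : R) (hk : (n + 1) / 2 ≤ k) : r * D ^ k ∈ Lv D T m n := by
  obtain ⟨c, rfl⟩ := Nat.exists_eq_add_of_le' hk
  rw [pow_add, ← mul_assoc]
  exact Ideal.mul_mem_left _ _ (Ideal.subset_span (Or.inl rfl))

theorem step (hD : D ^ (m + 1) = 0) (hT : ∀ A ∈ T, D ^ m * A * D ^ m = 0) {n : ℕ} {r t : R}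
    (hr : r ∈ Lv D T m n) (ht : t ∈ W D T m) : r * t ∈ Lv D T m (n + 1) := by
  induction ht using AddSubgroup.closure_induction with
  | zero => rw [mul_zero]; exact zero_mem _
  | add x y _ _ hx hy => rw [mul_add]; exact add_mem hx hy
  | neg x _ hx => rw [mul_neg]; exact neg_mem hx
  | mem t ht =>
    obtain ⟨a, b, A, hab, hA, rfl⟩ := ht
    induction hr using Submodule.span_induction with
    | zero => rw [zero_mul]; exact zero_mem _
    | add x y _ _ hx hy => rw [add_mul]; exact add_mem hx hy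
    | smul c x _ hx => rw [smul_eq_mul, mul_assoc]; exact Ideal.mul_mem_left _ _ hx
    | mem r hr =>
      rcases hr with rfl | ⟨B, hB, rfl⟩
      · rw [← mul_assoc, ← mul_assoc, ← pow_add]
        rcases lt_trichotomy ((n + 1) / 2 + a) m with h | h | h
        · exact mem_pow _ (by omega)
        · rw [h, show b = (n + 1) / 2 by omega]
          exact Ideal.subset_span (Or.inr ⟨A, hA, rfl⟩)
        · rw [pow_zero_of hD h, zero_mul, zero_mul]; exact zero_mem _
      · rcases lt_or_ge (n / 2 + a) m with h | h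
        · rw [← mul_assoc]
          exact mem_pow _ (by omega)
        · obtain ⟨c, hc⟩ := Nat.exists_eq_add_of_le h
          have e : D ^ m * B * D ^ (n / 2) * (D ^ a * A * D ^ b)
              = D ^ m * B * D ^ m * (D ^ c * A * D ^ b) := by
            have : D ^ (n / 2) * D ^ a = D ^ m * D ^ c := by rw [← pow_add, hc, pow_add]
            calc D ^ m * B * D ^ (n / 2) * (D ^ a * A * D ^ b)
                = D ^ m * B * (D ^ (n / 2) * D ^ a) * (A * D ^ b) := by noncomm_ring
              _ = _ := by rw [this]; noncomm_ring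
          rw [e, hT B hB, zero_mul]
          exact zero_mem _

theorem prod_zero (hD : D ^ (m + 1) = 0) (hT : ∀ A ∈ T, D ^ m * A * D ^ m = 0) (l : List R)
    (hl : ∀ t ∈ l, t ∈ W D T m) (hn : 2 * m + 2 ≤ l.length) : l.prod = 0 := by
  have key : ∀ (l : List R), (∀ t ∈ l, t ∈ W D T m) → ∀ (n : ℕ) (r : R), r ∈ Lv D T m n →
      r * l.prod ∈ Lv D T m (n + l.length) := by
    intro l
    induction l with
    | nil => intro _ n r hr; simpa using hr
    | cons t l ih =>
      intro hl n r hr
      rw [List.prod_cons, ← mul_assoc, List.length_cons, add_comm l.length, ← add_assoc]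
      exact ih (fun t ht => hl t (List.mem_cons_of_mem _ ht)) _ _
        (step hD hT hr (hl t List.mem_cons_self))
  have h1 : (1 : R) ∈ Lv D T m 0 := by
    have := mem_pow (D := D) (T := T) (m := m) (n := 0) (k := 0) 1 (by omega)
    simpa using this
  have h2 := key l hl 0 1 h1
  rw [one_mul, zero_add] at h2
  have h3 : Lv D T m l.length = ⊥ := by
    rw [Lv, Ideal.span_eq_bot]
    rintro r (rfl | ⟨A, _, rfl⟩)
    · exact pow_zero_of hD (by omega)
    · rw [pow_zero_of hD (k := l.length / 2) (by omega), mul_zero]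
  rwa [h3, Ideal.mem_bot] at h2

theorem sand {A : R} (hD : D ^ (m + 1) = 0) (hA : ∀ k, A * D ^ k * A = 0)
    (h : (D + A) ^ (m + 1) = 0) : D ^ m * A * D ^ m = 0 := by
  have key : ∀ n, D ^ m * (D + A) ^ (n + 1) = D ^ m * A * D ^ n := by
    intro n
    induction n with
    | zero => rw [zero_add, pow_one, mul_add, ← pow_succ, hD, zero_add, pow_zero, mul_one]
    | succ n ih =>
      rw [pow_succ (D + A), ← mul_assoc, ih, mul_add, mul_assoc _ (D ^ n) D, ← pow_succ,
        mul_assoc (D ^ m) A (D ^ n), mul_assoc (D ^ m) _ A, hA, mul_zero, add_zero]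
  rw [← key, h, mul_zero]

end ring

section lie
variable {K M : Type} [Field K] [LieRing M] [LieAlgebra K M]

theorem ad_lie (x y : M) : ad K M ⁅x, y⁆ = ad K M x * ad K M y - ad K M y * ad K M x := by
  ext w
  simp

theorem ad_pow_mem (y z : M) (T : Set (Module.End K M)) (hz : ad K M z ∈ T) (n : ℕ) :
    ad K M ((ad K M y ^ n) z) ∈ W (ad K M y) T n := by
  induction n with
  | zero => exact AddSubgroup.subset_closure ⟨0, 0, _, rfl, hz, by simp⟩
  | succ n ih =>
    rw [pow_succ', Module.End.mul_apply, ad_apply, ad_lie]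
    generalize ad K M ((ad K M y ^ n) z) = u at ih
    induction ih using AddSubgroup.closure_induction with
    | zero => simp
    | add a b _ _ ha hb =>
      have := add_mem ha hb
      convert this using 1
      noncomm_ring
    | neg a _ ha =>
      have := neg_mem ha
      convert this using 1
      noncomm_ring
    | mem u hu =>
      obtain ⟨a, b, A, hab, hA, rfl⟩ := hu
      refine sub_mem (AddSubgroup.subset_closure ⟨a + 1, b, A, by omega, hA, ?_⟩)
        (AddSubgroup.subset_closure ⟨a, b + 1, A, by omega, hA, ?_⟩)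
      · rw [pow_succ']; noncomm_ring
      · rw [pow_succ]; noncomm_ring

theorem coe_pow (I : LieIdeal K M) (y z : I) (n : ℕ) :
    (((ad K I y ^ n) z : I) : M) = (ad K M (y : M) ^ n) z := by
  induction n with
  | zero => rfl
  | succ n ih =>
    rw [pow_succ', pow_succ', Module.End.mul_apply, Module.End.mul_apply, ← ih]
    rfl

theorem pow_mem (I : LieIdeal K M) (y z : M) (hz : z ∈ I) (n : ℕ) : (ad K M y ^ n) z ∈ I := by
  induction n with
  | zero => exact hz
  | succ n ih =>
    rw [pow_succ', Module.End.mul_apply]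
    exact I.lie_mem ih

end lie

section sf
variable {ι K L : Type} [DecidableEq ι] [Field K] [LieRing L] [LieAlgebra K L]

theorem II_ab (i : ι) {x y : SF ι L} (hx : x ∈ II K L i) (hy : y ∈ II K L i) : ⁅x, y⁆ = 0 := by
  refine SF.ext fun S => ?_
  rw [SF.lie_apply, SF.zero_apply]
  refine sum_eq_zero fun A _ => ?_
  by_cases h : i ∈ A
  · rw [hy _ fun h' => (mem_sdiff.1 h').2 h, lie_zero]
  · rw [hx _ h, zero_lie]

theorem sum_apply {α : Type} (s : Finset α) (f : α → SF ι L) (S : Finset ι) :
    (∑ a ∈ s, f a) S = ∑ a ∈ s, f a S := by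
  classical
  induction s using Finset.induction_on with
  | empty => rfl
  | insert a s ha ih => rw [sum_insert ha, sum_insert ha, SF.add_apply, ih]

theorem sum_sg [Fintype ι] (z : SF ι L) : ∑ A : Finset ι, sg A (z A) = z := by
  refine SF.ext fun S => ?_
  rw [sum_apply, sum_eq_single S]
  · exact if_pos rfl
  · intro A _ h; exact if_neg h.symm
  · intro h; exact (h (mem_univ _)).elim

theorem sg_mem (G : GrL K L) {j : ℕ} {A : Finset ι} {x : L} (hx : x ∈ G.ge j)
    (h0 : A = ∅ → x = 0) : sg A x ∈ MM G ι j := by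
  refine ⟨?_, fun S => ?_⟩
  · unfold sg
    split_ifs with h
    · exact h0 h.symm
    · rfl
  · unfold sg
    split_ifs
    · exact hx
    · exact zero_mem _

theorem sg_II {A : Finset ι} {i : ι} (hi : i ∈ A) (x : L) : sg A x ∈ II K L i := by
  intro S hS
  unfold sg
  rw [if_neg]
  rintro rfl
  exact hS hi

/-- restriction along `some` -/
def pl (ξ : SF (Option ι) L) : SF ι L := fun S => ξ (S.map Function.Embedding.some)

theorem pl_lie (ξ η : SF (Option ι) L) : pl ⁅ξ, η⁆ = ⁅pl ξ, pl η⁆ := by
  refine SF.ext fun S => ?_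
  change ⁅ξ, η⁆ (S.map Function.Embedding.some) = _
  rw [SF.lie_apply, SF.lie_apply]
  symm
  refine sum_bij (fun A _ => A.map Function.Embedding.some) (fun A hA => ?_) (fun A _ B _ h => ?_)
    (fun B hB => ?_) (fun A _ => ?_)
  · exact mem_powerset.2 (map_subset_map.2 (mem_powerset.1 hA))
  · exact map_injective _ h
  · obtain ⟨A, hA, rfl⟩ := subset_map_iff.1 (mem_powerset.1 hB)
    exact ⟨A, mem_powerset.2 hA, rfl⟩
  · unfold pl
    rw [Finset.map_sdiff]

theorem pl_pow (y z : SF (Option ι) L) (n : ℕ) :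
    pl ((ad K (SF (Option ι) L) y ^ n) z) = (ad K (SF ι L) (pl y) ^ n) (pl z) := by
  induction n with
  | zero => rfl
  | succ n ih =>
    rw [pow_succ', pow_succ', Module.End.mul_apply, Module.End.mul_apply, ← ih, ad_apply, ad_apply,
      pl_lie]

theorem lie_sg (ξ : SF ι L) (k : ι) (x : L) (S : Finset ι) (hk : k ∉ S) :
    ⁅ξ, sg {k} x⁆ (insert k S) = ⁅ξ S, x⁆ := by
  rw [SF.lie_apply, sum_eq_single S]
  · unfold sg
    rw [if_pos]
    rw [insert_sdiff_of_notMem _ hk, sdiff_self]
    rfl
  · intro A hA hne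
    unfold sg
    rw [if_neg, lie_zero]
    intro h
    apply hne
    ext i
    have h1 := @mem_powerset.1 hA i
    have h2 : i ∈ insert k S \ A ↔ i ∈ ({k} : Finset ι) := by rw [h]
    have h3 : k ∈ insert k S \ A := by rw [h]; exact mem_singleton_self k
    simp only [mem_sdiff, mem_insert, mem_singleton] at h1 h2 h3
    by_cases e : i = k
    · subst e; tauto
    · tauto
  · intro h
    exact (h (mem_powerset.2 (subset_insert _ _))).elim

end sf

end Dm

theorem sDm : SDm := by
  intro K L _ _ _ _ G m j hA ι _ _ y w zs hy hw hzs hlen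
  set M := MM G ι j with hM
  have hpow : ∀ u : M, ad K M u ^ (m + 1) = 0 := fun u => by
    ext z : 1
    apply Subtype.ext
    rw [Dm.coe_pow]
    exact hA ι u z u.2 z.2
  set y' : M := ⟨y, hy⟩ with hy'
  have hT : ∀ A ∈ Set.range (fun z : M => ad K M z),
      ad K M y' ^ m * A * ad K M y' ^ m = 0 := by
    rintro _ ⟨z, rfl⟩
    have hz : ∀ A : Finset ι, sg A ((z : SF ι L) A) ∈ M := fun A =>
      Dm.sg_mem G (z.2.2 A) (fun h => by rw [h]; exact z.2.1)
    have e : z = ∑ A : Finset ι, (⟨_, hz A⟩ : M) := by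
      apply Subtype.ext
      rw [AddSubmonoidClass.coe_finsetSum]
      exact (Dm.sum_sg _).symm
    dsimp only
    rw [e, map_sum, mul_sum, sum_mul]
    refine sum_eq_zero fun A _ => ?_
    rcases A.eq_empty_or_nonempty with rfl | ⟨i, hi⟩
    · have : (⟨_, hz ∅⟩ : M) = 0 := by
        apply Subtype.ext
        refine SF.ext fun S => ?_
        change sg ∅ ((z : SF ι L) ∅) S = 0
        rw [z.2.1]
        simp [sg]
      rw [this, map_zero, mul_zero, zero_mul]
    · refine Dm.sand (hpow y') (fun k => ?_) (by rw [← map_add]; exact hpow _)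
      ext u : 1
      apply Subtype.ext
      rw [Module.End.mul_apply, Module.End.mul_apply, ad_apply]
      change ⁅sg A ((z : SF ι L) A), (((ad K M y' ^ k) _ : M) : SF ι L)⁆ = 0
      rw [Dm.coe_pow]
      refine Dm.II_ab i (Dm.sg_II (K := K) hi _) (Dm.pow_mem _ _ _ ?_ _)
      change ⁅sg A ((z : SF ι L) A), (u : SF ι L)⁆ ∈ _
      exact lie_mem_left K _ _ _ _ (Dm.sg_II hi _)
  have key : ∀ (l : List (SF ι L)) (hl : ∀ z ∈ l, z ∈ M), ∃ l' : List (Module.End K M),
      l'.length = l.length ∧
      (∀ t ∈ l', t ∈ Dm.W (ad K M y') (Set.range (fun z : M => ad K M z)) m) ∧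
      ∀ u : M, ((l'.prod u : M) : SF ι L) =
        (l.map fun z => ad K (SF ι L) ((ad K (SF ι L) y ^ m) z)).prod u := by
    intro l
    induction l with
    | nil => intro _; exact ⟨[], rfl, by simp, fun u => rfl⟩
    | cons z l ih =>
      intro hl
      obtain ⟨l', h1, h2, h3⟩ := ih fun z hz => hl z (List.mem_cons_of_mem _ hz)
      refine ⟨ad K M ((ad K M y' ^ m) ⟨z, hl z List.mem_cons_self⟩) :: l', by simp [h1], ?_,
        fun u => ?_⟩
      · intro t ht
        rcases List.mem_cons.1 ht with rfl | ht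
        · exact Dm.ad_pow_mem _ _ _ (Set.mem_range_self _) m
        · exact h2 t ht
      · rw [List.map_cons, List.prod_cons, List.prod_cons, Module.End.mul_apply,
          Module.End.mul_apply, ← h3, ad_apply, ad_apply]
        change ⁅(((ad K M y' ^ m) _ : M) : SF ι L), _⁆ = _
        rw [Dm.coe_pow]
  obtain ⟨l', h1, h2, h3⟩ := key zs hzs
  have h0 := Dm.prod_zero (hpow y') hT l' h2 (by omega)
  have := h3 ⟨w, hw⟩
  rw [h0] at this
  exact this.symm

theorem sM1 : SM1 := by
  intro K L _ _ _ G _ hC m0 j hB ι _ _ y z hy hz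
  refine SF.ext fun S => hC j _ fun x hx => ?_
  let lf : SF ι L → SF (Option ι) L := fun ξ S => ξ (eraseNone S)
  have hlf : ∀ ξ, Dm.pl (lf ξ) = ξ := fun ξ => SF.ext fun S => by
    change ξ (eraseNone (S.map Function.Embedding.some)) = ξ S
    rw [eraseNone_map_some]
  have hm : ∀ ξ, ξ ∈ MM G ι j → lf ξ ∈ MM G (Option ι) j := fun ξ h =>
    ⟨by
      change ξ (eraseNone ∅) = 0
      rw [eraseNone_empty]; exact h.1, fun S => h.2 _⟩
  have h := hB (Option ι) (lf y) (sg {none} x) [lf z] (hm y hy)
    (Dm.sg_mem G hx fun h => absurd h (singleton_ne_empty _)) (by simpa using hm z hz) rfl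
  simp only [List.map_cons, List.map_nil, List.prod_cons, List.prod_nil, mul_one, ad_apply] at h
  have h2 := Dm.lie_sg ((ad K (SF (Option ι) L) (lf y) ^ m0) (lf z)) none x
    (S.map Function.Embedding.some) (by simp)
  rw [h] at h2
  have h3 := congrFun (Dm.pl_pow (K := K) (lf y) (lf z) m0) S
  rw [hlf, hlf] at h3
  rw [← h3]
  exact h2.symm

end Pool.Agent.MP_3312ae_al.HR.Z30
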