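import Pool.Agent.MP_3312ae_al.HR.Z30.Spec

/-! Row Dq: the exponent law gives `D ^ q = 0`. -/

set_option autoImplicit false

namespace Pool.Agent.MP_3312ae_al.HR.Z30

open Finset LieAlgebra Polynomial

namespace Dq

section
variable {K R : Type} [Field K] [Ring R] [Algebra K R]

/-- evaluation at a scalar -/
noncomputable def ev (t : K) : R[X] →+* R :=
  Polynomial.eval₂RingHom' (RingHom.id R) (algebraMap K R t) fun a => (Algebra.commutes t a).symm

theorem ev_apply (t : K) (F : R[X]) :
    ev t F = ∑ k ∈ range (F.natDegree + 1), t ^ k • F.coeff k := by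
  change F.eval₂ (RingHom.id R) (algebraMap K R t) = _
  rw [Polynomial.eval₂_eq_sum_range]
  refine Finset.sum_congr rfl fun k _ => ?_
  rw [RingHom.id_apply, ← map_pow, ← Algebra.commutes, Algebra.smul_def]

theorem ev_X (t : K) : ev t (X : R[X]) = algebraMap K R t := Polynomial.eval₂_X _ _

theorem ev_C (t : K) (a : R) : ev t (C a) = a := Polynomial.eval₂_C _ _

theorem zero_of_ev [Infinite K] (F : R[X]) (h : ∀ t : K, ev t F = 0) : F = 0 := by
  ext k
  rw [Polynomial.coeff_zero, ← Module.forall_dual_apply_eq_zero_iff K]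
  intro φ
  by_cases hk : k < F.natDegree + 1
  · have h0 : (∑ i ∈ range (F.natDegree + 1), monomial i (φ (F.coeff i)) : K[X]) = 0 := by
      refine Polynomial.zero_of_eval_zero _ fun t => ?_
      have h1 := congrArg φ (h t)
      rw [ev_apply, map_sum, map_zero] at h1
      rw [Polynomial.eval_finsetSum, ← h1]
      refine Finset.sum_congr rfl fun i _ => ?_
      rw [Polynomial.eval_monomial, map_smul, smul_eq_mul, mul_comm]
    have h2 := congrArg (fun P : K[X] => P.coeff k) h0
    simp only [Polynomial.finsetSum_coeff, Polynomial.coeff_monomial, Finset.sum_ite_eq',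
      Finset.mem_range, hk, if_true, Polynomial.coeff_zero] at h2
    exact h2
  · rw [Polynomial.coeff_eq_zero_of_natDegree_lt (by omega), map_zero]

theorem prod_form (l : List R) :
    ∃ Q : R[X], (l.map fun a => 1 + X * C a).prod = 1 + X * Q ∧ Q.coeff 0 = l.sum := by
  induction l with
  | nil => exact ⟨0, by simp, by simp⟩
  | cons a l ih =>
    obtain ⟨Q, h1, h2⟩ := ih
    refine ⟨C a + Q + C a * (X * Q), ?_, ?_⟩
    · rw [List.map_cons, List.prod_cons, h1]
      noncomm_ring
    · simp [h2]

theorem nil (p : ℕ) [Fact p.Prime] [Infinite K] [CharP K p] (l : List R) (e : ℕ)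
    (h : ∀ t : K, (l.map fun a => 1 + t • a).prod ^ (p ^ e) = 1) : l.sum ^ (p ^ e) = 0 := by
  rcases subsingleton_or_nontrivial R with hs | hs
  · exact Subsingleton.elim _ _
  have : CharP R p := charP_of_injective_algebraMap (algebraMap K R).injective p
  obtain ⟨Q, h1, h2⟩ := prod_form l
  have h3 : (X * Q) ^ (p ^ e) = 0 := by
    refine zero_of_ev (K := K) _ fun t => ?_
    have e1 : ev t (X * Q) = (l.map fun a => 1 + t • a).prod - 1 := by
      have := congrArg (ev t) h1
      rw [map_list_prod, List.map_map, map_add, map_one] at this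
      rw [eq_sub_iff_add_eq', ← this]
      congr 1
      refine List.map_congr_left fun a _ => ?_
      rw [Function.comp_apply, map_add, map_one, map_mul, ev_X, ev_C, Algebra.smul_def]
    rw [map_pow, e1, sub_pow_char_pow_of_commute _ _ (Commute.one_right _), h t, one_pow, sub_self]
  rw [(Polynomial.commute_X Q).mul_pow] at h3
  have h4 := congrArg (fun P : R[X] => P.coeff (0 + p ^ e)) h3
  simp only [Polynomial.coeff_X_pow_mul, Polynomial.coeff_zero] at h4
  rw [← h2, ← h4]
  exact (map_pow Polynomial.constantCoeff Q _).symm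

end

theorem sum_apply {ι L κ : Type} [DecidableEq ι] [LieRing L] (s : Finset κ) (f : κ → SF ι L)
    (S : Finset ι) : (∑ k ∈ s, f k) S = ∑ k ∈ s, f k S := by
  classical
  induction s using Finset.induction_on with
  | empty => simp
  | insert a s ha ih => rw [Finset.sum_insert ha, Finset.sum_insert ha, SF.add_apply, ih]

end Dq

theorem sDq : SDq := by
  intro p _ K L _ _ _ _ _ G e j hb ι _ _ y z hy _
  set hs : List (SF ι L) :=
    ((Finset.univ : Finset (Finset ι)).erase ∅).toList.map fun A => sg A (y A) with hhs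
  have hsum : hs.sum = y := by
    rw [hhs, Finset.sum_map_toList]
    refine SF.ext fun S => ?_
    rw [Dq.sum_apply]
    simp only [sg, Finset.sum_ite_eq, Finset.mem_erase, Finset.mem_univ, and_true]
    split_ifs with h
    · rfl
    · rw [not_not.1 h]; exact hy.1.symm
  have hmem : ∀ h ∈ hs, h ∈ MM G ι j ∧ ∃ i : ι, h ∈ II K L i := by
    intro h hh
    obtain ⟨A, hA, rfl⟩ := List.mem_map.1 hh
    have hA0 : A ≠ ∅ := (Finset.mem_erase.1 (Finset.mem_toList.1 hA)).1
    obtain ⟨i, hi⟩ := Finset.nonempty_iff_ne_empty.2 hA0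
    refine ⟨⟨if_neg hA0.symm, fun S => ?_⟩, i, fun S hS => if_neg fun h : S = A => hS (h ▸ hi)⟩
    unfold sg
    split_ifs
    · exact hy.2 A
    · exact zero_mem _
  have key := Dq.nil (K := K) p (hs.map fun h => ad K (SF ι L) h) e fun t => by
    have := hb ι (hs.map fun h => t • h) fun h hh => by
      obtain ⟨h', hh', rfl⟩ := List.mem_map.1 hh
      obtain ⟨h1, i, h2⟩ := hmem h' hh'
      exact ⟨SMulMemClass.smul_mem t h1, i, SMulMemClass.smul_mem t h2⟩
    rw [PP, List.map_map] at this
    rw [List.map_map]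
    refine Eq.trans ?_ this
    congr 2
    refine List.map_congr_left fun a _ => ?_
    simp only [Function.comp_apply, map_smul]
  have e2 : (hs.map fun h => ad K (SF ι L) h).sum = ad K (SF ι L) y := by
    rw [← hsum]
    exact (map_list_sum (ad K (SF ι L)) hs).symm
  rw [e2] at key
  rw [key, LinearMap.zero_apply]

end Pool.Agent.MP_3312ae_al.HR.Z30
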