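import Pool.Agent.MP_3312ae_al.HR.Z30.Spec

/-! The Engel-Jacobson theorem for commutator-closed sets of nilpotent endomorphisms. -/

set_option autoImplicit false

namespace Pool.Agent.MP_3312ae_al.HR.Z30

open Submodule

namespace EJ

variable {K V : Type} [Field K] [AddCommGroup V] [Module K V]

/-- the span of the images of the words of length `j` -/
def P (S : Set (Module.End K V)) : ℕ → Submodule K V
  | 0 => ⊤
  | j + 1 => span K {y | ∃ a ∈ S, ∃ x ∈ P S j, y = a x}

theorem mem_P {S : Set (Module.End K V)} {j : ℕ} {a : Module.End K V} {x : V} (ha : a ∈ S)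
    (hx : x ∈ P S j) : a x ∈ P S (j + 1) :=
  subset_span ⟨a, ha, x, hx, rfl⟩

theorem P_le {S : Set (Module.End K V)} {j : ℕ} {Q : Submodule K V}
    (h : ∀ a ∈ S, ∀ x ∈ P S j, a x ∈ Q) : P S (j + 1) ≤ Q := by
  refine span_le.2 ?_
  rintro y ⟨a, ha, x, hx, rfl⟩
  exact h a ha x hx

theorem P_succ_le (S : Set (Module.End K V)) : ∀ j, P S (j + 1) ≤ P S j
  | 0 => le_top
  | j + 1 => P_le fun _ ha _ hx => mem_P ha (P_succ_le S j hx)

theorem P_anti (S : Set (Module.End K V)) : Antitone (P S) :=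
  antitone_nat_of_succ_le (P_succ_le S)

theorem prod_mem {S : Set (Module.End K V)} :
    ∀ l : List (Module.End K V), (∀ a ∈ l, a ∈ S) → ∀ v, l.prod v ∈ P S l.length
  | [], _, _ => mem_top
  | a :: l, h, v => by
    rw [List.prod_cons, List.length_cons, Module.End.mul_apply]
    exact mem_P (h a (by simp)) (prod_mem l (fun b hb => h b (by simp [hb])) v)

theorem norm_P {S : Set (Module.End K V)} {w : Module.End K V}
    (hw : ∀ s ∈ S, w * s - s * w ∈ S) : ∀ j, ∀ x ∈ P S j, w x ∈ P S j
  | 0, _, _ => mem_top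
  | j + 1, x, hx => by
    have : P S (j + 1) ≤ (P S (j + 1)).comap w := by
      refine P_le fun a ha y hy => ?_
      rw [mem_comap]
      have e : w (a y) = (w * a - a * w) y + a (w y) := by simp
      rw [e]
      exact add_mem (mem_P (hw a ha) hy) (mem_P ha (norm_P hw j y hy))
    exact this hx

theorem ext_step {S T : Set (Module.End K V)} {w : Module.End K V}
    (hw : ∀ s ∈ S, w * s - s * w ∈ S) (hT : ∀ a ∈ T, ∃ u ∈ S, ∃ c : K, a = u + c • w)
    {n j : ℕ} (h : P T n ≤ P S j) :
    ∀ i, P T (n + i) ≤ (P S j).map (w ^ i) ⊔ P S (j + 1)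
  | 0 => by
    intro x hx
    exact mem_sup_left ⟨x, h hx, by simp⟩
  | i + 1 => by
    refine P_le (j := n + i) fun a ha x hx => ?_
    obtain ⟨u, hu, c, rfl⟩ := hT a ha
    have hx0 : x ∈ P S j := h (P_anti T (Nat.le_add_right n i) hx)
    obtain ⟨_, ⟨y, hy, rfl⟩, z, hz, rfl⟩ := mem_sup.1 (ext_step hw hT h i hx)
    rw [LinearMap.add_apply, LinearMap.smul_apply]
    refine add_mem (mem_sup_right (mem_P hu hx0)) (smul_mem _ c ?_)
    rw [map_add]
    refine add_mem (mem_sup_left ⟨y, hy, ?_⟩) (mem_sup_right (norm_P hw _ z hz))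
    rw [pow_succ', Module.End.mul_apply]

theorem ext_nil {S T : Set (Module.End K V)} {w : Module.End K V}
    (hw : ∀ s ∈ S, w * s - s * w ∈ S) (hT : ∀ a ∈ T, ∃ u ∈ S, ∃ c : K, a = u + c • w)
    {M : ℕ} (hM : w ^ M = 0) : ∀ j, P T (j * M) ≤ P S j
  | 0 => le_top
  | j + 1 => by
    have := ext_step hw hT (ext_nil hw hT hM j) M
    rw [hM, Submodule.map_zero, bot_sup_eq] at this
    rwa [Nat.succ_mul]

theorem exists_norm {W : Set (Module.End K V)} (hW : ∀ a ∈ W, ∀ b ∈ W, a * b - b * a ∈ W)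
    (U : Submodule K (Module.End K V)) {N : ℕ} (hN : P (U : Set (Module.End K V)) N = ⊥)
    {w0 : Module.End K V} (h0 : w0 ∈ W) (h1 : w0 ∉ U) :
    ∃ w ∈ W, w ∉ U ∧ ∀ s ∈ W, s ∈ U → w * s - s * w ∈ U := by
  by_contra hc
  push Not at hc
  have key : ∀ k, ∃ w ∈ W, w ∉ U ∧ ∀ j, ∀ x ∈ P (U : Set (Module.End K V)) j,
      w x ∈ P (U : Set (Module.End K V)) (j + k - N) := by
    intro k
    induction k with
    | zero =>
      refine ⟨w0, h0, h1, fun j x hx => ?_⟩
      rcases le_total j N with hj | hj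
      · rw [show j + 0 - N = 0 by omega]
        exact mem_top
      · have : x ∈ P (U : Set (Module.End K V)) N := P_anti _ hj hx
        rw [hN, mem_bot] at this
        rw [this, map_zero]
        exact zero_mem _
    | succ k ih =>
      obtain ⟨w, hw, hwU, hd⟩ := ih
      obtain ⟨s, hs, hsU, hb⟩ := hc w hw hwU
      refine ⟨w * s - s * w, hW w hw s hs, hb, fun j x hx => ?_⟩
      rw [LinearMap.sub_apply, Module.End.mul_apply, Module.End.mul_apply]
      refine sub_mem ?_ ?_
      · have := hd (j + 1) _ (mem_P hsU hx)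
        rwa [show j + 1 + k - N = j + (k + 1) - N by omega] at this
      · exact P_anti _ (by omega) (mem_P hsU (hd j x hx))
  obtain ⟨w, -, hwU, hd⟩ := key (N + N)
  refine hwU ?_
  have : w = 0 := by
    ext x
    have := hd 0 x mem_top
    rwa [show 0 + (N + N) - N = N by omega, hN, mem_bot] at this
  rw [this]
  exact zero_mem _

end EJ

open EJ in
theorem sEJ : SEJ := by
  intro K V _ _ _ _ W hW hn
  have hne : ({U : Submodule K (Module.End K V) | (∃ N, P (U : Set (Module.End K V)) N = ⊥) ∧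
      U ≤ span K (W ∩ U)}).Nonempty := by
    refine ⟨⊥, ⟨1, ?_⟩, bot_le⟩
    refine le_bot_iff.1 (P_le (j := 0) fun a ha x _ => ?_)
    have : a = 0 := by simpa using ha
    rw [this]; simp
  obtain ⟨U, ⟨⟨N, hN⟩, hU⟩, hmax⟩ := set_has_maximal_iff_noetherian.2 inferInstance _ hne
  have hWU : ∀ w ∈ W, w ∈ U := by
    by_contra hc
    push Not at hc
    obtain ⟨w0, h0, h1⟩ := hc
    obtain ⟨w, hw, hwU, hb⟩ := exists_norm hW U hN h0 h1
    have hb' : ∀ s ∈ (U : Set (Module.End K V)), w * s - s * w ∈ (U : Set (Module.End K V)) := by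
      intro s hs
      have hs' := hU hs
      clear hs
      induction hs' using span_induction with
      | mem x hx => exact hb x hx.1 hx.2
      | zero => simp
      | add x y _ _ hx hy =>
        have e : w * (x + y) - (x + y) * w = (w * x - x * w) + (w * y - y * w) := by
          rw [mul_add, add_mul]; abel
        rw [e]; exact add_mem hx hy
      | smul c x _ hx =>
        have e : w * (c • x) - (c • x) * w = c • (w * x - x * w) := by
          rw [mul_smul_comm, smul_mul_assoc, smul_sub]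
        rw [e]; exact smul_mem U c hx
    obtain ⟨M, hM⟩ := hn w hw
    refine hmax (U ⊔ span K {w}) ⟨⟨N * M, ?_⟩, ?_⟩ ?_
    · refine le_bot_iff.1 (hN ▸ ext_nil hb' (fun a ha => ?_) hM N)
      obtain ⟨u, hu, z, hz, rfl⟩ := mem_sup.1 ha
      obtain ⟨c, rfl⟩ := mem_span_singleton.1 hz
      exact ⟨u, hu, c, rfl⟩
    · refine sup_le (hU.trans (span_mono fun x hx => ⟨hx.1, mem_sup_left hx.2⟩)) ?_
      refine span_mono ?_
      rintro _ rfl
      exact ⟨hw, mem_sup_right (mem_span_singleton_self _)⟩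
    · refine lt_of_le_of_ne le_sup_left fun e => hwU ?_
      rw [e]
      exact mem_sup_right (mem_span_singleton_self _)
  refine ⟨N, fun l hl hlen => ?_⟩
  ext v
  have := P_anti _ hlen (prod_mem (S := (U : Set (Module.End K V))) l
    (fun a ha => hWU a (hl a ha)) v)
  rwa [hN, mem_bot] at this

end Pool.Agent.MP_3312ae_al.HR.Z30
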