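import Pool.Agent.MP_3312ae_al.HR.Z30.Spec

/-! Basic facts on graded Lie algebras generated in degree one. -/

set_option autoImplicit false

namespace Pool.Agent.MP_3312ae_al.HR.Z30

open Finset LieAlgebra Submodule

namespace GB

variable {K L : Type} [Field K] [LieRing L] [LieAlgebra K L]

/-- iterated brackets `⁅a i₁, ⁅a i₂, … a i_d⁆⁆` of length `d` -/
def S {r : ℕ} (a : Fin r → L) : ℕ → Set L
  | 0 => ∅
  | 1 => Set.range a
  | d + 2 => Set.image2 (fun x y => ⁅x, y⁆) (Set.range a) (S a (d + 1))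

theorem S_finite {r : ℕ} (a : Fin r → L) : ∀ d, (S a d).Finite
  | 0 => Set.finite_empty
  | 1 => Set.finite_range a
  | d + 2 => (Set.finite_range a).image2 _ (S_finite a (d + 1))

theorem S_mem (G : GrL K L) : ∀ d, ∀ x ∈ S G.a d, IsComm G.a x ∧ x ∈ G.A d
  | 0, _, h => h.elim
  | 1, _, ⟨i, h⟩ => h ▸ ⟨IsComm.gen i, G.a_mem i⟩
  | d + 2, _, ⟨_, ⟨i, rfl⟩, y, hy, rfl⟩ => by
    obtain ⟨h1, h2⟩ := S_mem G (d + 1) y hy
    refine ⟨IsComm.br (IsComm.gen i) h1, ?_⟩
    have h := G.lie_mem 1 (d + 1) _ _ (G.a_mem i) h2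
    rwa [add_comm] at h

theorem a_lie {r : ℕ} (a : Fin r → L) (i : Fin r) (d : ℕ) (y : L) (hy : y ∈ span K (S a d)) :
    ⁅a i, y⁆ ∈ span K (S a (d + 1)) := by
  induction hy using span_induction with
  | mem y hy =>
    cases d with
    | zero => exact hy.elim
    | succ d => exact subset_span ⟨a i, ⟨i, rfl⟩, y, hy, rfl⟩
  | zero => rw [lie_zero]; exact zero_mem _
  | add y z _ _ h1 h2 => rw [lie_add]; exact add_mem h1 h2
  | smul c y _ h => rw [lie_smul]; exact smul_mem _ c h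

theorem S_lie {r : ℕ} (a : Fin r → L) : ∀ i, ∀ x ∈ S a i, ∀ j, ∀ y ∈ span K (S a j),
    ⁅x, y⁆ ∈ span K (S a (i + j))
  | 0, _, h, _, _, _ => h.elim
  | 1, _, ⟨k, h⟩, j, y, hy => by
    rw [← h, add_comm]
    exact a_lie a k j y hy
  | d + 2, _, ⟨_, ⟨k, rfl⟩, z, hz, rfl⟩, j, y, hy => by
    have h1 := a_lie a k _ _ (S_lie a (d + 1) z hz j y hy)
    have h2 := S_lie a (d + 1) z hz (j + 1) _ (a_lie a k j y hy)
    have e1 : d + 1 + j + 1 = d + 2 + j := by omega
    have e2 : d + 1 + (j + 1) = d + 2 + j := by omega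
    rw [e1] at h1
    rw [e2] at h2
    show ⁅⁅a k, z⁆, y⁆ ∈ _
    rw [lie_lie]
    exact sub_mem h1 h2

theorem W_lie {r : ℕ} (a : Fin r → L) (i j : ℕ) (x y : L) (hx : x ∈ span K (S a i))
    (hy : y ∈ span K (S a j)) : ⁅x, y⁆ ∈ span K (S a (i + j)) := by
  induction hx using span_induction with
  | mem x hx => exact S_lie a i x hx j y hy
  | zero => rw [zero_lie]; exact zero_mem _
  | add x z _ _ h1 h2 => rw [add_lie]; exact add_mem h1 h2
  | smul c x _ h => rw [smul_lie]; exact smul_mem _ c h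

/-- the elements whose components are combinations of iterated brackets -/
def H (G : GrL K L) : LieSubalgebra K L where
  carrier := {x | ∀ d, G.π d x ∈ span K (S G.a d)}
  add_mem' := fun {x y} hx hy d => by rw [map_add]; exact add_mem (hx d) (hy d)
  zero_mem' := fun d => by rw [map_zero]; exact zero_mem _
  smul_mem' := fun c x hx d => by rw [map_smul]; exact smul_mem _ c (hx d)
  lie_mem' := fun {x y} hx hy d => by
    obtain ⟨N, hN⟩ := G.fin x
    obtain ⟨N', hN'⟩ := G.fin y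
    rw [← hN N le_rfl, ← hN' N' le_rfl, sum_lie, map_sum]
    refine Submodule.sum_mem _ fun i _ => ?_
    rw [lie_sum, map_sum]
    refine Submodule.sum_mem _ fun j _ => ?_
    rw [G.π_of d (i + j) _ (G.lie_mem _ _ _ _ (G.π_mem i x) (G.π_mem j y))]
    split_ifs with h
    · rw [h]
      exact W_lie G.a i j _ _ (hx i) (hy j)
    · exact zero_mem _

theorem A_le (G : GrL K L) (d : ℕ) : G.A d ≤ span K (S G.a d) := by
  have h : LieSubalgebra.lieSpan K L (Set.range G.a) ≤ H G := by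
    rw [LieSubalgebra.lieSpan_le]
    rintro _ ⟨i, rfl⟩ d
    rw [G.π_of d 1 _ (G.a_mem i)]
    split_ifs with h
    · rw [h]
      exact subset_span ⟨i, rfl⟩
    · exact zero_mem _
  rw [G.gen] at h
  intro x hx
  have h2 : G.π d x ∈ span K (S G.a d) := h (LieSubalgebra.mem_top x) d
  rwa [G.π_of d d x hx, if_pos rfl] at h2

theorem ψ_pow (G : GrL K L) (j : ℕ) (c : L) (n : ℕ) (y : G.ge j) :
    (((G.ψ j c ^ n) y : G.ge j) : L) = (ad K L c ^ n) (y : L) := by
  induction n with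
  | zero => rfl
  | succ n ih =>
    rw [pow_succ', pow_succ', Module.End.mul_apply, Module.End.mul_apply, G.ψ_apply, ih, ad_apply]

end GB

theorem sGB : SGB := by
  intro K L _ _ _ G
  refine ⟨?_, fun d => ?_, fun d => ?_, fun d hd => ?_, fun j x => ⟨fun hx => ?_, fun hx => ?_⟩,
    fun j x y => ?_, fun j c hc => ?_⟩
  · have h := GB.A_le G 0
    rw [show GB.S G.a 0 = ∅ from rfl, span_empty] at h
    exact le_bot_iff.1 h
  · exact (GB.A_le G d).trans (span_mono fun x hx => GB.S_mem G d x hx)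
  · have := FiniteDimensional.span_of_finite K (GB.S_finite G.a d)
    exact Submodule.finiteDimensional_of_le (GB.A_le G d)
  · obtain ⟨d, rfl⟩ : ∃ e, d = e + 1 := ⟨d - 1, by omega⟩
    refine (GB.A_le G (d + 1 + 1)).trans (span_mono ?_)
    rintro _ ⟨_, ⟨i, rfl⟩, y, hy, rfl⟩
    exact ⟨i, y, (GB.S_mem G _ y hy).2, rfl⟩
  · obtain ⟨N, hN⟩ := G.fin x
    rw [← hN N le_rfl]
    refine Submodule.sum_mem _ fun i _ => ?_
    by_cases h : i < j
    · rw [hx i h]
      exact zero_mem _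
    · exact subset_span ⟨i, not_lt.1 h, G.π_mem i x⟩
  · induction hx using span_induction with
    | mem y hy =>
      obtain ⟨d, hd, hy⟩ := hy
      intro i hi
      rw [G.π_of i d y hy, if_neg (by omega)]
    | zero => exact zero_mem _
    | add y z _ _ h1 h2 => exact add_mem h1 h2
    | smul c y _ h => exact SMulMemClass.smul_mem c h
  · refine LinearMap.ext fun z => Subtype.ext ?_
    show ⁅⁅x, y⁆, (z : L)⁆ = ⁅x, ⁅y, (z : L)⁆⁆ - ⁅y, ⁅x, (z : L)⁆⁆
    exact lie_lie x y _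
  · obtain ⟨n, hn⟩ := G.nil c hc
    refine ⟨n, LinearMap.ext fun z => Subtype.ext ?_⟩
    rw [GB.ψ_pow, hn]
    rfl

end Pool.Agent.MP_3312ae_al.HR.Z30
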