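import Pool.Agent.MP_3312ae_al.HR.Z30.Spec

/-! Row Gen: the ideal `L^S` is generated by boundedly many degrees; centralisers vanish. -/

set_option autoImplicit false

namespace Pool.Agent.MP_3312ae_al.HR.Z30

open Finset LieAlgebra Submodule

namespace Gen

variable {K L : Type} [Field K] [LieRing L] [LieAlgebra K L]

theorem mem_ge (G : GrL K L) {j d : ℕ} {x : L} (h : j ≤ d) (hx : x ∈ G.A d) : x ∈ G.ge j := by
  intro i hi
  rw [G.π_of i d x hx, if_neg (by omega)]

theorem π_lie (G : GrL K L) {i : ℕ} {c : L} (hc : c ∈ G.A i) (k : ℕ) (y : L) :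
    G.π (i + k) ⁅c, y⁆ = ⁅c, G.π k y⁆ := by
  obtain ⟨N, hN⟩ := G.fin y
  have h := hN (max N (k + 1)) (le_max_left _ _)
  conv_lhs => rw [← h]
  rw [lie_sum, map_sum, Finset.sum_eq_single k]
  · rw [G.π_of _ (i + k) _ (G.lie_mem _ _ _ _ hc (G.π_mem k y)), if_pos rfl]
  · intro b _ hb
    rw [G.π_of _ (i + b) _ (G.lie_mem _ _ _ _ hc (G.π_mem b y)), if_neg (by omega)]
  · intro hk
    exact absurd (Finset.mem_range.2 (by omega)) hk

theorem word_cons {R : Type} [Ring R] [Algebra K R] (ψ : L →ₗ[K] R) (z : L) (l : List L) :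
    word ψ (z :: l) = ψ z * word ψ l := by
  simp [word]

theorem word_cons_apply (z : L) (l : List L) (g : L) :
    word (adL K L) (z :: l) g = ⁅z, word (adL K L) l g⁆ := by
  rw [word_cons]; rfl

theorem word_nil_apply (g : L) : word (adL K L) [] g = g := by
  simp [word]

theorem word_deg (G : GrL K L) (S : ℕ) (l : List L) (hl : ∀ z ∈ l, G.Hom S z) :
    ∃ t, (∀ i g, g ∈ G.A i → word (adL K L) l g ∈ G.A (t + i)) ∧
      ∀ z ∈ l, ∃ d, S ≤ d ∧ d ≤ t ∧ z ∈ G.A d := by
  induction l with
  | nil => exact ⟨0, fun i g hg => by simpa [word_nil_apply] using hg, by simp⟩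
  | cons z l ih =>
    obtain ⟨t, h1, h2⟩ := ih fun x hx => hl x (List.mem_cons_of_mem _ hx)
    obtain ⟨d, hd, hz⟩ := hl z List.mem_cons_self
    refine ⟨d + t, fun i g hg => ?_, fun x hx => ?_⟩
    · rw [word_cons_apply, add_assoc]
      exact G.lie_mem _ _ _ _ hz (h1 i g hg)
    · rcases List.mem_cons.1 hx with rfl | hx
      · exact ⟨d, hd, by omega, hz⟩
      · obtain ⟨d', a, b, c⟩ := h2 x hx
        exact ⟨d', a, by omega, c⟩

theorem env_mul {R : Type} [Ring R] [Algebra K R] (ψ : L →ₗ[K] R) (z : L) {r : R}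
    (hr : r ∈ env ψ) : ψ z * r ∈ env ψ := by
  induction hr using span_induction with
  | mem x hx =>
    obtain ⟨l, rfl⟩ := hx
    exact subset_span ⟨z :: l, word_cons ψ z l⟩
  | zero => simp
  | add x y _ _ hx hy => rw [mul_add]; exact add_mem hx hy
  | smul c x _ hx => rw [mul_smul_comm]; exact smul_mem _ c hx

theorem le_env (G : GrL K L) (hG : G.GB) {S : ℕ} (hS : 1 ≤ S) (w : ℕ) (hw : S ≤ w) :
    G.A w ≤ span K {v : L | ∃ r ∈ env (adL K L), ∃ c ∈ G.A S, v = r c} := by
  induction w, hw using Nat.le_induction with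
  | base =>
    intro x hx
    exact subset_span ⟨1, subset_span ⟨[], by simp [word]⟩, x, hx, rfl⟩
  | succ w hw ih =>
    refine (hG.succ w (by omega)).trans (span_le.2 ?_)
    rintro _ ⟨i, y, hy, rfl⟩
    have hy' := ih hy
    clear hy
    induction hy' using span_induction with
    | mem x hx =>
      obtain ⟨r, hr, c, hc, rfl⟩ := hx
      exact subset_span ⟨adL K L (G.a i) * r, env_mul _ _ hr, c, hc, rfl⟩
    | zero => simp
    | add x y _ _ hx hy => rw [lie_add]; exact add_mem hx hy
    | smul c x _ hx => rw [lie_smul]; exact smul_mem _ c hx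

/-- every element of degree `w` is a combination of long words applied to bounded degrees -/
theorem exists_bound (hC : SColA) (G : GrL K L) (hG : G.GB) {S : ℕ} (hS : 1 ≤ S) :
    ∃ s', ∀ w, S ≤ w → G.A w ≤ span K {v : L | ∃ (l : List L) (i : ℕ) (g : L), S ≤ i ∧ i ≤ s' ∧
      g ∈ G.A i ∧ (∀ z ∈ l, ∃ d, S ≤ d ∧ d < w ∧ z ∈ G.A d) ∧ (l = [] → w ≤ s') ∧
      v = word (adL K L) l g} := by
  have hrep : IsRep (adL K L) := fun x y => by
    ext z
    show ⁅⁅x, y⁆, z⁆ = ⁅x, ⁅y, z⁆⁆ - ⁅y, ⁅x, z⁆⁆
    exact lie_lie x y z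
  obtain ⟨B, hB, hhom, henv⟩ := hC K L G hG _ (adL K L) hrep (fun c hc => G.nil c hc) S
  have hdeg : ∀ b ∈ B, ∃ t, ∀ i g, g ∈ G.A i → word (adL K L) b g ∈ G.A (t + i) := fun b hb => by
    obtain ⟨t, ht, -⟩ := word_deg G 0 b fun z hz => by
      obtain ⟨d, hd⟩ := hhom b hb z hz
      exact ⟨d, Nat.zero_le _, hd⟩
    exact ⟨t, ht⟩
  choose! τ hτ using hdeg
  obtain ⟨D, hD⟩ := (hB.image τ).bddAbove
  refine ⟨D + S, fun w hw x hx => ?_⟩
  have hx' := le_env G hG hS w hw hx
  have hπ : G.π w x = x := by rw [G.π_of w w x hx, if_pos rfl]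
  rw [← hπ]
  clear hπ hx
  induction hx' using span_induction with
  | mem x hx =>
    obtain ⟨r, hr, c, hc, rfl⟩ := hx
    have hr' := henv hr
    clear hr
    induction hr' using span_induction with
    | mem r hr =>
      obtain ⟨l, b, hb, hl, rfl⟩ := hr
      have hb1 : τ b ≤ D := hD ⟨b, hb, rfl⟩
      have hg := hτ b hb S c hc
      obtain ⟨t, h1, h2⟩ := word_deg G S l hl
      have h3 := h1 _ _ hg
      rw [Module.End.mul_apply, G.π_of w _ _ h3]
      split_ifs with h
      · by_cases hl0 : l = []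
        · subst hl0
          rw [word_nil_apply] at h3 ⊢
          by_cases hw' : w ≤ D + S
          · exact subset_span ⟨[], τ b + S, _, by omega, by omega, hg, by simp, fun _ => hw',
              (word_nil_apply _).symm⟩
          · have h4 := G.π_of w _ _ hg
            rw [if_neg (by omega), G.π_of w _ _ h3, if_pos h] at h4
            rw [h4]; exact zero_mem _
        · refine subset_span ⟨l, τ b + S, _, by omega, by omega, hg, fun z hz => ?_,
            fun h0 => absurd h0 hl0, rfl⟩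
          obtain ⟨d, a, b', c'⟩ := h2 z hz
          exact ⟨d, a, by omega, c'⟩
      · exact zero_mem _
    | zero => simp
    | add x y _ _ hx hy => rw [LinearMap.add_apply, map_add]; exact add_mem hx hy
    | smul a x _ hx => rw [LinearMap.smul_apply, map_smul]; exact smul_mem _ a hx
  | zero => simp
  | add x y _ _ hx hy => rw [map_add]; exact add_mem hx hy
  | smul a x _ hx => rw [map_smul]; exact smul_mem _ a hx

theorem genC (hC : SColA) (G : GrL K L) (hG : G.GB) : GenC G := by
  intro S0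
  obtain ⟨s', hs'⟩ := exists_bound hC G hG (S := max S0 1) (le_max_right _ _)
  set S := max S0 1 with hS
  have hS0 : S0 ≤ S := le_max_left _ _
  let P : Submodule K L :=
    span K {v : L | ∃ (i : ℕ) (c y : L), S ≤ i ∧ i ≤ s' ∧ c ∈ G.A i ∧ y ∈ G.ge S ∧ v = ⁅c, y⁆}
  have hge : ∀ (l : List L) (g : L), g ∈ G.ge S → word (adL K L) l g ∈ G.ge S := by
    intro l g hg
    induction l with
    | nil => rwa [word_nil_apply]
    | cons z l ih => rw [word_cons_apply]; exact (G.ge S).lie_mem ih
  have hP : ∀ w, S ≤ w → ∀ z ∈ G.A w, ∀ y ∈ G.ge S, ⁅z, y⁆ ∈ P := by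
    intro w
    induction w using Nat.strong_induction_on with
    | _ w ih =>
      intro hw z hz
      have hz' := hs' w hw hz
      clear hz
      induction hz' using span_induction with
      | mem x hx =>
        obtain ⟨l, i, g, h1, h2, hg, hl, -, rfl⟩ := hx
        induction l with
        | nil =>
          intro y hy
          rw [word_nil_apply]
          exact subset_span ⟨i, g, y, h1, h2, hg, hy, rfl⟩
        | cons z l ihl =>
          intro y hy
          obtain ⟨d, a, b, c⟩ := hl z List.mem_cons_self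
          have e1 := ihl fun x hx => hl x (List.mem_cons_of_mem _ hx)
          rw [word_cons_apply, lie_lie]
          exact sub_mem (ih d b a z c _ ((G.ge S).lie_mem hy)) (e1 _ ((G.ge S).lie_mem hy))
      | zero => intro y _; simp
      | add x x' _ _ hx hx' => intro y hy; rw [add_lie]; exact add_mem (hx y hy) (hx' y hy)
      | smul a x _ hx => intro y hy; rw [smul_lie]; exact smul_mem _ a (hx y hy)
  refine ⟨max s' S, fun w hw x hx => ?_⟩
  have hw1 : s' < w := lt_of_le_of_lt (le_max_left _ _) hw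
  have hw2 : S < w := lt_of_le_of_lt (le_max_right _ _) hw
  have hxP : x ∈ P := by
    refine (span_le.2 ?_ : span K _ ≤ P) (hs' w hw2.le hx)
    rintro _ ⟨l, i, g, h1, h2, hg, hl, h0, rfl⟩
    cases l with
    | nil => exact absurd (h0 rfl) (by omega)
    | cons z l =>
      obtain ⟨d, a, -, c⟩ := hl z List.mem_cons_self
      rw [word_cons_apply]
      exact hP d a z c _ (hge l g (mem_ge G h1 hg))
  have hπ : G.π w x = x := by rw [G.π_of w w x hx, if_pos rfl]
  rw [← hπ]
  clear hπ hx
  induction hxP using span_induction with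
  | mem x hx =>
    obtain ⟨i, c, y, h1, h2, hc, hy, rfl⟩ := hx
    obtain ⟨k, rfl⟩ : ∃ k, w = i + k := ⟨w - i, by omega⟩
    rw [π_lie G hc]
    by_cases hk : k < S
    · rw [hy k hk, lie_zero]; exact zero_mem _
    · refine subset_span ⟨i, c, G.π k y, by omega, h2.trans (le_max_left _ _), by omega, hc, ?_,
        rfl⟩
      rw [Nat.add_sub_cancel_left]
      exact G.π_mem k y
  | zero => simp
  | add x y _ _ hx hy => rw [map_add]; exact add_mem hx hy
  | smul a x _ hx => rw [map_smul]; exact smul_mem _ a hx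

theorem centC (G : GrL K L) (hG : G.GB) (hg : GenC G) (hJ : G.JI) : CentC G := by
  intro j x hx
  let C : LieIdeal K L :=
    { carrier := {x | ∀ y ∈ G.ge j, ⁅x, y⁆ = 0}
      add_mem' := fun {a b} ha hb y hy => by rw [add_lie, ha y hy, hb y hy, add_zero]
      zero_mem' := fun y _ => zero_lie y
      smul_mem' := fun c a ha y hy => by rw [smul_lie, ha y hy, smul_zero]
      lie_mem := fun {a b} hb y hy => by
        rw [lie_lie, hb y hy, hb _ ((G.ge j).lie_mem hy), lie_zero, sub_zero] }
  by_contra h0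
  have hne : C ≠ ⊥ := fun h => h0 (by
    have : x ∈ C := hx
    rw [h] at this
    exact (LieSubmodule.mem_bot x).1 this)
  have hst : ∀ i a, a ∈ C → G.π i a ∈ C := by
    intro i a ha y hy
    have hy' := (hG.ge_iff j y).1 hy
    clear hy
    induction hy' using span_induction with
    | mem y hy =>
      obtain ⟨d, hd, hy⟩ := hy
      have h1 : ⁅y, a⁆ = 0 := by rw [← lie_skew, ha y (mem_ge G hd hy), neg_zero]
      rw [← lie_skew, ← π_lie G hy, h1, map_zero, neg_zero]
    | zero => simp
    | add y y' _ _ h h' => rw [lie_add, h, h', add_zero]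
    | smul c y _ h => rw [lie_smul, h, smul_zero]
  obtain ⟨S, hS⟩ := hJ.ji C hst hne
  obtain ⟨s', hs'⟩ := hg (max S j)
  refine hJ.inf (s' + 1) (by omega) (le_bot_iff.1 ((hs' (s' + 1) (by omega)).trans (span_le.2 ?_)))
  rintro _ ⟨i, c, y, h1, -, h3, hc, hy, rfl⟩
  exact hS (mem_ge G ((le_max_left _ _).trans h1) hc) y
    (mem_ge G ((le_max_right _ _).trans h3) hy)

end Gen

theorem sGen : SGen := fun hC _ _ _ _ _ G hG =>
  ⟨Gen.genC hC G hG, fun hJ => Gen.centC G hG (Gen.genC hC G hG) hJ⟩

end Pool.Agent.MP_3312ae_al.HR.Z30
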