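import Pool.Agent.MP_3312ae_al.HR.Z30.Basic

/-! Row `Inner`: the image of the top coefficient is an abelian inner ideal. -/

set_option autoImplicit false
set_option linter.unusedSectionVars false

namespace Pool.Agent.MP_3312ae_al.HR.Z30

open LieAlgebra Polynomial

namespace Inner

section ring
variable {R : Type} [Ring R]

/-- the product of the `1 + X a` -/
noncomputable def ph (l : List R) : R[X] := (l.map fun a => 1 + X * C a).prod

theorem ph_cons (a : R) (l : List R) : ph (a :: l) = (1 + X * C a) * ph l := rfl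

theorem ph_zero (a : R) (l : List R) : (ph (a :: l)).coeff 0 = (ph l).coeff 0 := by
  rw [ph_cons, add_mul, one_mul, mul_assoc, coeff_add, coeff_X_mul_zero, add_zero]

theorem ph_succ (a : R) (l : List R) (k : ℕ) :
    (ph (a :: l)).coeff (k + 1) = (ph l).coeff (k + 1) + a * (ph l).coeff k := by
  rw [ph_cons, add_mul, one_mul, mul_assoc, coeff_add, coeff_X_mul, coeff_C_mul]

theorem ph_inv (l : List R) (h : ∀ a ∈ l, a * a = 0) :
    ph l * ph (l.map fun a => -a).reverse = 1 := by
  induction l with
  | nil => simp [ph]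
  | cons a l ih =>
    have e : ph ((a :: l).map fun a => -a).reverse
        = ph (l.map fun a => -a).reverse * (1 + X * C (-a)) := by
      simp [ph]
    have h0 : (X * C a : R[X]) * (X * C a) = 0 := by
      rw [mul_assoc, ← mul_assoc (C a), ← X_mul_C, mul_assoc, ← C_mul, h a List.mem_cons_self,
        C_0, mul_zero, mul_zero]
    rw [e, ph_cons, mul_assoc, ← mul_assoc (ph l), ih fun b hb => h b (List.mem_cons_of_mem _ hb),
      one_mul, C_neg, mul_neg]
    calc (1 + X * C a) * (1 + -(X * C a)) = 1 - (X * C a) * (X * C a) := by noncomm_ring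
      _ = 1 := by rw [h0, sub_zero]

/-- elements killed by the long products -/
def F (T : Set R) (m k : ℕ) : AddSubgroup R where
  carrier := {r | ∀ l : List R, (∀ a ∈ l, a ∈ T) → m + 1 ≤ k + l.length → l.prod * r = 0}
  add_mem' := fun {x y} hx hy l hl h => by rw [mul_add, hx l hl h, hy l hl h, add_zero]
  zero_mem' := fun l _ _ => mul_zero _
  neg_mem' := fun {x} hx l hl h => by rw [mul_neg, hx l hl h, neg_zero]

theorem ph_deg (T : Set R) (m : ℕ)
    (hT : ∀ l : List R, (∀ a ∈ l, a ∈ T) → l.length = m + 1 → l.prod = 0)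
    (l : List R) (hl : ∀ a ∈ l, a ∈ T ∨ -a ∈ T) : (ph l).natDegree ≤ m := by
  have hm : ∀ {a r : R} {k : ℕ}, a ∈ T → r ∈ F T m k → a * r ∈ F T m (k + 1) := by
    intro a r k ha hr l hl h
    have := hr (l ++ [a]) (by
      intro b hb
      rcases List.mem_append.1 hb with hb | hb
      · exact hl b hb
      · rw [List.mem_singleton.1 hb]; exact ha) (by simp; omega)
    rwa [List.prod_append, List.prod_singleton, mul_assoc] at this
  have key : ∀ k, (ph l).coeff k ∈ F T m k := by
    induction l with
    | nil =>
      intro k l hl h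
      cases k with
      | zero =>
        rw [← List.take_append_drop (m + 1) l, List.prod_append,
          hT (l.take (m + 1)) (fun a ha => hl a (List.mem_of_mem_take ha))
            (by rw [List.length_take]; omega), zero_mul, zero_mul]
      | succ k => simp [ph, coeff_one]
    | cons a l ih =>
      have ih' := ih fun b hb => hl b (List.mem_cons_of_mem _ hb)
      intro k
      cases k with
      | zero => rw [ph_zero]; exact ih' 0
      | succ k =>
        rw [ph_succ]
        refine add_mem (ih' _) ?_
        rcases hl a List.mem_cons_self with h | h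
        · exact hm h (ih' k)
        · have := neg_mem (hm h (ih' k))
          rwa [neg_mul, neg_neg] at this
  rw [natDegree_le_iff_coeff_eq_zero]
  intro k hk
  have := key k [] (by simp) (by simp; omega)
  simpa using this

end ring

section lie
variable {K M : Type} [Field K] [LieRing M] [LieAlgebra K M]

theorem ph_coeff (l : List M) : ∀ k, (ph (l.map fun v => ad K M v)).coeff k = UU K l k := by
  induction l with
  | nil =>
    intro k
    cases k with
    | zero => simp [ph]
    | succ k => simp [ph, coeff_one, UU]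
  | cons v l ih =>
    intro k
    cases k with
    | zero => rw [List.map_cons, ph_zero, ih, UU_zero, UU_zero]
    | succ k => rw [List.map_cons, ph_succ, ih, ih, UU_cons_succ]

theorem conj (l : List M)
    (h : ∀ v ∈ l, ∃ I : LieIdeal K M, (∀ x ∈ I, ∀ y ∈ I, ⁅x, y⁆ = 0) ∧ v ∈ I) (u : M) :
    ∃ P : (Module.End K M)[X], (∀ k, P.coeff k = ad K M (UU K l k u)) ∧
      ph (l.map fun v => ad K M v) * C (ad K M u) = P * ph (l.map fun v => ad K M v) := by
  induction l with
  | nil =>
    refine ⟨C (ad K M u), fun k => ?_, by simp [ph]⟩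
    cases k with
    | zero => simp
    | succ k => simp [UU]
  | cons v l ih =>
    obtain ⟨P, hP, hE⟩ := ih fun b hb => h b (List.mem_cons_of_mem _ hb)
    obtain ⟨I, hI, hv⟩ := h v List.mem_cons_self
    have h1 : ad K M v * ad K M v = 0 := by
      ext w
      exact hI _ hv _ (lie_mem_left K M I v w hv)
    have h2 : ∀ a, ad K M v * ad K M a * ad K M v = 0 := by
      intro a
      ext w
      exact hI _ hv _ (I.lie_mem (lie_mem_left K M I v w hv))
    have h3 : C (ad K M v) * P * C (ad K M v) = 0 := by
      ext k : 1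
      rw [coeff_mul_C, coeff_C_mul, hP, h2, coeff_zero]
    have h4 : (C (ad K M v) : (Module.End K M)[X]) * C (ad K M v) = 0 := by
      rw [← C_mul, h1, C_0]
    refine ⟨P + X * (C (ad K M v) * P - P * C (ad K M v)), fun k => ?_, ?_⟩
    · cases k with
      | zero => rw [coeff_add, coeff_X_mul_zero, add_zero, hP, UU_zero, UU_zero]
      | succ k =>
        rw [coeff_add, coeff_X_mul, coeff_sub, coeff_C_mul, coeff_mul_C, hP, hP, UU_cons_succ,
          LinearMap.add_apply, map_add, Module.End.mul_apply, ad_apply]
        congr 1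
        ext w
        simp
    · rw [List.map_cons, ph_cons, mul_assoc, hE, ← mul_assoc, ← mul_assoc]
      congr 1
      generalize C (ad K M v) = A at h3 h4
      have c1 : P * (X * A) = X * (P * A) := by rw [← mul_assoc, ← X_mul, mul_assoc]
      have c2 : (A * P - P * A) * (X * A) = X * (A * P * A - P * (A * A)) := by
        rw [← mul_assoc, ← X_mul, mul_assoc, sub_mul, mul_assoc P A A]
      calc (1 + X * A) * P = P + X * (A * P) := by noncomm_ring
        _ = P + P * (X * A) + X * (A * P - P * A) + X * ((A * P - P * A) * (X * A)) := by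
          rw [c1, c2, h3, h4, mul_zero, sub_zero, mul_zero, mul_zero, add_zero, mul_sub]
          abel
        _ = _ := by
          rw [add_mul, mul_add, mul_add, mul_one, mul_one, mul_assoc X _ (X * A)]
          abel

end lie

end Inner

theorem sInner : SInner := by
  intro K M _ _ _ _ J hJ vs m hm hv hn
  have hp : ∀ v ∈ vs, ∃ I : LieIdeal K M, (∀ x ∈ I, ∀ y ∈ I, ⁅x, y⁆ = 0) ∧ v ∈ I := by
    intro v h
    obtain ⟨I, hI, h⟩ := hv v h
    exact ⟨I, hJ I hI, h⟩
  have hT : ∀ l : List (Module.End K M), (∀ a ∈ l, a ∈ {a | ∃ v ∈ vs, a = ad K M v}) →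
      l.length = m + 1 → l.prod = 0 := by
    intro l hl hlen
    have : ∃ l0 : List M, (∀ v ∈ l0, v ∈ vs) ∧ l = l0.map fun v => ad K M v := by
      clear hlen
      induction l with
      | nil => exact ⟨[], by simp, rfl⟩
      | cons a l ih =>
        obtain ⟨l0, h1, h2⟩ := ih fun b hb => hl b (List.mem_cons_of_mem _ hb)
        obtain ⟨v, h3, h4⟩ := hl a List.mem_cons_self
        refine ⟨v :: l0, fun b hb => ?_, by rw [List.map_cons, ← h2, h4]⟩
        rcases List.mem_cons.1 hb with rfl | hb
        · exact h3
        · exact h1 b hb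
    obtain ⟨l0, h1, rfl⟩ := this
    exact hn l0 h1 (by simpa using hlen)
  set as := vs.map fun v => ad K M v with has
  have d1 : (Inner.ph as).natDegree ≤ m := Inner.ph_deg _ m hT as fun a ha => by
    obtain ⟨v, h, rfl⟩ := List.mem_map.1 ha
    exact Or.inl ⟨v, h, rfl⟩
  have d2 : (Inner.ph (as.map fun a => -a).reverse).natDegree ≤ m :=
    Inner.ph_deg _ m hT _ fun a ha => by
      obtain ⟨b, hb, rfl⟩ := List.mem_map.1 (List.mem_reverse.1 ha)
      obtain ⟨v, h, rfl⟩ := List.mem_map.1 hb
      exact Or.inr ⟨v, h, neg_neg _⟩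
  have hinv : Inner.ph as * Inner.ph (as.map fun a => -a).reverse = 1 :=
    Inner.ph_inv as fun a ha => by
      obtain ⟨v, h, rfl⟩ := List.mem_map.1 ha
      obtain ⟨I, hI, h⟩ := hp v h
      ext w
      exact hI _ h _ (lie_mem_left K M I v w h)
  have hP : ∀ u, ∃ P : (Module.End K M)[X], P.natDegree ≤ m ∧ P.coeff m = ad K M (UU K vs m u) ∧
      Inner.ph as * C (ad K M u) = P * Inner.ph as := by
    intro u
    obtain ⟨P, h1, h2⟩ := Inner.conj vs hp u
    refine ⟨P, ?_, h1 m, h2⟩
    rw [natDegree_le_iff_coeff_eq_zero] at d1 ⊢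
    intro k hk
    rw [h1, ← Inner.ph_coeff, d1 k hk, LinearMap.zero_apply, map_zero]
  have hU : (Inner.ph as).coeff m = UU K vs m := Inner.ph_coeff vs m
  refine ⟨fun u u' => ?_, fun u u' w => ?_⟩
  · obtain ⟨P, h1, h2, h3⟩ := hP u
    have := congrArg (fun f => coeff f (m + m)) h3
    rw [coeff_mul_C, coeff_mul_add_eq_of_natDegree_le h1 d1, h2, hU,
      natDegree_le_iff_coeff_eq_zero.1 d1 (m + m) (by omega), zero_mul] at this
    exact (congrArg (fun f : Module.End K M => f u') this).symm
  · obtain ⟨P, h1, h2, h3⟩ := hP u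
    obtain ⟨P', h1', h2', h3'⟩ := hP u'
    have e : P * P' = Inner.ph as *
        (C (ad K M u * ad K M u') * Inner.ph (as.map fun a => -a).reverse) := by
      rw [C_mul, ← mul_assoc, ← mul_assoc, h3, mul_assoc P, h3', mul_assoc P, mul_assoc P', hinv,
        mul_one]
    have := congrArg (fun f => coeff f (m + m)) e
    rw [coeff_mul_add_eq_of_natDegree_le h1 h1', h2, h2',
      coeff_mul_add_eq_of_natDegree_le d1 ((natDegree_C_mul_le _ _).trans d2), hU] at this
    exact ⟨_, congrArg (fun f : Module.End K M => f w) this⟩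

end Pool.Agent.MP_3312ae_al.HR.Z30
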