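import Pool.Agent.MP_3312ae_al.HR.Z30.Spec

/-! The weight trick: a product of two long elements lies in `ψ L · short + ψ L`. -/

set_option autoImplicit false

namespace Pool.Agent.MP_3312ae_al.HR.Z30

open Finset LieAlgebra Submodule

namespace LL

variable {K L : Type} [Field K] [LieRing L] [LieAlgebra K L]

/-- the values of a class that have total degree `w` -/
def ClsD (G : GrL K L) (m0 m n l j w : ℕ) : Set L :=
  {v | ∃ (ι : Type) (_ : Fintype ι) (_ : DecidableEq ι) (δ : Dat ι L) (S : Finset ι) (d : ι → ℕ),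
    (∀ i, j ≤ d i ∧ δ.x i ∈ G.A (d i)) ∧ (S ∩ δ.us.toFinset).card = n ∧ S.card = l ∧
      ∑ i ∈ S, d i = w ∧ v = δ.val K m0 m S}

/-- the values of total degree `w` in which all arguments but one have total degree `≤ s` -/
def BigD (G : GrL K L) (m0 m n l j s w : ℕ) : Set L :=
  {v | ∃ (ι : Type) (_ : Fintype ι) (_ : DecidableEq ι) (δ : Dat ι L) (S : Finset ι) (d : ι → ℕ)
    (i0 : ι), (∀ i, j ≤ d i ∧ δ.x i ∈ G.A (d i)) ∧ (S ∩ δ.us.toFinset).card = n ∧ S.card = l ∧
      ∑ i ∈ S, d i = w ∧ i0 ∈ S ∧ ∑ i ∈ S.erase i0, d i ≤ s ∧ v = δ.val K m0 m S}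

theorem upd_deg (G : GrL K L) {ι : Type} [DecidableEq ι] (δ : Dat ι L) (d : ι → ℕ) (j k : ℕ)
    (hd : ∀ i, j ≤ d i ∧ δ.x i ∈ G.A (d i)) (a : L) (ha : a ∈ G.A k) (i0 : ι) (i : ι) :
    j ≤ Function.update d i0 (k + d i0) i ∧
      (δ.upd i0 ⁅a, δ.x i0⁆).x i ∈ G.A (Function.update d i0 (k + d i0) i) := by
  show _ ∧ Function.update δ.x i0 ⁅a, δ.x i0⁆ i ∈ _
  by_cases h : i = i0
  · subst h
    rw [Function.update_self, Function.update_self]
    exact ⟨(hd i).1.trans (Nat.le_add_left _ _), G.lie_mem _ _ _ _ ha (hd i).2⟩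
  · rw [Function.update_of_ne h, Function.update_of_ne h]
    exact hd i

theorem cls_deg (G : GrL K L) (hD : DegC G) {m0 m n l j : ℕ} {v : L}
    (hv : v ∈ Cls G m0 m n l j) : ∃ w, v ∈ G.A w ∧ v ∈ ClsD G m0 m n l j w := by
  obtain ⟨ι, i1, i2, δ, S, hx, h1, h2, rfl⟩ := hv
  choose d hd hd' using hx
  exact ⟨∑ i ∈ S, d i, hD ι δ m0 m d S hd',
    ι, i1, i2, δ, S, d, fun i => ⟨hd i, hd' i⟩, h1, h2, rfl, rfl⟩

theorem lie_cls (G : GrL K L) (hE : EqvC K L) {m0 m n l j : ℕ} (a : L) {v : L}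
    (hv : v ∈ Cls G m0 m n l j) : ⁅a, v⁆ ∈ span K (Cls G m0 m n l j) := by
  obtain ⟨ι, i1, i2, δ, S, hx, h1, h2, rfl⟩ := hv
  choose d hd hd' using hx
  obtain ⟨N, hN⟩ := G.fin a
  rw [← hN N le_rfl, sum_lie]
  refine Submodule.sum_mem _ fun k _ => ?_
  rw [hE ι δ m0 m (G.π k a) S]
  refine Submodule.sum_mem _ fun i0 _ => subset_span ?_
  refine ⟨ι, i1, i2, _, S, fun i => ⟨_, upd_deg G δ d j k (fun i => ⟨hd i, hd' i⟩) _
    (G.π_mem k a) i0 i⟩, h1, h2, rfl⟩

/-- the span of a class is an ideal -/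
def idl (G : GrL K L) (hE : EqvC K L) (m0 m n l j : ℕ) : LieIdeal K L :=
  { span K (Cls G m0 m n l j) with
    lie_mem := fun {a v} hv => by
      have hv' : v ∈ span K (Cls G m0 m n l j) := hv
      show ⁅a, v⁆ ∈ span K (Cls G m0 m n l j)
      clear hv
      induction hv' using span_induction with
      | mem v hv => exact lie_cls G hE a hv
      | zero => rw [lie_zero]; exact zero_mem _
      | add y z _ _ h1 h2 => rw [lie_add]; exact add_mem h1 h2
      | smul c y _ h => rw [lie_smul]; exact smul_mem _ c h }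

theorem pi_cls (G : GrL K L) (hD : DegC G) {m0 m n l j : ℕ} (w : ℕ) {v : L}
    (hv : v ∈ span K (Cls G m0 m n l j)) :
    G.π w v ∈ span K (Cls G m0 m n l j) ∧ G.π w v ∈ span K (ClsD G m0 m n l j w) := by
  induction hv using span_induction with
  | mem v hv =>
    obtain ⟨w', h1, h2⟩ := cls_deg G hD hv
    rw [G.π_of w w' v h1]
    split_ifs with h
    · exact ⟨subset_span hv, subset_span (h ▸ h2)⟩
    · exact ⟨zero_mem _, zero_mem _⟩
  | zero => rw [map_zero]; exact ⟨zero_mem _, zero_mem _⟩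
  | add y z _ _ h1 h2 => rw [map_add]; exact ⟨add_mem h1.1 h2.1, add_mem h1.2 h2.2⟩
  | smul c y _ h => rw [map_smul]; exact ⟨smul_mem _ c h.1, smul_mem _ c h.2⟩

theorem ex_cls (G : GrL K L) (hJ : G.JI) (hD : DegC G) (hE : EqvC K L) {m0 m n l j : ℕ}
    (h : ∃ v ∈ Cls G m0 m n l j, v ≠ 0) :
    ∃ S, ∀ w, S ≤ w → G.A w ≤ span K (ClsD G m0 m n l j w) := by
  obtain ⟨v, hv, hv0⟩ := h
  obtain ⟨S, hS⟩ := hJ.ji (idl G hE m0 m n l j) (fun i x hx => (pi_cls G hD i hx).1) (by
    intro h0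
    have h1 : v ∈ idl G hE m0 m n l j := subset_span (R := K) hv
    rw [h0] at h1
    exact hv0 (by simpa using h1))
  refine ⟨S, fun w hw x hx => ?_⟩
  have h1 : x ∈ G.ge S := fun i hi => by rw [G.π_of i w x hx, if_neg (by omega)]
  have h2 := (pi_cls G hD w (hS h1)).2
  rwa [G.π_of w w x hx, if_pos rfl] at h2

theorem lie_big (G : GrL K L) (hE : EqvC K L) {m0 m n l j s i k : ℕ} (hi : i ≤ s) {y c : L}
    (hy : y ∈ G.A k) (hc : c ∈ span K (ClsD G m0 m n l j i)) :
    ⁅y, c⁆ ∈ span K (BigD G m0 m n l j s (k + i)) := by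
  induction hc using span_induction with
  | mem c hc =>
    obtain ⟨ι, i1, i2, δ, S, d, hd, h1, h2, h3, rfl⟩ := hc
    rw [hE ι δ m0 m y S]
    refine Submodule.sum_mem _ fun i0 h0 => subset_span ?_
    have e1 : ∑ i ∈ S.erase i0, Function.update d i0 (k + d i0) i = ∑ i ∈ S.erase i0, d i :=
      Finset.sum_congr rfl fun i h => Function.update_of_ne (Finset.ne_of_mem_erase h) _ _
    have e2 := Finset.add_sum_erase S d h0
    have e3 := Finset.add_sum_erase S (Function.update d i0 (k + d i0)) h0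
    rw [Function.update_self, e1] at e3
    exact ⟨ι, i1, i2, _, S, Function.update d i0 (k + d i0), i0, upd_deg G δ d j k hd y hy i0,
      h1, h2, by omega, h0, by omega, rfl⟩
  | zero => rw [lie_zero]; exact zero_mem _
  | add c c' _ _ h1 h2 => rw [lie_add]; exact add_mem h1 h2
  | smul t c _ h => rw [lie_smul]; exact smul_mem _ t h

end LL

theorem sLL : SLL := by
  intro K L _ _ _ G _ hJ hG hD hE m0 m n l j hreg hR
  obtain ⟨S1, hS1⟩ := LL.ex_cls G hJ hD hE (hreg j)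
  obtain ⟨s, hs⟩ := hG S1
  obtain ⟨S2, hS2⟩ := LL.ex_cls G hJ hD hE (hreg (max j (s + 1)))
  have hbig : ∀ w, s < w → G.A w ≤ span K (LL.BigD G m0 m n l j s w) := by
    intro w hw
    refine (hs w hw).trans (span_le.2 ?_)
    rintro _ ⟨i, c, y, h1, h2, -, hc, hy, rfl⟩
    have h := LL.lie_big G hE h2 hy (hS1 i h1 hc)
    rw [show w - i + i = w by omega] at h
    rw [← lie_skew]
    exact neg_mem h
  refine ⟨max (s + 1) S2, ?_⟩
  set T : Submodule K (Module.End K (G.ge j)) :=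
    span K {r | ∃ x c d, d < max (s + 1) S2 ∧ c ∈ G.A d ∧ r = G.ψ j x * G.ψ j c} ⊔
      LinearMap.range (G.ψ j) with hT
  have key : ∀ w' w z z', s < w → z ∈ G.A w → z' ∈ G.A w' → G.ψ j z * G.ψ j z' ∈ T := by
    intro w'
    induction w' using Nat.strong_induction_on with
    | _ w' ih =>
      intro w z z' hw hz hz'
      by_cases hlt : w' < max (s + 1) S2
      · exact mem_sup_left (subset_span ⟨z, z', w', hlt, hz', rfl⟩)
      have h1 := hbig w hw hz
      have h2 := hS2 w' (by omega) hz'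
      clear hz hz'
      induction h1 using span_induction with
      | zero => rw [map_zero, zero_mul]; exact zero_mem _
      | add a b _ _ ha hb => rw [map_add, add_mul]; exact add_mem ha hb
      | smul t a _ ha => rw [map_smul, smul_mul_assoc]; exact smul_mem _ t ha
      | mem z hz =>
        induction h2 using span_induction with
        | zero => rw [map_zero, mul_zero]; exact zero_mem _
        | add a b _ _ ha hb => rw [map_add, mul_add]; exact add_mem ha hb
        | smul t a _ ha => rw [map_smul, mul_smul_comm]; exact smul_mem _ t ha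
        | mem z' hz' =>
          obtain ⟨ι₁, i1, i2, δ₁, S₁, d₁, i0, hd₁, a1, a2, a3, a4, a5, rfl⟩ := hz
          obtain ⟨ι₂, i3, i4, δ₂, S₂, d₂, hd₂, b1, b2, b3, rfl⟩ := hz'
          have h := hR ι₁ ι₂ δ₁ δ₂ d₁ d₂ S₁ S₂ i0 hd₁
            (fun i => ⟨(le_max_left _ _).trans (hd₂ i).1, (hd₂ i).2⟩) a4 a1 a2 b1 b2
            (fun i _ => by have := (hd₂ i).1; omega)
          rw [a3, b3] at h
          refine (sup_le (span_le.2 ?_) le_sup_right : _ ≤ T) h
          rintro _ ⟨t, x, y, t1, t2, hx, hy, rfl⟩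
          exact ih (w' - t) (by omega) (w + t) x y (by omega) hx hy
  rintro z z' ⟨w, hw, hz⟩ ⟨w', -, hz'⟩
  exact key w' w z z' (by omega) hz hz'

end Pool.Agent.MP_3312ae_al.HR.Z30
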