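import Pool.Agent.MP_3312ae_al.HR.Z30.Spec

/-! Row NoA: an injective endomorphism of positive degree cannot exist. -/

set_option autoImplicit false

namespace Pool.Agent.MP_3312ae_al.HR.Z30

open Finset LieAlgebra Submodule

namespace NoA

variable {K L : Type} [Field K] [LieRing L] [LieAlgebra K L] (G : GrL K L)

theorem mem_ge {j : ℕ} {x : L} : x ∈ G.ge j ↔ ∀ i < j, G.π i x = 0 := Iff.rfl

theorem mem_ge_of {j d : ℕ} {x : L} (hx : x ∈ G.A d) (h : j ≤ d) : x ∈ G.ge j := fun i hi => by
  rw [G.π_of i d x hx, if_neg (by omega)]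

/-- homogeneous components inside `L^S` -/
def pr (S d : ℕ) (y : G.ge S) : G.ge S := ⟨G.π d y, fun i hi => by
  rw [G.π_of i d _ (G.π_mem d _)]
  split_ifs with h
  · exact (mem_ge G).1 y.2 d (h ▸ hi)
  · rfl⟩

theorem pr_coe (S d : ℕ) (y : G.ge S) : (pr G S d y : L) = G.π d y := rfl

theorem pi_big (x : L) : ∃ N, ∀ M, N ≤ M → G.π M x = 0 := by
  obtain ⟨N, hN⟩ := G.fin x
  refine ⟨N, fun M hM => ?_⟩
  have h1 := hN (M + 1) (by omega)
  rw [sum_range_succ, hN M hM] at h1
  simpa using h1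

theorem sum_pr (S : ℕ) (y : G.ge S) : ∃ N, ∀ M, N ≤ M → ∑ d ∈ range M, pr G S d y = y := by
  obtain ⟨N, hN⟩ := G.fin (y : L)
  refine ⟨N, fun M hM => Subtype.ext ?_⟩
  rw [AddSubmonoidClass.coe_finset_sum]
  exact hN M hM

section
variable {G} {S δ : ℕ} {θ : G.ge S →ₗ[K] G.ge S}
  (hd : ∀ d (y : G.ge S), (y : L) ∈ G.A d → (θ y : L) ∈ G.A (d + δ))
include hd

theorem pi_theta (i : ℕ) (y : G.ge S) :
    G.π i (θ y) = if δ ≤ i then (θ (pr G S (i - δ) y) : L) else 0 := by
  obtain ⟨N, hN⟩ := sum_pr G S y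
  have h1 := hN (N + i + 1) (by omega)
  conv_lhs => rw [← h1, map_sum, AddSubmonoidClass.coe_finset_sum, map_sum]
  have h2 : ∀ d, G.π i (θ (pr G S d y)) = if i = d + δ then (θ (pr G S d y) : L) else 0 :=
    fun d => G.π_of i (d + δ) _ (hd d _ (G.π_mem d _))
  simp only [h2]
  split_ifs with h
  · rw [Finset.sum_eq_single (i - δ)]
    · rw [if_pos (by omega)]
    · intro b _ hb
      rw [if_neg (by omega)]
    · intro h3
      exact absurd (mem_range.2 (by omega)) h3
  · exact Finset.sum_eq_zero fun d _ => if_neg (by omega)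

theorem hom_zero (hδ : 0 < δ) (hi : Function.Injective θ) (y : G.ge S) (d : ℕ)
    (hz : ((θ y : G.ge S) : L) - y ∈ G.A d) : ((θ y : G.ge S) : L) - y = 0 := by
  have h1 : ∀ i, i ≠ d → G.π i (θ y) = G.π i y := by
    intro i hi
    have := G.π_of i d _ hz
    rwa [if_neg hi, map_sub, sub_eq_zero] at this
  have h2 : ∀ i, i < d → pr G S i y = 0 := by
    intro i
    induction i using Nat.strong_induction_on with
    | _ i ih =>
      intro hi
      apply Subtype.ext
      rw [pr_coe, ← h1 i (by omega), pi_theta hd]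
      split_ifs with h
      · rw [ih (i - δ) (by omega) (by omega), map_zero]
      · rfl
  have h3 : ∀ k, pr G S (d + k * δ) y = 0 → pr G S d y = 0 := by
    intro k
    induction k with
    | zero => simp
    | succ k ih =>
      intro h
      apply ih
      apply hi
      apply Subtype.ext
      have h4 : (k + 1) * δ = k * δ + δ := by ring
      have h5 := pi_theta hd (d + (k + 1) * δ) y
      rw [if_pos (by omega), h1 _ (by omega), show d + (k + 1) * δ - δ = d + k * δ by omega,
        ← pr_coe, h] at h5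
      rw [← h5, map_zero]
  obtain ⟨N, hN⟩ := pi_big G (y : L)
  have h6 : pr G S d y = 0 := h3 N (Subtype.ext (hN _ (by nlinarith)))
  have h7 := G.π_of d d _ hz
  rw [if_pos rfl, map_sub, ← pr_coe, ← pr_coe G S d y, h6, pr_coe, pi_theta hd] at h7
  rw [← h7]
  split_ifs with h
  · rw [h2 (d - δ) (by omega), map_zero]
    simp
  · simp

end

theorem span_words (hG : G.GB) (S k : ℕ) : G.A (S + 1 + k) ≤ span K
    {v : L | ∃ (l : List (Fin G.r)) (y : G.ge S), l.length = k ∧
      v = ((l.map fun i => G.ψ S (G.a i)).prod y : G.ge S)} := by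
  induction k with
  | zero =>
    intro z hz
    exact subset_span ⟨[], ⟨z, mem_ge_of G hz (by omega)⟩, rfl, rfl⟩
  | succ k ih =>
    refine (hG.succ (S + 1 + k) (by omega)).trans (span_le.2 ?_)
    rintro _ ⟨i, y, hy, rfl⟩
    have h1 := ih hy
    clear hy
    induction h1 using span_induction with
    | mem v hv =>
      obtain ⟨l, y, hl, rfl⟩ := hv
      exact subset_span ⟨i :: l, y, by simp [hl], rfl⟩
    | zero => simp
    | add u v _ _ hu hv => rw [lie_add]; exact add_mem hu hv
    | smul c u _ hu => rw [lie_smul]; exact smul_mem _ c hu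

end NoA

open NoA

theorem sNoA : SNoA := by
  rintro hEJ K L _ _ _ G hG hJ ⟨S, δ, θ, hδ, hi, hc, hd⟩
  let T : LieIdeal K L :=
    { carrier := {x | ∃ y : G.ge S, (θ y : L) = x}
      add_mem' := by
        rintro _ _ ⟨y, rfl⟩ ⟨y', rfl⟩
        exact ⟨y + y', by simp⟩
      zero_mem' := ⟨0, by simp⟩
      smul_mem' := by
        rintro c _ ⟨y, rfl⟩
        exact ⟨c • y, by simp⟩
      lie_mem := by
        rintro x _ ⟨y, rfl⟩
        exact ⟨G.ψ S x y, by rw [hc, G.ψ_apply]⟩ }
  have hT : ∀ x, x ∈ T ↔ ∃ y : G.ge S, (θ y : L) = x := fun x => Iff.rfl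
  obtain ⟨S', hS'⟩ := hJ.ji T (by
      intro i x hx
      obtain ⟨y, rfl⟩ := (hT x).1 hx
      rw [pi_theta hd]
      split_ifs
      · exact (hT _).2 ⟨_, rfl⟩
      · exact zero_mem _) (by
      intro h
      obtain ⟨z, hz, hz0⟩ := Submodule.exists_mem_ne_zero_of_ne_bot (hJ.inf (S + 1) (by omega))
      have h1 : (θ ⟨z, mem_ge_of G hz (by omega)⟩ : L) ∈ T := (hT _).2 ⟨_, rfl⟩
      rw [h, LieSubmodule.mem_bot] at h1
      have h2 : θ ⟨z, mem_ge_of G hz (by omega)⟩ = θ 0 := by
        rw [map_zero]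
        exact Subtype.ext h1
      exact hz0 (congrArg Subtype.val (hi h2)))
  let P : Submodule K (G.ge S) := LinearMap.range (θ - LinearMap.id)
  have hP : ∀ y, θ y - y ∈ P := fun y => ⟨y, rfl⟩
  let F : ℕ → Submodule K (G.ge S) := fun d =>
    (G.A d).comap (G.ge S).toSubmodule.subtype
  have hF : ∀ d, (F d).FG := by
    intro d
    haveI := hG.fd d
    rw [← Module.Finite.iff_fg]
    refine Module.Finite.of_injective
      ((((G.ge S).toSubmodule.subtype).domRestrict (F d)).codRestrict (G.A d) fun y => y.2) ?_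
    intro y y' h
    have h2 : ((y : G.ge S) : L) = ((y' : G.ge S) : L) := congrArg (fun t : G.A d => (t : L)) h
    exact Subtype.ext (Subtype.ext h2)
  let F' : Submodule K (G.ge S) := (range S').sup F
  have hF' : F'.FG := Submodule.fg_finset_sup _ _ fun d _ => hF d
  have hall : ∀ d (y : G.ge S), (y : L) ∈ G.A d → y ∈ F' ⊔ P := by
    intro d
    induction d using Nat.strong_induction_on with
    | _ d ih =>
      intro y hy
      by_cases h : d < S'
      · exact mem_sup_left (Finset.le_sup (f := F) (mem_range.2 h) hy)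
      · obtain ⟨y', hy'⟩ := (hT _).1 (hS' (mem_ge_of G hy (by omega)))
        have h1 := G.π_of d d _ hy
        rw [if_pos rfl] at h1
        have h2 := pi_theta hd d y'
        rw [hy', h1] at h2
        split_ifs at h2 with h3
        · have h4 : y = θ (pr G S (d - δ) y') := Subtype.ext h2
          have h5 : y = pr G S (d - δ) y' + (θ (pr G S (d - δ) y') - pr G S (d - δ) y') := by
            rw [← h4]; abel
          rw [h5]
          exact add_mem (ih (d - δ) (by omega) _ (G.π_mem _ _)) (mem_sup_right (hP _))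
        · have h4 : y = 0 := Subtype.ext h2
          rw [h4]
          exact zero_mem _
  have htop : F' ⊔ P = ⊤ := by
    rw [eq_top_iff]
    intro y _
    obtain ⟨N, hN⟩ := sum_pr G S y
    rw [← hN N le_rfl]
    exact sum_mem fun d _ => hall d _ (G.π_mem _ _)
  haveI : FiniteDimensional K (G.ge S ⧸ P) := by
    refine ⟨?_⟩
    have h1 : F'.map P.mkQ = ⊤ := by
      rw [Submodule.map_mkQ_eq_top, sup_comm, htop]
    rw [← h1]
    exact hF'.map _
  have hst : ∀ x, P ≤ P.comap (G.ψ S x) := by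
    rintro x _ ⟨y, rfl⟩
    refine ⟨G.ψ S x y, ?_⟩
    simp [hc]
  let φ : L → Module.End K (G.ge S ⧸ P) := fun x => P.mapQ P (G.ψ S x) (hst x)
  have hφ : ∀ x y, φ x (P.mkQ y) = P.mkQ (G.ψ S x y) := fun x y => rfl
  have hprod : ∀ (l : List L) y, (l.map φ).prod (P.mkQ y) = P.mkQ ((l.map (G.ψ S)).prod y) := by
    intro l y
    induction l with
    | nil => rfl
    | cons x l ih =>
      rw [List.map_cons, List.prod_cons, Module.End.mul_apply, ih, hφ, List.map_cons,
        List.prod_cons, Module.End.mul_apply]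
  obtain ⟨N, hN⟩ := hEJ K (G.ge S ⧸ P) {f | ∃ c, IsComm G.a c ∧ f = φ c} (by
      rintro _ ⟨c, hc, rfl⟩ _ ⟨c', hc', rfl⟩
      refine ⟨⁅c, c'⁆, hc.br hc', LinearMap.ext fun v => ?_⟩
      obtain ⟨y, rfl⟩ := P.mkQ_surjective v
      rw [LinearMap.sub_apply, Module.End.mul_apply, Module.End.mul_apply, hφ, hφ, hφ, hφ, hφ,
        hG.rep S c c', LinearMap.sub_apply, map_sub, Module.End.mul_apply, Module.End.mul_apply]) (by
      rintro _ ⟨c, hc, rfl⟩
      obtain ⟨k, hk⟩ := hG.rep_nil S c hc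
      refine ⟨k, LinearMap.ext fun v => ?_⟩
      obtain ⟨y, rfl⟩ := P.mkQ_surjective v
      have h1 := hprod (List.replicate k c) y
      rw [List.map_replicate, List.map_replicate, List.prod_replicate, List.prod_replicate,
        hk] at h1
      rw [h1]
      simp)
  apply hJ.inf (S + 1 + N) (by omega)
  rw [eq_bot_iff]
  intro z hz
  have h1 : z ∈ P.map (G.ge S).toSubmodule.subtype := by
    refine (span_le.2 ?_ : _ ≤ P.map (G.ge S).toSubmodule.subtype) (span_words G hG S N hz)
    rintro _ ⟨l, y, hl, rfl⟩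
    refine ⟨_, ?_, rfl⟩
    have h2 := hprod (l.map G.a) y
    rw [hN ((l.map G.a).map φ) (by
      intro f hf
      obtain ⟨c, hc, rfl⟩ := List.mem_map.1 hf
      obtain ⟨i, _, rfl⟩ := List.mem_map.1 hc
      exact ⟨_, IsComm.gen i, rfl⟩) (by simp [hl]), List.map_map] at h2
    exact (Submodule.Quotient.mk_eq_zero P).1 h2.symm
  obtain ⟨_, ⟨y, rfl⟩, rfl⟩ := h1
  exact hom_zero hd hδ hi y (S + 1 + N) hz

end Pool.Agent.MP_3312ae_al.HR.Z30
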