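import Pool.Agent.MP_3312ae_al.HR.Z30.Spec

/-! Row NoB: finite rank one excludes the density case, by a dimension count. -/

set_option autoImplicit false

namespace Pool.Agent.MP_3312ae_al.HR.Z30

open Finset Submodule Module

namespace NoB

variable {K L : Type} [Field K] [LieRing L] [LieAlgebra K L] (G : GrL K L)

/-- truncation below degree `M` -/
def tr (M : ℕ) : L →ₗ[K] L := ∑ k ∈ range M, G.π k

theorem tr_apply (M : ℕ) (x : L) : tr G M x = ∑ k ∈ range M, G.π k x := by
  simp [tr, LinearMap.sum_apply]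

theorem pi_tr (M i : ℕ) (x : L) : G.π i (tr G M x) = if i < M then G.π i x else 0 := by
  rw [tr_apply, map_sum]
  have h : ∀ k, G.π i (G.π k x) = if i = k then G.π k x else 0 :=
    fun k => G.π_of i k _ (G.π_mem k x)
  simp only [h, Finset.sum_ite_eq, mem_range]

theorem tr_tr {M M' : ℕ} (h : M ≤ M') (x : L) : tr G M' (tr G M x) = tr G M x := by
  rw [tr_apply G M', tr_apply G M x]
  have h1 : ∀ i, G.π i (∑ k ∈ range M, G.π k x) = if i < M then G.π i x else 0 := by
    intro i
    rw [← tr_apply, pi_tr]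
  simp only [h1]
  rw [← Finset.sum_filter]
  refine Finset.sum_congr ?_ fun _ _ => rfl
  ext i
  simp only [mem_filter, mem_range]
  omega

theorem tr_ge {M : ℕ} {x : L} (hx : x ∈ G.ge M) : tr G M x = 0 := by
  rw [tr_apply]
  exact Finset.sum_eq_zero fun k hk => hx k (mem_range.1 hk)

theorem sub_tr (M : ℕ) (x : L) : x - tr G M x ∈ G.ge M := by
  intro i hi
  rw [map_sub, pi_tr, if_pos hi, sub_self]

theorem tr_lie (M : ℕ) (z y : L) : tr G M ⁅tr G M z, y⁆ = tr G M ⁅z, y⁆ := by
  have h : ⁅y, z - tr G M z⁆ ∈ G.ge M := (G.ge M).lie_mem (sub_tr G M z)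
  have h1 := tr_ge G h
  rw [← lie_skew, map_neg, neg_eq_zero, sub_lie, map_sub, sub_eq_zero] at h1
  exact h1.symm

/-- elements of degree below `M` -/
def W (M : ℕ) : Submodule K L := LinearMap.range (tr G M)

theorem W_mono {M M' : ℕ} (h : M ≤ M') : W G M ≤ W G M' := by
  rintro _ ⟨x, rfl⟩
  exact ⟨_, tr_tr G h x⟩

theorem tr_W {M : ℕ} {x : L} (hx : x ∈ W G M) : tr G M x = x := by
  obtain ⟨y, rfl⟩ := hx
  exact tr_tr G le_rfl y

theorem fdW (hG : G.GB) (M : ℕ) : FiniteDimensional K (W G M) := by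
  have := hG.fd
  have h : W G M ≤ (range M).sup G.A := by
    rintro _ ⟨x, rfl⟩
    rw [tr_apply]
    exact sum_mem fun k hk => Finset.le_sup (f := G.A) hk (G.π_mem k x)
  exact Submodule.finiteDimensional_of_le h

theorem W_rank (hG : G.GB) (hJ : G.JI) (M : ℕ) : M ≤ finrank K (W G (M + 1)) := by
  induction M with
  | zero => exact Nat.zero_le _
  | succ M ih =>
    have := fdW G hG (M + 1 + 1)
    obtain ⟨x, hx, hx0⟩ := (Submodule.ne_bot_iff _).1 (hJ.inf (M + 1) (by omega))
    have hlt : W G (M + 1) < W G (M + 1 + 1) := by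
      refine lt_of_le_of_ne (W_mono G (by omega)) fun e => hx0 ?_
      have h1 : x ∈ W G (M + 1 + 1) := by
        refine ⟨x, ?_⟩
        rw [tr_apply, Finset.sum_eq_single (M + 1), G.π_of _ _ _ hx, if_pos rfl]
        · intro k _ hk
          rw [G.π_of _ _ _ hx, if_neg hk]
        · intro h
          simp at h
      rw [← e] at h1
      rw [← tr_W G h1, tr_apply]
      refine Finset.sum_eq_zero fun k hk => ?_
      rw [G.π_of _ _ _ hx, if_neg (mem_range.1 hk).ne]
    have := Submodule.finrank_lt_finrank_of_lt hlt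
    omega

/-- elements with degrees in `[S, M)` -/
def Y (S M : ℕ) : Submodule K L := W G M ⊓ LinearMap.ker (tr G S)

theorem Y_ge {S M : ℕ} {x : L} (hx : x ∈ Y G S M) : x ∈ G.ge S := by
  have h := sub_tr G S x
  rwa [LinearMap.mem_ker.1 hx.2, sub_zero] at h

theorem W_le_Y (hG : G.GB) {S M : ℕ} (h : S ≤ M) :
    finrank K (W G M) ≤ finrank K (Y G S M) + finrank K (W G S) := by
  have := fdW G hG M
  have := fdW G hG S
  have : FiniteDimensional K (Y G S M) := Submodule.finiteDimensional_of_le inf_le_left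
  have h1 : W G M ≤ Y G S M ⊔ W G S := by
    intro x hx
    have e : x = (x - tr G S x) + tr G S x := by abel
    rw [e]
    refine add_mem_sup ⟨sub_mem hx (W_mono G h ⟨x, rfl⟩), ?_⟩ ⟨x, rfl⟩
    exact tr_ge G (sub_tr G S x)
  exact (Submodule.finrank_mono h1).trans (Submodule.finrank_add_le_finrank_add_finrank _ _)

/-- the inclusion of `L^j` -/
def inc (j : ℕ) : G.ge j →ₗ[K] L where
  toFun y := y
  map_add' _ _ := rfl
  map_smul' _ _ := rfl

/-- truncated values of an operator at the chosen elements -/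
def vec {j J : ℕ} (u : Fin J → G.ge j) (M : ℕ) : Module.End K (G.ge j) →ₗ[K] (Fin J → L) :=
  LinearMap.pi fun k => tr G M ∘ₗ inc G j ∘ₗ LinearMap.applyₗ (u k)

theorem vec_apply {j J : ℕ} (u : Fin J → G.ge j) (M : ℕ) (r : Module.End K (G.ge j))
    (k : Fin J) : vec G u M r k = tr G M (r (u k) : G.ge j) := rfl

theorem count (hG : G.GB) {j J : ℕ} (u : Fin J → G.ge j) (B : Finset (Module.End K (G.ge j)))
    (S M : ℕ) (hS : j ≤ S)
    (h : ∀ i (v : G.ge j), (v : L) ∈ G.ge S →
      ∃ r ∈ span K {r | ∃ b ∈ (B : Set (Module.End K (G.ge j))), r = b ∨ ∃ z, r = G.ψ j z * b},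
        r (u i) = v ∧ ∀ k, k ≠ i → r (u k) = 0) :
    J * finrank K (Y G S M) ≤ B.card * (1 + finrank K (W G M)) := by
  classical
  have := fdW G hG M
  have : FiniteDimensional K (Y G S M) := Submodule.finiteDimensional_of_le inf_le_left
  let f : B → (K × W G M →ₗ[K] (Fin J → L)) := fun b =>
    (LinearMap.toSpanSingleton K _ (vec G u M b.1)).coprod
      (vec G u M ∘ₗ LinearMap.mulRight K b.1 ∘ₗ G.ψ j ∘ₗ (W G M).subtype)
  let Φ : (B → K × W G M) →ₗ[K] (Fin J → L) := ∑ b, f b ∘ₗ LinearMap.proj b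
  have hΦ : ∀ b x, f b x ∈ LinearMap.range Φ := by
    intro b x
    refine ⟨Pi.single b x, ?_⟩
    simp only [Φ, LinearMap.sum_apply, LinearMap.comp_apply, LinearMap.proj_apply]
    rw [Finset.sum_eq_single b, Pi.single_eq_same]
    · intro c _ hc
      rw [Pi.single_eq_of_ne hc, map_zero]
    · simp
  have hsp : ∀ r ∈ span K {r | ∃ b ∈ (B : Set (Module.End K (G.ge j))),
      r = b ∨ ∃ z, r = G.ψ j z * b}, vec G u M r ∈ LinearMap.range Φ := by
    intro r hr
    induction hr using span_induction with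
    | mem r hr =>
      obtain ⟨b, hb, rfl | ⟨z, rfl⟩⟩ := hr
      · have h1 := hΦ ⟨r, hb⟩ (1, 0)
        simpa [f] using h1
      · have h1 := hΦ ⟨b, hb⟩ (0, ⟨tr G M z, z, rfl⟩)
        have e : f ⟨b, hb⟩ (0, ⟨tr G M z, z, rfl⟩) = vec G u M (G.ψ j z * b) := by
          funext k
          simp only [f, LinearMap.coprod_apply, map_zero, zero_add, LinearMap.comp_apply,
            LinearMap.mulRight_apply, Submodule.subtype_apply, vec_apply, Module.End.mul_apply,
            GrL.ψ_apply]
          exact tr_lie G M z _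
        rwa [e] at h1
    | zero => rw [map_zero]; exact zero_mem _
    | add x y _ _ hx hy => rw [map_add]; exact add_mem hx hy
    | smul c x _ hx => rw [map_smul]; exact smul_mem _ c hx
  let ι : (Fin J → Y G S M) →ₗ[K] (Fin J → L) := (Y G S M).subtype.compLeft (Fin J)
  have hι : Function.Injective ι := by
    intro x y e
    funext k
    exact Subtype.ext (congrFun e k)
  have hle : LinearMap.range ι ≤ LinearMap.range Φ := by
    rintro _ ⟨x, rfl⟩
    rw [← Finset.univ_sum_single (ι x)]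
    refine sum_mem fun i _ => ?_
    have h1 : ((x i : Y G S M) : L) ∈ G.ge S := Y_ge G (x i).2
    obtain ⟨r, hr, h2, h3⟩ := h i ⟨x i, fun k hk => h1 k (by omega)⟩ h1
    have e : Pi.single i (ι x i) = vec G u M r := by
      funext k
      rw [vec_apply]
      by_cases hk : k = i
      · subst hk
        rw [Pi.single_eq_same, h2]
        exact (tr_W G (x k).2.1).symm
      · rw [Pi.single_eq_of_ne hk, h3 k hk]
        exact (map_zero _).symm
    rw [e]
    exact hsp r hr
  have h4 := Submodule.finrank_mono hle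
  rw [LinearMap.finrank_range_of_inj hι] at h4
  have h5 := h4.trans (LinearMap.finrank_range_le Φ)
  simpa [Module.finrank_pi_fintype, Module.finrank_prod] using h5

end NoB

theorem sNoB : SNoB := by
  intro K L _ _ _ G hG hJ j ⟨B, hB, hE⟩ hC
  have hx : ∀ d, ∃ x ∈ G.A (j + 1 + d), x ≠ 0 := fun d =>
    (Submodule.ne_bot_iff _).1 (hJ.inf _ (by omega))
  choose x hx hx0 using hx
  have hge : ∀ d, x d ∈ G.ge j := fun d i hi => by
    rw [G.π_of _ _ _ (hx d), if_neg (by omega)]
  obtain ⟨S, hS⟩ := hC (hB.toFinset.card + 1) (fun i => ⟨x i, hge i⟩) (fun i => j + 1 + i)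
    (fun a b e => Fin.ext (by simpa using e))
    (fun i => ⟨hx i, fun e => hx0 i (congrArg Subtype.val e)⟩)
  set n := hB.toFinset.card
  set c := finrank K (NoB.W G (S + j))
  have h1 := NoB.count G hG (fun i : Fin (n + 1) => (⟨x i, hge i⟩ : G.ge j)) hB.toFinset (S + j)
    (n * (1 + c) + c + S + j + 1 + 1) (by omega) (fun i v hv => by
      obtain ⟨r, hr, h2⟩ := hS i v fun k hk => hv k (by omega)
      exact ⟨r, by simpa using hE hr, h2⟩)
  have h2 := NoB.W_le_Y G hG (S := S + j) (M := n * (1 + c) + c + S + j + 1 + 1) (by omega)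
  have h3 := NoB.W_rank G hG hJ (n * (1 + c) + c + S + j + 1)
  generalize finrank K (NoB.Y G (S + j) (n * (1 + c) + c + S + j + 1 + 1)) = y at h1 h2
  generalize finrank K (NoB.W G (n * (1 + c) + c + S + j + 1 + 1)) = w at h1 h2 h3
  have h4 : n * (1 + w) ≤ n * (1 + (y + c)) := Nat.mul_le_mul_left n (by omega)
  nlinarith

end Pool.Agent.MP_3312ae_al.HR.Z30
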