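import Pool.Agent.MP_3312ae_al.HR.Z30.Spec

/-! Reduction to the just infinite case. -/

set_option autoImplicit false

namespace Pool.Agent.MP_3312ae_al.HR.Z30

open Finset LieAlgebra Submodule

namespace Red

variable {K L L' : Type} [Field K] [LieRing L] [LieAlgebra K L] [LieRing L'] [LieAlgebra K L']

/-- operators related by a map -/
def Rel (f : L →ₗ⁅K⁆ L') (T : Module.End K L) (T' : Module.End K L') : Prop :=
  ∀ y, T' (f y) = f (T y)

theorem rel_one (f : L →ₗ⁅K⁆ L') : Rel f 1 1 := fun _ => rfl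

theorem rel_zero (f : L →ₗ⁅K⁆ L') : Rel f 0 0 := fun y => by simp

theorem rel_mul {f : L →ₗ⁅K⁆ L'} {T U : Module.End K L} {T' U' : Module.End K L'}
    (h : Rel f T T') (h' : Rel f U U') : Rel f (T * U) (T' * U') := fun y => by
  rw [Module.End.mul_apply, Module.End.mul_apply, h' y, h]

theorem rel_ad (f : L →ₗ⁅K⁆ L') (x : L) : Rel f (ad K L x) (ad K L' (f x)) := fun y => by
  simp [LieHom.map_lie]

theorem rel_pow {f : L →ₗ⁅K⁆ L'} {T : Module.End K L} {T' : Module.End K L'} (h : Rel f T T')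
    (n : ℕ) : Rel f (T ^ n) (T' ^ n) := by
  induction n with
  | zero => simpa using rel_one f
  | succ n ih => rw [pow_succ, pow_succ]; exact rel_mul ih h

theorem rel_sum {f : L →ₗ⁅K⁆ L'} {ι : Type} (s : Finset ι) {T : ι → Module.End K L}
    {T' : ι → Module.End K L'} (h : ∀ i, Rel f (T i) (T' i)) :
    Rel f (∑ i ∈ s, T i) (∑ i ∈ s, T' i) := fun y => by
  rw [LinearMap.sum_apply, LinearMap.sum_apply, map_sum]
  exact Finset.sum_congr rfl fun i _ => h i y

theorem rel_list {f : L →ₗ⁅K⁆ L'} {ι : Type} (l : List ι) {T : ι → Module.End K L}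
    {T' : ι → Module.End K L'} (h : ∀ i, Rel f (T i) (T' i)) :
    Rel f (l.map T).prod (l.map T').prod := by
  induction l with
  | nil => simpa using rel_one f
  | cons a l ih => simpa using rel_mul (h a) ih

theorem rel_ordP {f : L →ₗ⁅K⁆ L'} {s : ℕ} {T : Fin s → Module.End K L}
    {T' : Fin s → Module.End K L'} (h : ∀ i, Rel f (T i) (T' i)) (A : Finset (Fin s)) :
    Rel f (ordP T A) (ordP T' A) := by
  unfold ordP
  rw [List.ofFn_eq_map, List.ofFn_eq_map]
  refine rel_list _ fun i => ?_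
  by_cases hi : i ∈ A
  · simpa [hi] using h i
  · simpa [hi] using rel_one f

theorem rel_Tq {f : L →ₗ⁅K⁆ L'} {s : ℕ} {T : Fin s → Module.End K L}
    {T' : Fin s → Module.End K L'} (h : ∀ i, Rel f (T i) (T' i)) (q : ℕ) (S : Finset (Fin s)) :
    Rel f (Tq T q S) (Tq T' q S) := by
  induction q generalizing S with
  | zero =>
    by_cases hS : S = ∅
    · simpa [Tq, hS] using rel_one f
    · simpa [Tq, hS] using rel_zero f
  | succ q ih => exact rel_sum _ fun A => rel_mul (rel_ordP h A) (ih _)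

theorem rel_eq_zero {f : L →ₗ⁅K⁆ L'} (hf : Function.Surjective f) {T' : Module.End K L'}
    (h : Rel f 0 T') : T' = 0 := by
  ext y
  obtain ⟨x, rfl⟩ := hf y
  simpa using h x

theorem comm_lift (f : L →ₗ⁅K⁆ L') {ι : Type} (a : ι → L) {x' : L'}
    (h : IsComm (fun i => f (a i)) x') : ∃ x, IsComm a x ∧ f x = x' := by
  induction h with
  | gen i => exact ⟨a i, IsComm.gen i, rfl⟩
  | br _ _ ih ih' =>
    obtain ⟨x, hx, rfl⟩ := ih
    obtain ⟨y, hy, rfl⟩ := ih'
    exact ⟨⁅x, y⁆, IsComm.br hx hy, LieHom.map_lie f x y⟩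

/-- the image of a graded algebra under a map with graded kernel -/
theorem exists_quot (G : GrL K L) (f : L →ₗ⁅K⁆ L') (hf : Function.Surjective f)
    (hk : ∀ i x, f x = 0 → f (G.π i x) = 0) :
    ∃ G' : GrL K L', (∀ d y, y ∈ G'.A d ↔ ∃ x ∈ G.A d, f x = y) ∧
      ∀ i x, G'.π i (f x) = f (G.π i x) := by
  obtain ⟨g, hg⟩ := LinearMap.exists_rightInverse_of_surjective (f : L →ₗ[K] L')
    (LinearMap.range_eq_top.2 hf)
  have hg' : ∀ y, f (g y) = y := fun y => LinearMap.congr_fun hg y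
  have hπ : ∀ i x, f (G.π i (g (f x))) = f (G.π i x) := by
    intro i x
    have := hk i (g (f x) - x) (by rw [map_sub, hg', sub_self])
    rwa [map_sub, map_sub, sub_eq_zero] at this
  refine ⟨{ A := fun d => (G.A d).map (f : L →ₗ[K] L')
            π := fun i => (f : L →ₗ[K] L') ∘ₗ G.π i ∘ₗ g
            π_mem := fun i x => ⟨_, G.π_mem i (g x), rfl⟩
            π_of := ?_
            fin := ?_
            lie_mem := ?_
            r := G.r
            a := fun i => f (G.a i)
            a_mem := fun i => ⟨_, G.a_mem i, rfl⟩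
            gen := ?_
            nil := ?_ }, fun d y => Iff.rfl, hπ⟩
  · rintro i j _ ⟨x, hx, rfl⟩
    show f (G.π i (g (f x))) = if i = j then f x else 0
    rw [hπ, G.π_of i j x hx]
    split_ifs <;> simp
  · intro y
    obtain ⟨N, hN⟩ := G.fin (g y)
    refine ⟨N, fun M hM => ?_⟩
    have := congrArg f (hN M hM)
    rwa [map_sum, hg'] at this
  · rintro i j _ _ ⟨x, hx, rfl⟩ ⟨y, hy, rfl⟩
    exact ⟨⁅x, y⁆, G.lie_mem i j x y hx hy, LieHom.map_lie f x y⟩
  · rw [eq_top_iff]
    intro y _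
    obtain ⟨x, rfl⟩ := hf y
    have hle : LieSubalgebra.lieSpan K L (Set.range G.a) ≤
        (LieSubalgebra.lieSpan K L' (Set.range fun i => f (G.a i))).comap f := by
      rw [LieSubalgebra.lieSpan_le]
      rintro _ ⟨i, rfl⟩
      exact LieSubalgebra.subset_lieSpan ⟨i, rfl⟩
    rw [G.gen] at hle
    exact hle (LieSubalgebra.mem_top x)
  · intro x' hx'
    obtain ⟨x, hx, rfl⟩ := comm_lift f G.a hx'
    obtain ⟨n, hn⟩ := G.nil x hx
    refine ⟨n, rel_eq_zero hf ?_⟩
    have := rel_pow (rel_ad f x) n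
    rwa [hn] at this

theorem hig_quot {G : GrL K L} {G' : GrL K L'} {f : L →ₗ⁅K⁆ L'} (hf : Function.Surjective f)
    (hA : ∀ d y, y ∈ G'.A d ↔ ∃ x ∈ G.A d, f x = y) {q j : ℕ} (h : G.Hig q j) : G'.Hig q j := by
  intro s x' S hx' hS
  have h1 : ∀ i, ∃ x, G.Hom j x ∧ f x = x' i := by
    intro i
    obtain ⟨d, hd, hm⟩ := hx' i
    obtain ⟨x, hx, e⟩ := (hA d _).1 hm
    exact ⟨x, ⟨d, hd, hx⟩, e⟩
  choose x hx e using h1
  refine rel_eq_zero hf ?_
  rw [← h s x S hx hS]
  exact rel_Tq (fun i => e i ▸ rel_ad f (x i)) q S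

/-- an ideal that contains one component contains all later ones -/
theorem le_of_le {G : GrL K L} (hG : G.GB) (I : LieIdeal K L) {d : ℕ} (hd : 1 ≤ d)
    (h : ∀ x ∈ G.A d, x ∈ I) {d' : ℕ} (hd' : d ≤ d') : ∀ x ∈ G.A d', x ∈ I := by
  induction hd' with
  | refl => exact h
  | @step m hm ih =>
    intro x hx
    have h2 : span K {z | ∃ i y, y ∈ G.A m ∧ z = ⁅G.a i, y⁆} ≤ I.toSubmodule := by
      rw [span_le]
      rintro _ ⟨i, y, hy, rfl⟩
      exact I.lie_mem (ih y hy)
    exact h2 (hG.succ m (hd.trans hm) hx)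

theorem ge_le {G : GrL K L} (hG : G.GB) (I : LieIdeal K L) {d : ℕ} (hd : 1 ≤ d)
    (h : ∀ x ∈ G.A d, x ∈ I) : G.ge d ≤ I := by
  intro x hx
  have h2 : span K {y | G.Hom d y} ≤ I.toSubmodule := by
    rw [span_le]
    rintro y ⟨d', hd', hy⟩
    exact le_of_le hG I hd h hd' y hy
  exact h2 ((hG.ge_iff d x).1 hx)

/-- the graded ideals that contain no component -/
def PS (G : GrL K L) : Set (LieIdeal K L) :=
  {I | (∀ i x, x ∈ I → G.π i x ∈ I) ∧ ∀ d, 1 ≤ d → ¬ ∀ x ∈ G.A d, x ∈ I}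

theorem chain_fin {c : Set (LieIdeal K L)} (hc : IsChain (· ≤ ·) c) {I₀ : LieIdeal K L}
    (h0 : I₀ ∈ c) (s : Finset L) (h : ∀ x ∈ s, ∃ I ∈ c, x ∈ I) : ∃ I ∈ c, ∀ x ∈ s, x ∈ I := by
  classical
  induction s using Finset.induction_on with
  | empty => exact ⟨I₀, h0, by simp⟩
  | insert a s _ ih =>
    obtain ⟨I, hI, hs⟩ := ih fun x hx => h x (mem_insert_of_mem hx)
    obtain ⟨J, hJ, ha⟩ := h a (mem_insert_self _ _)
    rcases hc.total hI hJ with hle | hle
    · refine ⟨J, hJ, fun x hx => ?_⟩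
      rcases mem_insert.1 hx with rfl | hx
      · exact ha
      · exact hle (hs x hx)
    · refine ⟨I, hI, fun x hx => ?_⟩
      rcases mem_insert.1 hx with rfl | hx
      · exact hle ha
      · exact hs x hx

theorem exists_max {G : GrL K L} (hG : G.GB) (h : ∀ d, 1 ≤ d → G.A d ≠ ⊥) :
    ∃ I, Maximal (· ∈ PS G) I := by
  have hb : (⊥ : LieIdeal K L) ∈ PS G := by
    refine ⟨fun i x hx => ?_, fun d hd hx => h d hd ?_⟩
    · rw [LieSubmodule.mem_bot] at hx ⊢
      rw [hx, map_zero]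
    · rw [eq_bot_iff]
      intro x hx'
      exact (LieSubmodule.mem_bot x).1 (hx x hx')
  obtain ⟨I, -, hI⟩ := zorn_le_nonempty₀ (PS G) (fun c hc hch I₀ h0 => by
    let U : LieIdeal K L :=
      { carrier := {x | ∃ I ∈ c, x ∈ I}
        add_mem' := by
          rintro x y ⟨I, hI, hx⟩ ⟨J, hJ, hy⟩
          rcases hch.total hI hJ with hle | hle
          · exact ⟨J, hJ, J.add_mem (hle hx) hy⟩
          · exact ⟨I, hI, I.add_mem hx (hle hy)⟩
        zero_mem' := ⟨I₀, h0, I₀.zero_mem⟩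
        smul_mem' := by
          rintro t x ⟨I, hI, hx⟩
          exact ⟨I, hI, I.smul_mem t hx⟩
        lie_mem := by
          rintro x y ⟨I, hI, hy⟩
          exact ⟨I, hI, I.lie_mem hy⟩ }
    refine ⟨U, ⟨?_, fun d hd hx => ?_⟩, fun I hI x hx => ⟨I, hI, hx⟩⟩
    · rintro i x ⟨I, hI, hx⟩
      exact ⟨I, hI, (hc hI).1 i x hx⟩
    · have := hG.fd d
      obtain ⟨s, hs⟩ : (G.A d).FG := Module.Finite.iff_fg.1 this
      obtain ⟨I, hI, hsI⟩ := chain_fin hch h0 s fun x hx' => hx x (hs ▸ subset_span hx')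
      refine (hc hI).2 d hd fun x hx' => ?_
      have h2 : span K (s : Set L) ≤ I.toSubmodule := span_le.2 fun y hy => hsI y hy
      exact h2 (hs ▸ hx')) ⊥ hb
  exact ⟨I, hI⟩

/-- the quotient map -/
def qm (I : LieIdeal K L) : L →ₗ⁅K⁆ L ⧸ I :=
  { toLinearMap := I.toSubmodule.mkQ
    map_lie' := fun {_ _} => rfl }

theorem qm_surj (I : LieIdeal K L) : Function.Surjective (qm I) := I.toSubmodule.mkQ_surjective

theorem qm_zero (I : LieIdeal K L) (x : L) : qm I x = 0 ↔ x ∈ I :=
  Submodule.Quotient.mk_eq_zero I.toSubmodule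

theorem exists_ji (hgb : SGB) (G : GrL K L) (h : ∀ d, 1 ≤ d → G.A d ≠ ⊥) :
    ∃ (I : LieIdeal K L) (G' : GrL K (L ⧸ I)), G'.JI ∧ ∀ q j, G.Hig q j → G'.Hig q j := by
  obtain ⟨I, hI⟩ := exists_max (hgb K L G) h
  obtain ⟨G', hA, hπ⟩ := exists_quot G (qm I) (qm_surj I) fun i x hx =>
    (qm_zero I _).2 (hI.prop.1 i x ((qm_zero I x).1 hx))
  refine ⟨I, G', ⟨fun d hd hb => hI.prop.2 d hd fun x hx => ?_, fun J hJ hne => ?_⟩,
    fun q j => hig_quot (qm_surj I) hA⟩
  · have : qm I x ∈ G'.A d := (hA d _).2 ⟨x, hx, rfl⟩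
    rw [hb] at this
    exact (qm_zero I x).1 ((Submodule.mem_bot K).1 this)
  · have hle : I ≤ J.comap (qm I) := fun x hx => by
      rw [LieIdeal.mem_comap, (qm_zero I x).2 hx]
      exact J.zero_mem
    have hn : J.comap (qm I) ∉ PS G := by
      intro hm
      apply hne
      rw [eq_bot_iff]
      intro y hy
      obtain ⟨x, rfl⟩ := qm_surj I y
      rw [LieSubmodule.mem_bot]
      exact (qm_zero I x).2 (hI.le_of_ge hm hle (LieIdeal.mem_comap.2 hy))
    have h2 : ∃ d, 1 ≤ d ∧ ∀ x ∈ G.A d, x ∈ J.comap (qm I) := by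
      by_contra hc
      refine hn ⟨fun i x hx => ?_, fun d hd hx => hc ⟨d, hd, hx⟩⟩
      rw [LieIdeal.mem_comap] at hx ⊢
      rw [← hπ]
      exact hJ i _ hx
    obtain ⟨d, hd, hx⟩ := h2
    refine ⟨d, ge_le (hgb K _ G') J hd fun y hy => ?_⟩
    obtain ⟨x, hx', rfl⟩ := (hA d y).1 hy
    exact LieIdeal.mem_comap.1 (hx x hx')

theorem exists_grl (A : ℕ → Submodule K L) (r : ℕ) (a : Fin r → L) (hi : iSupIndep A)
    (hl : ∀ i j x y, x ∈ A i → y ∈ A j → ⁅x, y⁆ ∈ A (i + j)) (ha : ∀ i, a i ∈ A 1)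
    (hg : LieSubalgebra.lieSpan K L (Set.range a) = ⊤)
    (hn : ∀ x, IsComm a x → IsNilpotent (ad K L x)) : ∃ G : GrL K L, G.A = A := by
  classical
  have htop : iSup A = ⊤ := by
    let B : LieSubalgebra K L :=
      { toSubmodule := iSup A
        lie_mem' := by
          intro x y hx hy
          change ⁅x, y⁆ ∈ iSup A
          change x ∈ iSup A at hx
          change y ∈ iSup A at hy
          induction hx using Submodule.iSup_induction' with
          | mem i x hx =>
            induction hy using Submodule.iSup_induction' with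
            | mem j y hy => exact Submodule.mem_iSup_of_mem (i + j) (hl i j x y hx hy)
            | zero => rw [lie_zero]; exact zero_mem _
            | add y z _ _ h1 h2 => rw [lie_add]; exact add_mem h1 h2
          | zero => rw [zero_lie]; exact zero_mem _
          | add x z _ _ h1 h2 => rw [add_lie]; exact add_mem h1 h2 }
    have hle : LieSubalgebra.lieSpan K L (Set.range a) ≤ B := by
      rw [LieSubalgebra.lieSpan_le]
      rintro _ ⟨i, rfl⟩
      exact Submodule.mem_iSup_of_mem 1 (ha i)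
    rw [hg] at hle
    rw [eq_top_iff]
    intro x _
    exact hle (LieSubalgebra.mem_top x)
  let _ := (DirectSum.isInternal_submodule_of_iSupIndep_of_iSup_eq_top hi htop).chooseDecomposition
  let π : ℕ → L →ₗ[K] L := fun i => (A i).subtype ∘ₗ DirectSum.component K ℕ (fun i => A i) i ∘ₗ
    (DirectSum.decomposeLinearEquiv A).toLinearMap
  have hπ : ∀ i x, π i x = (DirectSum.decompose A x i : L) := fun _ _ => rfl
  refine ⟨{ A := A
            π := π
            π_mem := fun i x => (DirectSum.decompose A x i).2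
            π_of := ?_
            fin := ?_
            lie_mem := hl
            r := r
            a := a
            a_mem := ha
            gen := hg
            nil := hn }, rfl⟩
  · intro i j x hx
    rw [hπ]
    split_ifs with hij
    · subst hij
      exact DirectSum.decompose_of_mem_same A hx
    · exact DirectSum.decompose_of_mem_ne A hx (Ne.symm hij)
  · intro x
    refine ⟨(DirectSum.decompose A x).support.sup id + 1, fun M hM => ?_⟩
    conv_rhs => rw [← DirectSum.sum_support_decompose A x]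
    symm
    refine Finset.sum_subset (fun i hi' => ?_) fun i _ hi' => ?_
    · have : i ≤ (DirectSum.decompose A x).support.sup id := Finset.le_sup (f := id) hi'
      exact mem_range.2 (by omega)
    · rw [DFinsupp.notMem_support_iff.1 hi']
      rfl

end Red

theorem sRed : SRed := by
  intro hgb hcore p _ K _ _ _ L _ _ A r e j0 a hi hl ha hg hn hH
  obtain ⟨G, rfl⟩ := Red.exists_grl A r a hi hl ha hg hn
  by_cases h : ∀ d, 1 ≤ d → G.A d ≠ ⊥
  · obtain ⟨I, G', hJ, hq⟩ := Red.exists_ji hgb G h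
    exact (hcore p K _ G' e j0 hJ (hq _ _ hH)).elim
  · push Not at h
    obtain ⟨d, hd, hb⟩ := h
    refine ⟨d, fun d' hd' => ?_⟩
    rw [eq_bot_iff]
    intro x hx
    have := Red.le_of_le (hgb K L G) ⊥ hd (fun y hy => by
      rw [hb] at hy
      exact (LieSubmodule.mem_bot y).2 ((Submodule.mem_bot K).1 hy)) hd' x hx
    exact (Submodule.mem_bot K).2 ((LieSubmodule.mem_bot x).1 this)

end Pool.Agent.MP_3312ae_al.HR.Z30
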