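import Pool.Agent.MP_3312ae_al.HR.Z30.Spec

/-! Row `Reg`: a regular class without `u`-indices. -/

set_option autoImplicit false
set_option linter.unusedSectionVars false

namespace Pool.Agent.MP_3312ae_al.HR.Z30

open Finset LieAlgebra

namespace Reg

section
variable {ι K L : Type} [DecidableEq ι] [Field K] [LieRing L] [LieAlgebra K L]

theorem sg_apply (A S : Finset ι) (x : L) : sg A x S = if S = A then x else 0 := rfl

theorem sg_zero (A : Finset ι) : sg A (0 : L) = 0 := SF.ext fun S => by simp [sg_apply]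

theorem sg_add (A : Finset ι) (x y : L) : sg A (x + y) = sg A x + sg A y :=
  SF.ext fun S => by
    simp only [sg_apply, SF.add_apply]
    split_ifs <;> simp

theorem sum_apply' {α : Type} (s : Finset α) (f : α → SF ι L) (S : Finset ι) :
    (∑ a ∈ s, f a) S = ∑ a ∈ s, f a S := by
  classical
  induction s using Finset.induction_on with
  | empty => simp
  | insert a s ha ih => rw [sum_insert ha, sum_insert ha, SF.add_apply, ih]

theorem sg_sum {α : Type} (A : Finset ι) (s : Finset α) (f : α → L) :
    sg A (∑ a ∈ s, f a) = ∑ a ∈ s, sg A (f a) := by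
  classical
  induction s using Finset.induction_on with
  | empty => simp [sg_zero]
  | insert a s ha ih => rw [sum_insert ha, sum_insert ha, sg_add, ih]

theorem eq_sum_sg [Fintype ι] (ξ : SF ι L) : ξ = ∑ A : Finset ι, sg A (ξ A) :=
  SF.ext fun S => by
    rw [sum_apply']
    simp [sg_apply]

theorem sg_lie (A B : Finset ι) (x y : L) :
    ⁅sg A x, sg B y⁆ = if Disjoint A B then sg (A ∪ B) ⁅x, y⁆ else 0 :=
  SF.ext fun S => by
    have key : ∀ S : Finset ι, A ⊆ S → (S \ A = B ↔ Disjoint A B ∧ S = A ∪ B) := by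
      intro S hS
      constructor
      · rintro rfl
        exact ⟨disjoint_sdiff, (union_sdiff_of_subset hS).symm⟩
      · rintro ⟨hd, rfl⟩
        exact union_sdiff_cancel_left hd
    rw [SF.lie_apply]
    by_cases hA : A ⊆ S
    · rw [Finset.sum_eq_single A]
      · simp only [sg_apply, if_true, key S hA]
        by_cases hd : Disjoint A B
        · by_cases hS : S = A ∪ B
          · simp [hd, hS, sg_apply]
          · simp [hd, hS, sg_apply]
        · simp [hd]
      · intro C _ hC
        simp [sg_apply, hC]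
      · intro h
        exact absurd (mem_powerset.2 hA) h
    · rw [Finset.sum_eq_zero]
      · have hS : S ≠ A ∪ B := fun h => hA (h ▸ subset_union_left)
        by_cases hd : Disjoint A B
        · simp [hd, hS, sg_apply]
        · simp [hd]
      · intro C hC
        have : C ≠ A := fun h => hA (h ▸ mem_powerset.1 hC)
        simp [sg_apply, this]

/-- pure homogeneous elements -/
def Pure (G : GrL K L) (ι : Type) [DecidableEq ι] (j : ℕ) : Set (SF ι L) :=
  {ξ | ∃ A x, A.Nonempty ∧ G.Hom j x ∧ ξ = sg A x}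

theorem mem_closure [Fintype ι] (G : GrL K L) (j : ℕ) (ξ : SF ι L) (h : ξ ∈ MM G ι j) :
    ξ ∈ AddSubmonoid.closure (Pure G ι j) := by
  rw [eq_sum_sg ξ]
  refine sum_mem fun A _ => ?_
  by_cases hA : A = ∅
  · have : ξ ∅ = 0 := h.1
    rw [hA, this, sg_zero]
    exact zero_mem _
  · obtain ⟨N, hN⟩ := G.fin (ξ A)
    rw [← hN N le_rfl, sg_sum]
    refine sum_mem fun d _ => ?_
    by_cases hd : d < j
    · have : G.π d (ξ A) = 0 := h.2 A d hd
      rw [this, sg_zero]
      exact zero_mem _
    · exact AddSubmonoid.subset_closure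
        ⟨A, _, nonempty_iff_ne_empty.2 hA, ⟨d, by omega, G.π_mem d _⟩, rfl⟩

/-- multilinear reduction -/
theorem multi {M : Type} [AddCommGroup M] [Module K M] (P : Set M) (f : M → Module.End K M)
    (f0 : f 0 = 0) (fadd : ∀ a b, f (a + b) = f a + f b) (zs : List M) :
    ∀ pre : Module.End K M,
      (∀ zs' : List M, (∀ z ∈ zs', z ∈ P) → zs'.length = zs.length → ∀ w ∈ P,
        (pre * (zs'.map f).prod) w = 0) →
      (∀ z ∈ zs, z ∈ AddSubmonoid.closure P) → ∀ w ∈ AddSubmonoid.closure P,
        (pre * (zs.map f).prod) w = 0 := by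
  induction zs with
  | nil =>
    intro pre h _ w hw
    induction hw using AddSubmonoid.closure_induction with
    | mem x hx => exact h [] (by simp) rfl x hx
    | zero => exact map_zero _
    | add x y _ _ hx hy => rw [map_add, hx, hy, add_zero]
  | cons z zs ih =>
    intro pre h hz w hw
    have hz1 : z ∈ AddSubmonoid.closure P := hz z (by simp)
    have hz2 : ∀ z' ∈ zs, z' ∈ AddSubmonoid.closure P := fun z' h' => hz z' (by simp [h'])
    rw [List.map_cons, List.prod_cons, ← mul_assoc]
    clear hz
    revert h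
    induction hz1 using AddSubmonoid.closure_induction with
    | mem x hx =>
      intro h
      refine ih (pre * f x) (fun zs' h1 h2 w' hw' => ?_) hz2 w hw
      have := h (x :: zs') (by
        intro z' hz'
        rcases List.mem_cons.1 hz' with rfl | h'
        · exact hx
        · exact h1 _ h') (by simp [h2]) w' hw'
      rwa [List.map_cons, List.prod_cons, ← mul_assoc] at this
    | zero => intro _; simp [f0]
    | add x y _ _ hx hy =>
      intro h
      rw [fadd, mul_add, add_mul, LinearMap.add_apply, hx h, hy h, add_zero]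

/-! ### specialisation -/

variable {κ : Type} [DecidableEq κ] [Fintype κ]

/-- the sets attached to the indices in `T` are pairwise disjoint -/
def Good (A : κ → Finset ι) (T : Finset κ) : Prop :=
  ∀ a ∈ T, ∀ b ∈ T, a ≠ b → Disjoint (A a) (A b)

open Classical in
/-- image of a pure element -/
noncomputable def piece (A : κ → Finset ι) (T : Finset κ) (x : L) : SF ι L :=
  if Good A T then sg (T.biUnion A) x else 0

theorem piece_zero (A : κ → Finset ι) (T : Finset κ) : piece A T (0 : L) = 0 := by
  unfold piece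
  split_ifs
  · exact sg_zero _
  · rfl

theorem piece_add (A : κ → Finset ι) (T : Finset κ) (x y : L) :
    piece A T (x + y) = piece A T x + piece A T y := by
  unfold piece
  split_ifs
  · exact sg_add _ _ _
  · simp

/-- the specialisation map -/
noncomputable def Phi (A : κ → Finset ι) : SF κ L →+ SF ι L where
  toFun ξ := ∑ T : Finset κ, piece A T (ξ T)
  map_zero' := sum_eq_zero fun T _ => piece_zero A T
  map_add' ξ η := by
    rw [← sum_add_distrib]
    exact sum_congr rfl fun T _ => piece_add A T _ _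

theorem Phi_sg (A : κ → Finset ι) (T : Finset κ) (x : L) : Phi A (sg T x) = piece A T x := by
  show ∑ T' : Finset κ, piece A T' (sg T x T') = _
  rw [Finset.sum_eq_single T]
  · simp [sg_apply]
  · intro T' _ h
    simp [sg_apply, h, piece_zero]
  · simp

theorem good_union (A : κ → Finset ι) (hA : ∀ k, (A k).Nonempty) (T T' : Finset κ) :
    (Disjoint T T' ∧ Good A (T ∪ T')) ↔
      (Good A T ∧ Good A T' ∧ Disjoint (T.biUnion A) (T'.biUnion A)) := by
  constructor
  · rintro ⟨hd, hg⟩
    refine ⟨fun a ha b hb => hg a (mem_union_left _ ha) b (mem_union_left _ hb),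
      fun a ha b hb => hg a (mem_union_right _ ha) b (mem_union_right _ hb), ?_⟩
    rw [disjoint_biUnion_left]
    intro a ha
    rw [disjoint_biUnion_right]
    intro b hb
    refine hg a (mem_union_left _ ha) b (mem_union_right _ hb) ?_
    rintro rfl
    exact disjoint_left.1 hd ha hb
  · rintro ⟨h1, h2, h3⟩
    have h4 : ∀ a ∈ T, ∀ b ∈ T', Disjoint (A a) (A b) := fun a ha b hb =>
      h3.mono (subset_biUnion_of_mem A ha) (subset_biUnion_of_mem A hb)
    refine ⟨disjoint_left.2 fun a ha hb => ?_, fun a ha b hb hab => ?_⟩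
    · obtain ⟨i, hi⟩ := hA a
      exact disjoint_left.1 (h4 a ha a hb) hi hi
    · rcases mem_union.1 ha with ha | ha <;> rcases mem_union.1 hb with hb | hb
      · exact h1 a ha b hb hab
      · exact h4 a ha b hb
      · exact (h4 b hb a ha).symm
      · exact h2 a ha b hb hab

theorem Phi_lie_sg (A : κ → Finset ι) (hA : ∀ k, (A k).Nonempty) (T T' : Finset κ) (x y : L) :
    Phi A ⁅sg T x, sg T' y⁆ = ⁅Phi A (sg T x), Phi A (sg T' y)⁆ := by
  have key := good_union A hA T T'
  rw [sg_lie, Phi_sg, Phi_sg]
  by_cases h : Disjoint T T' ∧ Good A (T ∪ T')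
  · obtain ⟨h1, h2, h3⟩ := key.1 h
    rw [if_pos h.1, Phi_sg]
    unfold piece
    rw [if_pos h.2, if_pos h1, if_pos h2, sg_lie, if_pos h3, union_biUnion]
  · have hl : Phi A (if Disjoint T T' then sg (T ∪ T') ⁅x, y⁆ else 0) = 0 := by
      by_cases hd : Disjoint T T'
      · rw [if_pos hd, Phi_sg]
        unfold piece
        rw [if_neg fun hg => h ⟨hd, hg⟩]
      · rw [if_neg hd, map_zero]
    rw [hl]
    unfold piece
    by_cases h1 : Good A T
    · by_cases h2 : Good A T'
      · rw [if_pos h1, if_pos h2, sg_lie, if_neg fun h3 => h (key.2 ⟨h1, h2, h3⟩)]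
      · rw [if_neg h2, lie_zero]
    · rw [if_neg h1, zero_lie]

theorem Phi_lie (A : κ → Finset ι) (hA : ∀ k, (A k).Nonempty) (ξ η : SF κ L) :
    Phi A ⁅ξ, η⁆ = ⁅Phi A ξ, Phi A η⁆ := by
  rw [eq_sum_sg ξ, eq_sum_sg η]
  simp only [sum_lie, lie_sum, map_sum, Phi_lie_sg A hA]

theorem Phi_single (A : κ → Finset ι) (k : κ) (x : L) : Phi A (sg {k} x) = sg (A k) x := by
  rw [Phi_sg]
  unfold piece
  rw [if_pos, singleton_biUnion]
  intro a ha b hb hab
  rw [mem_singleton] at ha hb
  exact absurd (ha.trans hb.symm) hab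

theorem Phi_pow (A : κ → Finset ι) (hA : ∀ k, (A k).Nonempty) (y z : SF κ L) (n : ℕ) :
    Phi A ((ad K (SF κ L) y ^ n) z) = (ad K (SF ι L) (Phi A y) ^ n) (Phi A z) := by
  induction n with
  | zero => simp
  | succ n ih =>
    rw [pow_succ', pow_succ', Module.End.mul_apply, Module.End.mul_apply, ad_apply, ad_apply,
      Phi_lie A hA, ih]

theorem Phi_prod (A : κ → Finset ι) (hA : ∀ k, (A k).Nonempty) (vs : List (SF κ L))
    (w : SF κ L) :
    Phi A ((vs.map fun v => ad K (SF κ L) v).prod w) =
      ((vs.map (Phi A)).map fun v => ad K (SF ι L) v).prod (Phi A w) := by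
  induction vs with
  | nil => simp
  | cons v vs ih =>
    simp only [List.map_cons, List.prod_cons, Module.End.mul_apply, ad_apply]
    rw [Phi_lie A hA, ih]

/-! ### the size of the support -/

/-- coefficients vanish on sets with more than `d` elements -/
def Sz (d : ℕ) (ξ : SF κ L) : Prop := ∀ S : Finset κ, d < S.card → ξ S = 0

theorem Sz.lie {a b : ℕ} {ξ η : SF κ L} (h1 : Sz a ξ) (h2 : Sz b η) : Sz (a + b) ⁅ξ, η⁆ := by
  intro S hS
  rw [SF.lie_apply]
  refine sum_eq_zero fun A hA => ?_
  by_cases h : a < A.card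
  · rw [h1 A h, zero_lie]
  · have := card_sdiff_add_card_eq_card (mem_powerset.1 hA)
    rw [h2 (S \ A) (by omega), lie_zero]

theorem sz_single (k : κ) (x : L) : Sz 1 (sg {k} x) := by
  intro S hS
  rw [sg_apply, if_neg]
  rintro rfl
  simp at hS

theorem sz_sum (d : ℕ) (l : List (SF κ L)) (h : ∀ v ∈ l, Sz d v) : Sz d l.sum := by
  induction l with
  | nil => intro S _; rfl
  | cons v l ih =>
    intro S hS
    rw [List.sum_cons, SF.add_apply, h v (by simp) S hS,
      ih (fun v' h' => h v' (by simp [h'])) S hS, add_zero]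

theorem sz_pow {y z : SF κ L} (hy : Sz 1 y) (hz : Sz 1 z) (n : ℕ) :
    Sz (n + 1) ((ad K (SF κ L) y ^ n) z) := by
  induction n with
  | zero => simpa using hz
  | succ n ih =>
    rw [pow_succ', Module.End.mul_apply, ad_apply]
    have := hy.lie ih
    rwa [show 1 + (n + 1) = n + 1 + 1 by omega] at this

theorem sz_prod (d : ℕ) (vs : List (SF κ L)) (h : ∀ v ∈ vs, Sz d v) (w : SF κ L) (hw : Sz 1 w) :
    Sz (vs.length * d + 1) ((vs.map fun v => ad K (SF κ L) v).prod w) := by
  induction vs with
  | nil => simpa using hw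
  | cons v vs ih =>
    simp only [List.map_cons, List.prod_cons, Module.End.mul_apply, ad_apply, List.length_cons]
    have := (h v (by simp)).lie (ih fun v' h' => h v' (by simp [h']))
    rwa [show d + (vs.length * d + 1) = (vs.length + 1) * d + 1 by ring] at this

end

section
variable {K M : Type} [Field K] [LieRing M] [LieAlgebra K M]

theorem UU_gt (l : List M) : ∀ k, l.length < k → UU K l k = 0 := by
  induction l with
  | nil =>
    intro k hk
    cases k with
    | zero => simp at hk
    | succ k => rfl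
  | cons v l ih =>
    intro k hk
    cases k with
    | zero => simp at hk
    | succ k =>
      simp only [List.length_cons] at hk
      rw [UU, ih (k + 1) (by omega), ih k (by omega), mul_zero, add_zero]

theorem UU_top (l : List M) : UU K l l.length = (l.map fun v => ad K M v).prod := by
  induction l with
  | nil => rfl
  | cons v l ih =>
    rw [List.length_cons, UU, UU_gt l _ (by omega), ih, zero_add, List.map_cons, List.prod_cons]

end

section
variable {K L : Type} [Field K] [LieRing L] [LieAlgebra K L]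

theorem cls_mono (G : GrL K L) (m0 m n l : ℕ) {j j' : ℕ} (h : j ≤ j') :
    Cls G m0 m n l j' ⊆ Cls G m0 m n l j := by
  rintro v ⟨ι, i1, i2, δ, S, h1, h2⟩
  exact ⟨ι, i1, i2, δ, S, fun i => (h1 i).imp fun d hd => ⟨h.trans hd.1, hd.2⟩, h2⟩

theorem step (G : GrL K L) (m0 m j : ℕ) (h : ¬ NullB G m0 m j) :
    ∃ l, l < m * (m0 + 1) + 2 ∧ ∃ v ∈ Cls G m0 m 0 l j, v ≠ 0 := by
  by_contra hc
  apply h
  intro ι _ _ y w zs hy hw hzs hlen
  obtain ⟨ys, hys, rfl⟩ := AddSubmonoid.exists_list_of_mem_closure (mem_closure G j y hy)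
  have := multi (K := K) (Pure G ι j)
    (fun z => ad K (SF ι L) ((ad K (SF ι L) ys.sum ^ m0) z)) (by simp) (by simp) zs 1 ?_
    (fun z hz => mem_closure G j z (hzs z hz)) w (mem_closure G j w hw)
  · rwa [one_mul] at this
  intro zs' hz' hl' w' hw'
  rw [one_mul]
  let κ : Type := Option (Fin ys.length ⊕ Fin zs'.length)
  let p : κ → SF ι L := fun k => k.elim w' (Sum.elim ys.get zs'.get)
  have hp : ∀ k, p k ∈ Pure G ι j := by
    rintro (_ | k | k)
    · exact hw'
    · exact hys _ (List.get_mem _ _)
    · exact hz' _ (List.get_mem _ _)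
  choose A x hA hx hpx using hp
  let δ : Dat κ L :=
    { x := x
      ys := (List.finRange ys.length).map fun k => some (Sum.inl k)
      zs := (List.finRange zs'.length).map fun k => some (Sum.inr k)
      bs := [none]
      us := []
      disj := by simp }
  have he : ∀ k, Phi A (δ.e k) = p k := fun k => by
    rw [hpx k]
    exact Phi_single A k (x k)
  have hy1 : (δ.ys.map δ.e).map (Phi A) = ys := by
    simp only [δ, List.map_map]
    refine Eq.trans ?_ (List.map_get_finRange ys)
    exact List.map_congr_left fun k _ => he _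
  have hz1 : (δ.zs.map δ.e).map (Phi A) = zs' := by
    simp only [δ, List.map_map]
    refine Eq.trans ?_ (List.map_get_finRange zs')
    exact List.map_congr_left fun k _ => he _
  have hy2 : Phi A (δ.ys.map δ.e).sum = ys.sum := by
    rw [map_list_sum, hy1]
  set vs : List (SF κ L) :=
    (δ.zs.map δ.e).map (ad K (SF κ L) (δ.ys.map δ.e).sum ^ m0 : Module.End K (SF κ L)) with hvs
  have hvl : vs.length = m := by simp [hvs, δ, hl', hlen]
  have hval : δ.val K m0 m = (vs.map fun v => ad K (SF κ L) v).prod (δ.e none) := by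
    rw [← UU_top, hvl]
    simp [Dat.val, Dat.cs, comps, con, δ, hvs]
  have hsz : Sz (m * (m0 + 1) + 1) (δ.val K m0 m) := by
    rw [hval, ← hvl]
    refine sz_prod _ vs (fun v hv => ?_) _ (sz_single _ _)
    obtain ⟨z, hz, rfl⟩ := List.mem_map.1 hv
    obtain ⟨k, _, rfl⟩ := List.mem_map.1 hz
    refine sz_pow (sz_sum 1 _ fun v hv => ?_) (sz_single _ _) m0
    obtain ⟨k, _, rfl⟩ := List.mem_map.1 hv
    exact sz_single _ _
  have hzero : δ.val K m0 m = 0 := by
    refine SF.ext fun S => ?_
    by_cases hS : m * (m0 + 1) + 1 < S.card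
    · exact hsz S hS
    · by_contra hne
      exact hc ⟨S.card, by omega, _, ⟨κ, inferInstance, inferInstance, δ, S, hx, by simp [δ],
        rfl, rfl⟩, hne⟩
  have hfin := congrArg (Phi A) hval
  rw [hzero, map_zero, Phi_prod (K := K) A hA, he] at hfin
  have hmap : vs.map (Phi A) =
      zs'.map (ad K (SF ι L) ys.sum ^ m0 : Module.End K (SF ι L)) := by
    refine Eq.trans ?_ (congrArg (List.map _) hz1)
    rw [hvs, List.map_map (l := δ.zs.map δ.e), List.map_map (l := δ.zs.map δ.e)]
    refine List.map_congr_left fun z _ => ?_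
    simp only [Function.comp_apply]
    rw [Phi_pow A hA, hy2]
  rw [hmap, List.map_map] at hfin
  exact hfin.symm

end

end Reg

theorem sReg : SReg := by
  intro K L _ _ _ G _ m0 m h
  by_contra hc
  push Not at hc
  choose J hJ using hc
  obtain ⟨l, hl, v, hv, hne⟩ :=
    Reg.step G m0 m (∑ l ∈ range (m * (m0 + 1) + 2), J l) (h _)
  exact hne (hJ l v (Reg.cls_mono G m0 m 0 l
    (single_le_sum (f := J) (fun _ _ => Nat.zero_le _) (mem_range.2 hl)) hv))

end Pool.Agent.MP_3312ae_al.HR.Z30
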