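import Pool.Agent.MP_3312ae_al.HR.Z30.Spec

/-! Row `Rel`: the depth two relation. -/

set_option autoImplicit false
set_option linter.unusedSectionVars false

namespace Pool.Agent.MP_3312ae_al.HR.Z30

open Finset LieAlgebra Submodule

namespace Rel

/-! ### The quadratic coefficient in a representation -/

section Q
variable {ι K L R : Type} [DecidableEq ι] [Field K] [LieRing L] [LieAlgebra K L] [Ring R]
  [Algebra K R]

/-- convolution coefficient -/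
def BB (ψ : L →ₗ[K] R) (T : Finset ι) (u v : SF ι L) : R :=
  ∑ A ∈ T.powerset, ψ (u A) * ψ (v (T \ A))

/-- the half of the convolution coefficient with `i0` on the left -/
def B0 (ψ : L →ₗ[K] R) (T : Finset ι) (i0 : ι) (u v : SF ι L) : R :=
  ∑ A ∈ T.powerset, if i0 ∈ A then ψ (u A) * ψ (v (T \ A)) else 0

/-- the coefficient of `UU cs 2` -/
def QQ (ψ : L →ₗ[K] R) (T : Finset ι) : List (SF ι L) → R
  | [] => 0
  | v :: l => QQ ψ T l + BB ψ T v l.sum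

theorem B0_add_left (ψ : L →ₗ[K] R) (T : Finset ι) (i0 : ι) (u u' v : SF ι L) :
    B0 ψ T i0 (u + u') v = B0 ψ T i0 u v + B0 ψ T i0 u' v := by
  simp only [B0, ← sum_add_distrib]
  refine sum_congr rfl fun A _ => ?_
  split_ifs
  · rw [SF.add_apply, map_add, add_mul]
  · rw [add_zero]

theorem B0_add_right (ψ : L →ₗ[K] R) (T : Finset ι) (i0 : ι) (u v v' : SF ι L) :
    B0 ψ T i0 u (v + v') = B0 ψ T i0 u v + B0 ψ T i0 u v' := by
  simp only [B0, ← sum_add_distrib]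
  refine sum_congr rfl fun A _ => ?_
  split_ifs
  · rw [SF.add_apply, map_add, mul_add]
  · rw [add_zero]

theorem B0_self (ψ : L →ₗ[K] R) (T : Finset ι) (i0 : ι) {i : ι} {v : SF ι L}
    (hv : v ∈ II K L i) : B0 ψ T i0 v v = 0 := by
  refine sum_eq_zero fun A _ => ?_
  split_ifs
  · by_cases hi : i ∈ A
    · rw [hv (T \ A) (fun h => (mem_sdiff.1 h).2 hi), map_zero, mul_zero]
    · rw [hv A hi, map_zero, zero_mul]
  · rfl

theorem B0_sym {ψ : L →ₗ[K] R} (hψ : IsRep ψ) {T : Finset ι} {i0 : ι} (hi : i0 ∈ T)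
    (u v : SF ι L) : BB ψ T u v - (B0 ψ T i0 u v + B0 ψ T i0 v u) ∈ LinearMap.range ψ := by
  have h := sum_pow_flip T (fun A B => if i0 ∈ A then ψ (v A) * ψ (u B) else 0)
  have h' : B0 ψ T i0 v u =
      ∑ A ∈ T.powerset, if i0 ∈ T \ A then ψ (v (T \ A)) * ψ (u A) else 0 := h
  rw [h', BB, B0, ← sum_add_distrib, ← sum_sub_distrib]
  refine sum_mem fun A _ => ?_
  by_cases hA : i0 ∈ A
  · rw [if_pos hA, if_neg (fun h => (mem_sdiff.1 h).2 hA), add_zero, sub_self]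
    exact zero_mem _
  · rw [if_neg hA, if_pos (mem_sdiff.2 ⟨hi, hA⟩), zero_add, ← hψ]
    exact ⟨_, rfl⟩

theorem QQ_sub {ψ : L →ₗ[K] R} (hψ : IsRep ψ) {T : Finset ι} {i0 : ι} (hi : i0 ∈ T) :
    ∀ cs : List (SF ι L), (∀ c ∈ cs, ∃ i : ι, c ∈ II K L i) →
      QQ ψ T cs - B0 ψ T i0 cs.sum cs.sum ∈ LinearMap.range ψ
  | [], _ => by
    have : B0 ψ T i0 (0 : SF ι L) 0 = 0 := B0_self ψ T i0 (i := i0) (zero_mem _)
    simp [QQ, this]
  | v :: l, h => by
    obtain ⟨i, hv⟩ := h v List.mem_cons_self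
    have h1 := QQ_sub hψ hi l fun c hc => h c (List.mem_cons_of_mem _ hc)
    have h2 := B0_sym hψ hi v l.sum
    rw [QQ, List.sum_cons, B0_add_left, B0_add_right, B0_add_right, B0_self ψ T i0 hv]
    have := add_mem h1 h2
    convert this using 1
    abel

end Q

/-! ### Generalities on the construction -/

section Con
variable {K M M' : Type} [Field K] [LieRing M] [LieAlgebra K M] [LieRing M'] [LieAlgebra K M']

theorem UU_zero : ∀ l : List M, UU K l 0 = 1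
  | [] => rfl
  | _ :: l => by rw [UU, UU_zero l]

theorem UU_one : ∀ l : List M, UU K l 1 = ad K M l.sum
  | [] => by simp [UU]
  | v :: l => by
    rw [UU, UU_one l, UU_zero l, List.sum_cons, map_add, mul_one, add_comm]

theorem UU_mem (I : LieIdeal K M) : ∀ (l : List M) (k : ℕ) (x : M), x ∈ I → UU K l k x ∈ I
  | [], 0, _, h => h
  | [], _ + 1, _, _ => zero_mem _
  | _ :: l, 0, x, h => by rw [UU]; exact UU_mem I l 0 x h
  | v :: l, k + 1, x, h => by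
    rw [UU, LinearMap.add_apply, Module.End.mul_apply, ad_apply]
    exact add_mem (UU_mem I l _ x h) (I.lie_mem (UU_mem I l k x h))

theorem UU_map (φ : M →ₗ⁅K⁆ M') :
    ∀ (l : List M) (k : ℕ) (x : M), φ (UU K l k x) = UU K (l.map φ) k (φ x)
  | [], 0, _ => rfl
  | [], _ + 1, _ => by simp [UU]
  | _ :: l, 0, x => by rw [List.map_cons, UU, UU, UU_map φ l 0 x]
  | v :: l, k + 1, x => by
    rw [List.map_cons, UU, UU, LinearMap.add_apply, LinearMap.add_apply, Module.End.mul_apply,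
      Module.End.mul_apply, ad_apply, ad_apply, map_add, LieHom.map_lie, UU_map φ l _ x,
      UU_map φ l k x]

theorem con_nil (bs : List M) : con K bs [] = bs := rfl

theorem con_cons (bs : List M) (u : M) (us : List M) :
    con K bs (u :: us) = con K (UU K bs 2 u :: bs) us := rfl

theorem con_append (bs us us' : List M) : con K bs (us ++ us') = con K (con K bs us) us' :=
  List.foldl_append

theorem con_map (φ : M →ₗ⁅K⁆ M') :
    ∀ (us bs : List M), (con K bs us).map φ = con K (bs.map φ) (us.map φ)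
  | [], _ => rfl
  | u :: us, bs => by
    rw [con_cons, con_map φ us, List.map_cons, List.map_cons, con_cons, UU_map]

theorem ad_pow_map (φ : M →ₗ⁅K⁆ M') (y : M) :
    ∀ (k : ℕ) (x : M), φ ((ad K M y ^ k) x) = (ad K M' (φ y) ^ k) (φ x)
  | 0, _ => rfl
  | k + 1, x => by
    rw [pow_succ', pow_succ', Module.End.mul_apply, Module.End.mul_apply, ad_apply, ad_apply,
      LieHom.map_lie, ad_pow_map φ y k x]

theorem comps_map (φ : M →ₗ⁅K⁆ M') (m0 m : ℕ) (ys zs bs us : List M) :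
    (comps K m0 m ys zs bs us).map φ =
      comps K m0 m (ys.map φ) (zs.map φ) (bs.map φ) (us.map φ) := by
  have h1 : (zs.map ((ad K M ys.sum ^ m0 : Module.End K M))).map φ =
      (zs.map φ).map ((ad K M' (ys.map φ).sum ^ m0 : Module.End K M')) := by
    rw [List.map_map, List.map_map]
    refine List.map_congr_left fun z _ => ?_
    rw [Function.comp_apply, Function.comp_apply, ad_pow_map, map_list_sum]
  rw [comps, comps, con_map, ← h1, List.map_map, List.map_map (l := bs)]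
  congr 1
  exact List.map_congr_left fun b _ => UU_map φ _ m b

theorem con_II {P : M → Prop} (hP : ∀ (l : List M) (k : ℕ) (x : M), P x → P (UU K l k x)) :
    ∀ (us bs : List M), (∀ b ∈ bs, P b) → (∀ u ∈ us, P u) → ∀ c ∈ con K bs us, P c
  | [], _, hb, _ => hb
  | u :: us, bs, hb, hu => by
    rw [con_cons]
    refine con_II hP us _ ?_ fun u' h' => hu u' (List.mem_cons_of_mem _ h')
    intro b hb'
    rcases List.mem_cons.1 hb' with rfl | hb'
    · exact hP _ _ _ (hu u List.mem_cons_self)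
    · exact hb b hb'

/-- lists that the construction cannot tell apart -/
def Eqv (K : Type) {M : Type} [Field K] [LieRing M] [LieAlgebra K M] (l l' : List M) : Prop :=
  ∀ k, UU K l k = UU K l' k

theorem Eqv.refl (l : List M) : Eqv K l l := fun _ => rfl

theorem Eqv.trans {l l' l'' : List M} (h : Eqv K l l') (h' : Eqv K l' l'') : Eqv K l l'' :=
  fun k => (h k).trans (h' k)

theorem Eqv.cons (v : M) {l l' : List M} (h : Eqv K l l') : Eqv K (v :: l) (v :: l')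
  | 0 => by rw [UU, UU, h 0]
  | k + 1 => by rw [UU, UU, h k, h (k + 1)]

theorem Eqv.zero (l : List M) : Eqv K (0 :: l) l
  | 0 => by rw [UU]
  | k + 1 => by rw [UU, map_zero, zero_mul, add_zero]

/-- the same, with the sum -/
def Eqs (K : Type) {M : Type} [Field K] [LieRing M] [LieAlgebra K M] (l l' : List M) : Prop :=
  Eqv K l l' ∧ l.sum = l'.sum

theorem Eqs.refl (l : List M) : Eqs K l l := ⟨Eqv.refl l, rfl⟩

theorem Eqs.trans {l l' l'' : List M} (h : Eqs K l l') (h' : Eqs K l' l'') : Eqs K l l'' :=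
  ⟨h.1.trans h'.1, h.2.trans h'.2⟩

theorem Eqs.cons (v : M) {l l' : List M} (h : Eqs K l l') : Eqs K (v :: l) (v :: l') :=
  ⟨h.1.cons v, by rw [List.sum_cons, List.sum_cons, h.2]⟩

theorem Eqs.zero (l : List M) : Eqs K (0 :: l) l :=
  ⟨Eqv.zero l, by rw [List.sum_cons, zero_add]⟩

theorem Eqs.zeros_left (l : List M) : ∀ z : List M, (∀ v ∈ z, v = 0) → Eqs K (z ++ l) l
  | [], _ => Eqs.refl l
  | v :: z, h => by
    rw [h v List.mem_cons_self, List.cons_append]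
    exact (Eqs.zero _).trans (Eqs.zeros_left l z fun v' h' => h v' (List.mem_cons_of_mem _ h'))

theorem Eqs.zeros_right (z : List M) (h : ∀ v ∈ z, v = 0) : ∀ l : List M, Eqs K (l ++ z) l
  | [] => by simpa using Eqs.zeros_left ([] : List M) z h
  | v :: l => (Eqs.zeros_right z h l).cons v

theorem con_eqs : ∀ (us : List M) {bs bs' : List M}, Eqs K bs bs' →
    Eqs K (con K bs us) (con K bs' us)
  | [], _, _, h => h
  | u :: us, _, _, h => by
    rw [con_cons, con_cons, h.1 2]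
    exact con_eqs us (h.cons _)

theorem con_zeros : ∀ (us : List M) (bs : List M), (∀ v ∈ us, v = 0) → Eqs K (con K bs us) bs
  | [], bs, _ => Eqs.refl bs
  | u :: us, bs, h => by
    rw [con_cons, h u List.mem_cons_self, map_zero]
    exact (con_zeros us _ fun v' h' => h v' (List.mem_cons_of_mem _ h')).trans (Eqs.zero _)

theorem comps_left (m0 m : ℕ) (ys zs bs us ys' zs' bs' us' : List M) (hy : ∀ v ∈ ys', v = 0)
    (hz : ∀ v ∈ zs', v = 0) (hb : ∀ v ∈ bs', v = 0) (hu : ∀ v ∈ us', v = 0) :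
    (comps K m0 m (ys ++ ys') (zs ++ zs') (bs ++ bs') (us ++ us')).sum =
      (comps K m0 m ys zs bs us).sum := by
  rw [comps, comps, (Eqs.zeros_right (K := K) ys' hy ys).2, List.map_append (l₁ := zs),
    (Eqs.zeros_right (K := K) _ ?_ _).1 m, List.map_append, con_append]
  · refine ((con_zeros _ _ hu).trans (con_eqs _ (Eqs.zeros_right _ ?_ _))).2
    intro v hv
    obtain ⟨b, hb', rfl⟩ := List.mem_map.1 hv
    rw [hb b hb', map_zero]
  · intro v hv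
    obtain ⟨b, hb', rfl⟩ := List.mem_map.1 hv
    rw [hz b hb', map_zero]

theorem comps_right (m0 m : ℕ) (ys zs bs us ys' zs' bs' us' : List M) (hy : ∀ v ∈ ys', v = 0)
    (hz : ∀ v ∈ zs', v = 0) (hb : ∀ v ∈ bs', v = 0) (hu : ∀ v ∈ us', v = 0) :
    (comps K m0 m (ys' ++ ys) (zs' ++ zs) (bs' ++ bs) (us' ++ us)).sum =
      (comps K m0 m ys zs bs us).sum := by
  rw [comps, comps, (Eqs.zeros_left (K := K) ys ys' hy).2, List.map_append (l₁ := zs'),
    (Eqs.zeros_left (K := K) _ _ ?_).1 m, List.map_append, con_append]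
  · refine (con_eqs _ ((con_zeros _ _ hu).trans (Eqs.zeros_left _ _ ?_))).2
    intro v hv
    obtain ⟨b, hb', rfl⟩ := List.mem_map.1 hv
    rw [hb b hb', map_zero]
  · intro v hv
    obtain ⟨b, hb', rfl⟩ := List.mem_map.1 hv
    rw [hz b hb', map_zero]

end Con

/-! ### Pull back and evaluation -/

section Pull
variable {ι κ K L : Type} [DecidableEq ι] [DecidableEq κ] [Field K] [LieRing L] [LieAlgebra K L]

/-- restriction along an embedding of index sets -/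
def pull (K : Type) [Field K] [LieAlgebra K L] (f : ι ↪ κ) : SF κ L →ₗ⁅K⁆ SF ι L where
  toFun ξ := fun S => ξ (S.map f)
  map_add' _ _ := rfl
  map_smul' _ _ := rfl
  map_lie' := fun {x y} => SF.ext fun S => by
    change ⁅x, y⁆ (S.map f) = ∑ A ∈ S.powerset, ⁅x (A.map f), y ((S \ A).map f)⁆
    rw [SF.lie_apply]
    symm
    refine Finset.sum_bij (fun A _ => A.map f) ?_ ?_ ?_ ?_
    · intro A h; exact mem_powerset.2 (map_subset_map.2 (mem_powerset.1 h))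
    · intro A _ B _ h; exact map_injective f h
    · intro B h
      obtain ⟨A, hA, rfl⟩ := subset_map_iff.1 (mem_powerset.1 h)
      exact ⟨A, mem_powerset.2 hA, rfl⟩
    · intro A _; rw [Finset.map_sdiff]

theorem pull_apply (f : ι ↪ κ) (ξ : SF κ L) (S : Finset ι) : pull K f ξ S = ξ (S.map f) := rfl

theorem pull_sg (f : ι ↪ κ) (i : ι) (x : L) : pull K f (sg {f i} x) = sg {i} x :=
  SF.ext fun S => by
    rw [pull_apply, sg, sg, ← map_singleton]
    simp only [(map_injective f).eq_iff]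

theorem pull_sg_zero (f : ι ↪ κ) {k : κ} (hk : ∀ i, f i ≠ k) (x : L) :
    pull K f (sg {k} x) = 0 :=
  SF.ext fun S => by
    rw [pull_apply, sg, SF.zero_apply, if_neg]
    intro h
    have : k ∈ S.map f := h ▸ mem_singleton_self k
    obtain ⟨i, _, hi⟩ := mem_map.1 this
    exact hk i hi

theorem sg_mem (i : ι) (x : L) : sg {i} x ∈ II K L i := fun S hS => by
  rw [sg, if_neg]
  rintro rfl
  exact hS (mem_singleton_self i)

theorem cs_II (δ : Dat ι L) (m0 m : ℕ) : ∀ c ∈ δ.cs K m0 m, ∃ i : ι, c ∈ II K L i := by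
  refine con_II (P := fun c => ∃ i : ι, c ∈ II K L i)
    (fun l k x ⟨i, h⟩ => ⟨i, UU_mem _ l k x h⟩) _ _ ?_ ?_
  · intro b hb
    obtain ⟨b', hb', rfl⟩ := List.mem_map.1 hb
    obtain ⟨i, _, rfl⟩ := List.mem_map.1 hb'
    exact ⟨i, UU_mem _ _ _ _ (sg_mem i _)⟩
  · intro b hb
    obtain ⟨i, _, rfl⟩ := List.mem_map.1 hb
    exact ⟨i, sg_mem i _⟩

theorem lie_sg (s : SF ι L) {o : ι} {U : Finset ι} (hU : o ∉ U) (w : L) :
    ⁅s, sg {o} w⁆ (insert o U) = ⁅s U, w⁆ := by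
  rw [SF.lie_apply, sum_eq_single U]
  · rw [insert_sdiff_of_notMem _ hU, Finset.sdiff_self, sg,
      if_pos (insert_empty_eq o)]
  · intro A hA hne
    rw [sg, if_neg, lie_zero]
    intro h
    apply hne
    have hA' := mem_powerset.1 hA
    ext i
    have h1 : i ∈ insert o U \ A ↔ i ∈ ({o} : Finset ι) := by rw [h]
    have h2 : o ∈ insert o U \ A ↔ o ∈ ({o} : Finset ι) := by rw [h]
    have h3 := @hA' i
    simp only [mem_sdiff, mem_insert, mem_singleton] at h1 h2 h3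
    by_cases hio : i = o
    · subst hio; tauto
    · tauto
  · intro h
    exact absurd (mem_powerset.2 (subset_insert _ _)) h

theorem lie_lie_sg (K : Type) [Field K] [LieAlgebra K L] (v s : SF ι L) {o : ι} {T : Finset ι} (hT : o ∉ T) (w : L) :
    ⁅v, ⁅s, sg {o} w⁆⁆ (insert o T) = ∑ A ∈ T.powerset, ⁅v A, ⁅s (T \ A), w⁆⁆ := by
  rw [SF.lie_apply, sum_powerset_insert hT]
  have h0 : ∑ A ∈ T.powerset, ⁅v (insert o A), ⁅s, sg {o} w⁆ (insert o T \ insert o A)⁆ = 0 := by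
    refine sum_eq_zero fun A _ => ?_
    rw [((II K L o).lie_mem (sg_mem o w) : ⁅s, sg {o} w⁆ ∈ II K L o) _
      (fun h => (mem_sdiff.1 h).2 (mem_insert_self _ _)), lie_zero]
  rw [h0, add_zero]
  refine sum_congr rfl fun A hA => ?_
  rw [insert_sdiff_of_notMem _ (fun h => hT (mem_powerset.1 hA h)),
    lie_sg s (fun h => hT (mem_sdiff.1 h).1)]

theorem UU_two (G : GrL K L) (j : ℕ) {o : ι} {T : Finset ι} (hT : o ∉ T) (w : G.ge j) :
    ∀ cs : List (SF ι L),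
      UU K cs 2 (sg {o} (w : L)) (insert o T) = ((QQ (G.ψ j) T cs w : G.ge j) : L)
  | [] => rfl
  | v :: l => by
    rw [UU, QQ, LinearMap.add_apply, LinearMap.add_apply, SF.add_apply, UU_two G j hT w l,
      UU_one, Module.End.mul_apply, ad_apply, ad_apply, lie_lie_sg K v _ hT, BB,
      LinearMap.sum_apply]
    simp only [AddMemClass.coe_add, AddSubmonoidClass.coe_finsetSum, Module.End.mul_apply,
      GrL.ψ_apply]

end Pull

/-! ### Merged data -/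

section Mer
variable {ι₁ ι₂ K L : Type} [DecidableEq ι₁] [DecidableEq ι₂] [Field K] [LieRing L]
  [LieAlgebra K L]

/-- first embedding -/
def f1 (ι₁ ι₂ : Type) : ι₁ ↪ Option (ι₁ ⊕ ι₂) :=
  ⟨fun i => some (Sum.inl i), fun _ _ h => Sum.inl.inj (Option.some.inj h)⟩

/-- second embedding -/
def f2 (ι₁ ι₂ : Type) : ι₂ ↪ Option (ι₁ ⊕ ι₂) :=
  ⟨fun i => some (Sum.inr i), fun _ _ h => Sum.inr.inj (Option.some.inj h)⟩

theorem f1_apply (i : ι₁) : f1 ι₁ ι₂ i = some (Sum.inl i) := rfl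

theorem f2_apply (i : ι₂) : f2 ι₁ ι₂ i = some (Sum.inr i) := rfl

theorem f1_ne (i : ι₁) (k : ι₂) : f1 ι₁ ι₂ i ≠ f2 ι₁ ι₂ k := by simp [f1_apply, f2_apply]

/-- merged list of indices -/
def ml (l₁ : List ι₁) (l₂ : List ι₂) : List (Option (ι₁ ⊕ ι₂)) :=
  l₁.map (f1 ι₁ ι₂) ++ l₂.map (f2 ι₁ ι₂)

theorem mem_ml1 {l₁ : List ι₁} {l₂ : List ι₂} {i : ι₁} : f1 ι₁ ι₂ i ∈ ml l₁ l₂ ↔ i ∈ l₁ := by
  simp [ml, f1_apply, f2_apply]

theorem mem_ml2 {l₁ : List ι₁} {l₂ : List ι₂} {i : ι₂} : f2 ι₁ ι₂ i ∈ ml l₁ l₂ ↔ i ∈ l₂ := by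
  simp [ml, f1_apply, f2_apply]

theorem none_ml {l₁ : List ι₁} {l₂ : List ι₂} : none ∉ ml l₁ l₂ := by
  simp [ml, f1_apply, f2_apply]

/-- merged function -/
def mf {X : Type} (x₁ : ι₁ → X) (x₂ : ι₂ → X) (w : X) : Option (ι₁ ⊕ ι₂) → X
  | none => w
  | some (Sum.inl i) => x₁ i
  | some (Sum.inr i) => x₂ i

/-- merged data -/
def mer0 (δ₁ : Dat ι₁ L) (δ₂ : Dat ι₂ L) (w : L) : Dat (Option (ι₁ ⊕ ι₂)) L where
  x := mf δ₁.x δ₂.x w
  ys := ml δ₁.ys δ₂.ys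
  zs := ml δ₁.zs δ₂.zs
  bs := ml δ₁.bs δ₂.bs
  us := ml δ₁.us δ₂.us
  disj := by
    rintro (_ | i | i) h
    · exact absurd h none_ml
    · have := δ₁.disj i (mem_ml1.1 h)
      exact ⟨fun h' => this.1 (mem_ml1.1 h'), fun h' => this.2.1 (mem_ml1.1 h'),
        fun h' => this.2.2 (mem_ml1.1 h')⟩
    · have := δ₂.disj i (mem_ml2.1 h)
      exact ⟨fun h' => this.1 (mem_ml2.1 h'), fun h' => this.2.1 (mem_ml2.1 h'),
        fun h' => this.2.2 (mem_ml2.1 h')⟩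

/-- merged data with a last index of type `u` -/
def mer1 (δ₁ : Dat ι₁ L) (δ₂ : Dat ι₂ L) (w : L) : Dat (Option (ι₁ ⊕ ι₂)) L :=
  { mer0 δ₁ δ₂ w with
    us := ml δ₁.us δ₂.us ++ [none]
    disj := by
      intro i h
      rcases List.mem_append.1 h with h | h
      · exact (mer0 δ₁ δ₂ w).disj i h
      · rw [List.mem_singleton.1 h]
        exact ⟨none_ml, none_ml, none_ml⟩ }

theorem map_e (δ₁ : Dat ι₁ L) (δ₂ : Dat ι₂ L) (w : L) (l₁ : List ι₁) (l₂ : List ι₂) :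
    (ml l₁ l₂).map (mer0 δ₁ δ₂ w).e = (ml l₁ l₂).map (mer0 δ₁ δ₂ 0).e := by
  refine List.map_congr_left ?_
  rintro (_ | i | i) h
  · exact absurd h none_ml
  · rfl
  · rfl

theorem cs_mer1 (δ₁ : Dat ι₁ L) (δ₂ : Dat ι₂ L) (w : L) (m0 m : ℕ) :
    (mer1 δ₁ δ₂ w).cs K m0 m =
      UU K ((mer0 δ₁ δ₂ 0).cs K m0 m) 2 (sg {none} w) :: (mer0 δ₁ δ₂ 0).cs K m0 m := by
  change comps K m0 m ((ml δ₁.ys δ₂.ys).map (mer0 δ₁ δ₂ w).e)
    ((ml δ₁.zs δ₂.zs).map (mer0 δ₁ δ₂ w).e) ((ml δ₁.bs δ₂.bs).map (mer0 δ₁ δ₂ w).e)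
    ((ml δ₁.us δ₂.us ++ [none]).map (mer0 δ₁ δ₂ w).e) = _
  rw [List.map_append, map_e δ₁ δ₂ w δ₁.ys, map_e δ₁ δ₂ w δ₁.zs, map_e δ₁ δ₂ w δ₁.bs,
    map_e δ₁ δ₂ w δ₁.us, comps, con_append]
  rfl

theorem pull1 (δ₁ : Dat ι₁ L) (δ₂ : Dat ι₂ L) (w : L) (l₁ : List ι₁) (l₂ : List ι₂) :
    ∃ z : List (SF ι₁ L), (∀ v ∈ z, v = 0) ∧
      ((ml l₁ l₂).map (mer0 δ₁ δ₂ w).e).map (pull K (f1 ι₁ ι₂)) = l₁.map δ₁.e ++ z := by
  refine ⟨((l₂.map (f2 ι₁ ι₂)).map (mer0 δ₁ δ₂ w).e).map (pull K (f1 ι₁ ι₂)), ?_, ?_⟩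
  · intro v hv
    simp only [List.map_map, List.mem_map, Function.comp_apply] at hv
    obtain ⟨k, _, rfl⟩ := hv
    exact pull_sg_zero _ (fun i => f1_ne i k) _
  · rw [ml, List.map_append, List.map_append]
    congr 1
    simp only [List.map_map]
    exact List.map_congr_left fun i _ => pull_sg _ i _

theorem pull2 (δ₁ : Dat ι₁ L) (δ₂ : Dat ι₂ L) (w : L) (l₁ : List ι₁) (l₂ : List ι₂) :
    ∃ z : List (SF ι₂ L), (∀ v ∈ z, v = 0) ∧
      ((ml l₁ l₂).map (mer0 δ₁ δ₂ w).e).map (pull K (f2 ι₁ ι₂)) = z ++ l₂.map δ₂.e := by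
  refine ⟨((l₁.map (f1 ι₁ ι₂)).map (mer0 δ₁ δ₂ w).e).map (pull K (f2 ι₁ ι₂)), ?_, ?_⟩
  · intro v hv
    simp only [List.map_map, List.mem_map, Function.comp_apply] at hv
    obtain ⟨k, _, rfl⟩ := hv
    exact pull_sg_zero _ (fun i => (f1_ne k i).symm) _
  · rw [ml, List.map_append, List.map_append]
    congr 1
    simp only [List.map_map]
    exact List.map_congr_left fun i _ => pull_sg _ i _

theorem val1 (δ₁ : Dat ι₁ L) (δ₂ : Dat ι₂ L) (w : L) (m0 m : ℕ) (S : Finset ι₁) :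
    (mer0 δ₁ δ₂ w).val K m0 m (S.map (f1 ι₁ ι₂)) = δ₁.val K m0 m S := by
  obtain ⟨y, hy, ey⟩ := pull1 (K := K) δ₁ δ₂ w δ₁.ys δ₂.ys
  obtain ⟨z, hz, ez⟩ := pull1 (K := K) δ₁ δ₂ w δ₁.zs δ₂.zs
  obtain ⟨b, hb, eb⟩ := pull1 (K := K) δ₁ δ₂ w δ₁.bs δ₂.bs
  obtain ⟨u, hu, eu⟩ := pull1 (K := K) δ₁ δ₂ w δ₁.us δ₂.us
  change pull K (f1 ι₁ ι₂) ((mer0 δ₁ δ₂ w).val K m0 m) S = _
  rw [Dat.val, map_list_sum, Dat.cs, comps_map]
  dsimp only [mer0] at ey ez eb eu ⊢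
  rw [ey, ez, eb, eu, comps_left m0 m _ _ _ _ _ _ _ _ hy hz hb hu]
  rfl

theorem val2 (δ₁ : Dat ι₁ L) (δ₂ : Dat ι₂ L) (w : L) (m0 m : ℕ) (S : Finset ι₂) :
    (mer0 δ₁ δ₂ w).val K m0 m (S.map (f2 ι₁ ι₂)) = δ₂.val K m0 m S := by
  obtain ⟨y, hy, ey⟩ := pull2 (K := K) δ₁ δ₂ w δ₁.ys δ₂.ys
  obtain ⟨z, hz, ez⟩ := pull2 (K := K) δ₁ δ₂ w δ₁.zs δ₂.zs
  obtain ⟨b, hb, eb⟩ := pull2 (K := K) δ₁ δ₂ w δ₁.bs δ₂.bs
  obtain ⟨u, hu, eu⟩ := pull2 (K := K) δ₁ δ₂ w δ₁.us δ₂.us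
  change pull K (f2 ι₁ ι₂) ((mer0 δ₁ δ₂ w).val K m0 m) S = _
  rw [Dat.val, map_list_sum, Dat.cs, comps_map]
  dsimp only [mer0] at ey ez eb eu ⊢
  rw [ey, ez, eb, eu, comps_right m0 m _ _ _ _ _ _ _ _ hy hz hb hu]
  rfl

end Mer

/-! ### The case split -/

section Core
variable {K L : Type} [Field K] [LieRing L] [LieAlgebra K L]

theorem core (G : GrL K L) (hD : DegC G) {m0 m n l j : ℕ} (hN : NullAbove G m0 m n l j)
    {κ : Type} [Fintype κ] [DecidableEq κ] (δ : Dat κ L) (d : κ → ℕ)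
    (hd : ∀ i, j ≤ d i ∧ δ.x i ∈ G.A (d i)) (P₁ P₂ : Finset κ) (hP : Disjoint P₁ P₂) {i0 : κ}
    (hi : i0 ∈ P₁) (h1 : (P₁ ∩ δ.us.toFinset).card = n) (h1' : P₁.card = l)
    (h2 : (P₂ ∩ δ.us.toFinset).card = n) (h2' : P₂.card = l)
    (hlt : ∀ i ∈ P₂, ∑ k ∈ P₁.erase i0, d k < d i)
    (hB : B0 (G.ψ j) (P₁ ∪ P₂) i0 (δ.val K m0 m) (δ.val K m0 m) ∈ LinearMap.range (G.ψ j)) :
    G.ψ j (δ.val K m0 m P₁) * G.ψ j (δ.val K m0 m P₂) ∈
      span K {r | ∃ t x y, 1 ≤ t ∧ t ≤ ∑ i ∈ P₂, d i ∧ x ∈ G.A (∑ i ∈ P₁, d i + t) ∧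
        y ∈ G.A (∑ i ∈ P₂, d i - t) ∧ r = G.ψ j x * G.ψ j y} ⊔ LinearMap.range (G.ψ j) := by
  set c := δ.val K m0 m with hc
  set W := span K {r | ∃ t x y, 1 ≤ t ∧ t ≤ ∑ i ∈ P₂, d i ∧ x ∈ G.A (∑ i ∈ P₁, d i + t) ∧
        y ∈ G.A (∑ i ∈ P₂, d i - t) ∧ r = G.ψ j x * G.ψ j y} with hW
  have hcls : ∀ A : Finset κ, c A ∈ Cls G m0 m (A ∩ δ.us.toFinset).card A.card j := fun A =>
    ⟨κ, inferInstance, inferInstance, δ, A, fun i => ⟨d i, hd i⟩, rfl, rfl, rfl⟩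
  have hdeg : ∀ A : Finset κ, c A ∈ G.A (∑ i ∈ A, d i) := fun A =>
    hD κ δ m0 m d A fun i => (hd i).2
  have hmem : P₁ ∈ (P₁ ∪ P₂).powerset := mem_powerset.2 subset_union_left
  rw [B0, ← add_sum_erase _ _ hmem, if_pos hi, union_sdiff_cancel_left hP] at hB
  have hrest : ∑ A ∈ (P₁ ∪ P₂).powerset.erase P₁,
      (if i0 ∈ A then G.ψ j (c A) * G.ψ j (c ((P₁ ∪ P₂) \ A)) else 0) ∈ W := by
    refine sum_mem fun A hA => ?_
    obtain ⟨hne, hA⟩ := mem_erase.1 hA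
    have hA' := mem_powerset.1 hA
    split_ifs with hiA
    swap
    · exact zero_mem _
    by_cases hsub : A ⊆ P₁
    · have hlt' : A.card < l := h1' ▸ card_lt_card (Finset.ssubset_iff_subset_ne.2 ⟨hsub, hne⟩)
      have hle : (A ∩ δ.us.toFinset).card ≤ n :=
        h1 ▸ card_le_card (inter_subset_inter hsub Subset.rfl)
      rcases hle.eq_or_lt with he | hl
      · have h0 : c A = 0 := hN.2 _ hlt' _ (he ▸ hcls A)
        rw [h0, map_zero, zero_mul]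
        exact zero_mem _
      · have e1 : (((P₁ ∪ P₂) \ A) ∩ δ.us.toFinset).card + (A ∩ δ.us.toFinset).card = n + n := by
          rw [← card_union_of_disjoint (sdiff_disjoint.mono inter_subset_left inter_subset_left),
            ← union_inter_distrib_right, sdiff_union_of_subset hA', union_inter_distrib_right,
            card_union_of_disjoint (hP.mono inter_subset_left inter_subset_left), h1, h2]
        have e2 : ((P₁ ∪ P₂) \ A).card ≤ 2 * l + 1 := by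
          have := card_le_card (sdiff_subset : (P₁ ∪ P₂) \ A ⊆ P₁ ∪ P₂)
          have := card_union_le P₁ P₂
          omega
        rw [hN.1 _ _ (by omega) e2 _ (hcls ((P₁ ∪ P₂) \ A)), map_zero, mul_zero]
        exact zero_mem _
    · obtain ⟨i, hiA', hi1⟩ := not_subset.1 hsub
      have hi2 : i ∈ P₂ := (mem_union.1 (hA' hiA')).resolve_left hi1
      have hne' : i0 ≠ i := fun h => hi1 (h ▸ hi)
      have e1 : d i0 + d i ≤ ∑ k ∈ A, d k := by
        rw [← sum_pair hne']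
        exact sum_le_sum_of_subset (insert_subset hiA (singleton_subset_iff.2 hiA'))
      have e2 := add_sum_erase P₁ d hi
      have e3 := hlt i hi2
      have e4 := sum_sdiff (f := d) hA'
      rw [sum_union hP] at e4
      refine subset_span ⟨∑ k ∈ A, d k - ∑ k ∈ P₁, d k, _, _, by omega, by omega, ?_, ?_, rfl⟩
      · convert hdeg A using 2
        omega
      · convert hdeg ((P₁ ∪ P₂) \ A) using 2
        omega
  have := sub_mem (mem_sup_right (S := W) hB) (mem_sup_left (T := LinearMap.range (G.ψ j)) hrest)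
  rwa [add_sub_cancel_right] at this

end Core

section Fin
variable {ι₁ ι₂ K L : Type} [Fintype ι₁] [DecidableEq ι₁] [Fintype ι₂] [DecidableEq ι₂] [Field K]
  [LieRing L] [LieAlgebra K L]

theorem inter1 (S : Finset ι₁) (l₁ : List ι₁) (l₂ : List ι₂) :
    (S.map (f1 ι₁ ι₂) ∩ (ml l₁ l₂).toFinset).card = (S ∩ l₁.toFinset).card := by
  rw [← card_map (f1 ι₁ ι₂)]
  congr 1
  ext k
  simp only [mem_inter, mem_map, List.mem_toFinset]
  constructor
  · rintro ⟨⟨i, hi, rfl⟩, h⟩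
    exact ⟨i, ⟨hi, mem_ml1.1 h⟩, rfl⟩
  · rintro ⟨i, ⟨hi, h⟩, rfl⟩
    exact ⟨⟨i, hi, rfl⟩, mem_ml1.2 h⟩

theorem inter2 (S : Finset ι₂) (l₁ : List ι₁) (l₂ : List ι₂) :
    (S.map (f2 ι₁ ι₂) ∩ (ml l₁ l₂).toFinset).card = (S ∩ l₂.toFinset).card := by
  rw [← card_map (f2 ι₁ ι₂)]
  congr 1
  ext k
  simp only [mem_inter, mem_map, List.mem_toFinset]
  constructor
  · rintro ⟨⟨i, hi, rfl⟩, h⟩
    exact ⟨i, ⟨hi, mem_ml2.1 h⟩, rfl⟩
  · rintro ⟨i, ⟨hi, h⟩, rfl⟩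
    exact ⟨⟨i, hi, rfl⟩, mem_ml2.2 h⟩

theorem QQ_zero (G : GrL K L) (hG : G.GB) {m0 m n l j : ℕ} (hN : NullAbove G m0 m n l j)
    (δ₁ : Dat ι₁ L) (δ₂ : Dat ι₂ L) (hx₁ : ∀ i, G.Hom j (δ₁.x i)) (hx₂ : ∀ i, G.Hom j (δ₂.x i))
    {T : Finset (Option (ι₁ ⊕ ι₂))} (hT : none ∉ T)
    (hn : n ≤ (T ∩ (ml δ₁.us δ₂.us).toFinset).card) (hl : T.card ≤ 2 * l) :
    QQ (G.ψ j) T ((mer0 δ₁ δ₂ 0).cs K m0 m) = 0 := by
  have key : ∀ w, G.Hom j w → (mer1 δ₁ δ₂ w).val K m0 m (insert none T) = 0 := by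
    intro w hw
    refine hN.1 (insert none T ∩ (mer1 δ₁ δ₂ w).us.toFinset).card (insert none T).card ?_ ?_ _
      ⟨_, inferInstance, inferInstance, mer1 δ₁ δ₂ w, insert none T, ?_, rfl, rfl, rfl⟩
    · refine lt_of_le_of_lt hn (card_lt_card ((ssubset_iff_of_subset ?_).2 ⟨none, ?_, ?_⟩))
      · refine inter_subset_inter (subset_insert _ _) fun k hk => ?_
        exact List.mem_toFinset.2 (List.mem_append_left _ (List.mem_toFinset.1 hk))
      · exact mem_inter.2 ⟨mem_insert_self _ _,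
          List.mem_toFinset.2 (List.mem_append_right _ (List.mem_singleton.2 rfl))⟩
      · exact fun h => hT (mem_inter.1 h).1
    · rw [card_insert_of_notMem hT]
      omega
    · rintro (_ | i | i)
      · exact hw
      · exact hx₁ i
      · exact hx₂ i
  have key2 : ∀ w : G.ge j, G.Hom j (w : L) →
      QQ (G.ψ j) T ((mer0 δ₁ δ₂ 0).cs K m0 m) w = 0 := by
    intro w hw
    have a1 := key w hw
    have a2 := key (0 : G.ge j) ⟨j, le_rfl, zero_mem _⟩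
    rw [Dat.val, cs_mer1, List.sum_cons, SF.add_apply, UU_two G j hT] at a1 a2
    rw [map_zero, ZeroMemClass.coe_zero, zero_add] at a2
    rw [a2, add_zero] at a1
    exact Subtype.ext a1
  refine LinearMap.ext fun ⟨w, hw⟩ => ?_
  have hw' := (hG.ge_iff j w).1 hw
  induction hw' using span_induction with
  | mem x hx => exact key2 ⟨x, hw⟩ hx
  | zero => exact map_zero _
  | add x y hx hy ihx ihy =>
    have hx' := (hG.ge_iff j x).2 hx
    have hy' := (hG.ge_iff j y).2 hy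
    have : (⟨x + y, hw⟩ : G.ge j) = ⟨x, hx'⟩ + ⟨y, hy'⟩ := rfl
    rw [this, map_add, map_add, ihx hx', ihy hy']
  | smul a x hx ihx =>
    have hx' := (hG.ge_iff j x).2 hx
    have : (⟨a • x, hw⟩ : G.ge j) = a • ⟨x, hx'⟩ := rfl
    rw [this, map_smul, map_smul, ihx hx']

end Fin

end Rel

open Z30.Rel in
theorem sRel : SRel := by
  intro K L _ _ _ G hG hD m0 m n l j hN ι₁ ι₂ _ _ _ _ δ₁ δ₂ d₁ d₂ S₁ S₂ i0 hd₁ hd₂ hi h1 h1' h2 h2'
    hlt
  have hP : Disjoint (S₁.map (f1 ι₁ ι₂)) (S₂.map (f2 ι₁ ι₂)) := by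
    refine Finset.disjoint_left.2 fun k hk hk' => ?_
    obtain ⟨a, _, rfl⟩ := mem_map.1 hk
    obtain ⟨b, _, hb⟩ := mem_map.1 hk'
    exact f1_ne a b hb.symm
  have hT : none ∉ S₁.map (f1 ι₁ ι₂) ∪ S₂.map (f2 ι₁ ι₂) := by simp [f1_apply, f2_apply]
  have hi' : f1 ι₁ ι₂ i0 ∈ S₁.map (f1 ι₁ ι₂) := mem_map_of_mem _ hi
  have hQ := QQ_zero G hG hN δ₁ δ₂ (fun i => ⟨_, hd₁ i⟩) (fun i => ⟨_, hd₂ i⟩) hT
    (by
      rw [← h1, ← inter1 S₁ δ₁.us δ₂.us]
      exact card_le_card (inter_subset_inter subset_union_left Subset.rfl))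
    (by rw [card_union_of_disjoint hP, card_map, card_map]; omega)
  have hB := QQ_sub (hG.rep j) (mem_union_left (S₂.map (f2 ι₁ ι₂)) hi') _
    (cs_II (K := K) (mer0 δ₁ δ₂ 0) m0 m)
  rw [hQ, zero_sub, neg_mem_iff] at hB
  have := core G hD hN (mer0 δ₁ δ₂ 0) (mf d₁ d₂ j) ?_ _ _ hP hi'
    ((inter1 S₁ _ _).trans h1) ((card_map _).trans h1') ((inter2 S₂ _ _).trans h2)
    ((card_map _).trans h2') ?_ hB
  · rw [val1, val2, sum_map, sum_map] at this
    exact this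
  · rintro (_ | i | i)
    · exact ⟨le_rfl, zero_mem _⟩
    · exact hd₁ i
    · exact hd₂ i
  · intro k hk
    obtain ⟨i, hi2, rfl⟩ := mem_map.1 hk
    rw [← map_erase, sum_map]
    exact hlt i hi2

end Pool.Agent.MP_3312ae_al.HR.Z30
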