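import Pool.Agent.MP_3312ae_al.HR.Z30.Asm
import Pool.Agent.MP_3312ae_al.HR.Z30.GB
import Pool.Agent.MP_3312ae_al.HR.Z30.Red
import Pool.Agent.MP_3312ae_al.HR.Z30.ColA
import Pool.Agent.MP_3312ae_al.HR.Z30.Gen
import Pool.Agent.MP_3312ae_al.HR.Z30.EJ
import Pool.Agent.MP_3312ae_al.HR.Z30.Dens
import Pool.Agent.MP_3312ae_al.HR.Z30.NoA
import Pool.Agent.MP_3312ae_al.HR.Z30.NoB
import Pool.Agent.MP_3312ae_al.HR.Z30.LL
import Pool.Agent.MP_3312ae_al.HR.Z30.Hb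
import Pool.Agent.MP_3312ae_al.HR.Z30.Dq
import Pool.Agent.MP_3312ae_al.HR.Z30.Dm
import Pool.Agent.MP_3312ae_al.HR.Z30.Inner
import Pool.Agent.MP_3312ae_al.HR.Z30.Bound
import Pool.Agent.MP_3312ae_al.HR.Z30.Cls
import Pool.Agent.MP_3312ae_al.HR.Z30.Reg
import Pool.Agent.MP_3312ae_al.HR.Z30.Deg
import Pool.Agent.MP_3312ae_al.HR.Z30.Rel
import Pool.Agent.MP_3312ae_al.HR.C1.Fin3

/-! Zelmanov's theorem (graded form) and local finiteness of profinite `p`-torsion groups. -/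

set_option autoImplicit false

namespace Pool.Agent.MP_3312ae_al.HR

theorem Z30.core : Z30.Core :=
  Z30.sAsm Z30.sGB Z30.sColA Z30.sColB Z30.sGen Z30.sEJ Z30.sDens Z30.sNoA Z30.sNoB Z30.sLL
    Z30.sHb Z30.sDq Z30.sDm Z30.sM1 Z30.sInner Z30.sBound Z30.sCls Z30.sReg Z30.sDeg Z30.sEqv
    Z30.sRel

theorem thmZ2 : Z30.ThmZ2 := Z30.sRed Z30.sGB Z30.core

theorem locFin : LocFin := locFin_of2 thmZ2

end Pool.Agent.MP_3312ae_al.HR
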