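import Pool.Agent.MP_3312ae_al.HR.Z30.Basic

/-! The Higman law gives the exponent of the group generated by the `1 + ad h`. -/

set_option autoImplicit false
set_option linter.unusedSectionVars false

namespace Pool.Agent.MP_3312ae_al.HR.Z30

open Finset LieAlgebra

namespace Hb

section Abstract
variable {R R' : Type} [Ring R] [Ring R']

theorem prod_mul_prod : ∀ {s : ℕ} (f g : Fin s → R), (∀ i k, Commute (f i) (g k)) →
    (List.ofFn f).prod * (List.ofFn g).prod = (List.ofFn fun i => f i * g i).prod := by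
  intro s
  induction s with
  | zero => intro f g _; simp
  | succ s ih =>
    intro f g h
    rw [List.ofFn_succ, List.ofFn_succ, List.ofFn_succ, List.prod_cons, List.prod_cons,
      List.prod_cons, ← ih _ _ fun i k => h _ _]
    have : Commute (List.ofFn fun i : Fin s => f i.succ).prod (g 0) := by
      refine Commute.list_prod_left _ _ fun x hx => ?_
      obtain ⟨i, rfl⟩ := List.mem_ofFn.1 hx
      exact h _ _
    rw [mul_assoc, ← mul_assoc _ (g 0), this.eq, mul_assoc, mul_assoc]

theorem prod_one_add {s : ℕ} (u : Fin s → R) :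
    (List.ofFn fun i => 1 + u i).prod = ∑ S : Finset (Fin s), ordP u S := by
  have := (MultilinearMap.mkPiAlgebraFin ℤ s R).map_add_univ u fun _ => 1
  simp only [MultilinearMap.mkPiAlgebraFin_apply] at this
  have e : (fun i => 1 + u i) = u + fun _ => 1 := funext fun i => add_comm _ _
  rw [e, this]
  rfl

theorem ordP_empty {s : ℕ} (u : Fin s → R) : ordP u ∅ = 1 := by
  simp [ordP]

theorem Tq_empty {s : ℕ} (u : Fin s → R) (q : ℕ) : Tq u q ∅ = 1 := by
  induction q with
  | zero => simp [Tq]
  | succ q ih => simp [Tq, ordP_empty, ih]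

theorem ordP_commute {s : ℕ} (e : Fin s → R) (y : R) (h : ∀ i, Commute (e i) y)
    (S : Finset (Fin s)) : Commute (ordP e S) y := by
  refine Commute.list_prod_left _ _ fun x hx => ?_
  obtain ⟨i, rfl⟩ := List.mem_ofFn.1 hx
  split_ifs
  · exact h i
  · exact Commute.one_left _

theorem ordP_mul {s : ℕ} (e : Fin s → R) (hc : ∀ i k, Commute (e i) (e k))
    (h0 : ∀ i, e i * e i = 0) (B C : Finset (Fin s)) :
    ordP e B * ordP e C = if Disjoint B C then ordP e (B ∪ C) else 0 := by
  unfold ordP
  rw [prod_mul_prod]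
  · split_ifs with hd
    · congr 2
      funext i
      by_cases hB : i ∈ B
      · have hC : i ∉ C := disjoint_left.1 hd hB
        simp [hB, hC]
      · simp [hB]
    · obtain ⟨i, hB, hC⟩ := not_disjoint_iff.1 hd
      refine List.prod_eq_zero (List.mem_ofFn.2 ⟨i, ?_⟩)
      simp [hB, hC, h0]
  · intro i k
    split_ifs
    · exact hc i k
    · exact Commute.one_right _
    · exact Commute.one_left _
    · exact Commute.one_left _

theorem ordP_mix {s : ℕ} (φ : R →+* R') (e : Fin s → R') (hφ : ∀ i T, Commute (e i) (φ T))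
    (h : Fin s → R) (S : Finset (Fin s)) :
    ordP (fun i => e i * φ (h i)) S = ordP e S * φ (ordP h S) := by
  unfold ordP
  rw [map_list_prod, List.map_ofFn, prod_mul_prod]
  · congr 2
    funext i
    simp only [Function.comp_apply]
    split_ifs <;> simp
  · intro i k
    simp only [Function.comp_apply]
    by_cases hi : i ∈ S
    · rw [if_pos hi]; exact hφ _ _
    · rw [if_neg hi]; exact Commute.one_left _

theorem sum_reindex {α W : Type} [Fintype α] [DecidableEq α] [AddCommMonoid W]
    (F : Finset α → Finset α → Finset α → W) :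
    ∑ B : Finset α, ∑ C : Finset α, (if Disjoint B C then F (B ∪ C) B C else 0) =
      ∑ S : Finset α, ∑ B ∈ S.powerset, F S B (S \ B) := by
  have e : ∀ S : Finset α, ∑ B ∈ S.powerset, F S B (S \ B) =
      ∑ B : Finset α, if B ⊆ S then F S B (S \ B) else 0 := by
    intro S
    rw [← sum_filter]
    refine sum_congr ?_ fun _ _ => rfl
    ext B
    simp
  simp only [e]
  rw [sum_comm (f := fun S B : Finset α => if B ⊆ S then F S B (S \ B) else 0)]
  refine sum_congr rfl fun B _ => ?_
  rw [← sum_filter, ← sum_filter]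
  refine sum_bij' (fun C _ => B ∪ C) (fun S _ => S \ B) ?_ ?_ ?_ ?_ ?_
  · intro C _; simp
  · intro S _; simp [disjoint_sdiff]
  · intro C hC; exact union_sdiff_cancel_left (mem_filter.1 hC).2
  · intro S hS; exact union_sdiff_of_subset (mem_filter.1 hS).2
  · intro C hC; rw [union_sdiff_cancel_left (mem_filter.1 hC).2]

theorem pow_eq {s : ℕ} (φ : R →+* R') (e : Fin s → R') (hc : ∀ i k, Commute (e i) (e k))
    (h0 : ∀ i, e i * e i = 0) (hφ : ∀ i T, Commute (e i) (φ T)) (h : Fin s → R) (q : ℕ) :
    (List.ofFn fun i => 1 + e i * φ (h i)).prod ^ q =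
      ∑ S : Finset (Fin s), ordP e S * φ (Tq h q S) := by
  induction q with
  | zero =>
    rw [pow_zero, sum_eq_single ∅]
    · simp [Tq, ordP_empty]
    · intro S _ hS; simp [Tq, hS]
    · intro h; exact absurd (mem_univ _) h
  | succ q ih =>
    rw [pow_succ', ih, prod_one_add, sum_mul_sum]
    have e1 : ∀ B C : Finset (Fin s), ordP (fun i => e i * φ (h i)) B * (ordP e C * φ (Tq h q C)) =
        if Disjoint B C then ordP e (B ∪ C) * φ (ordP h B * Tq h q C) else 0 := by
      intro B C
      rw [ordP_mix φ e hφ, mul_assoc, ← mul_assoc (φ _),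
        ← (ordP_commute e _ (fun i => hφ i _) C).eq, mul_assoc, ← map_mul, ← mul_assoc,
        ordP_mul e hc h0]
      split_ifs <;> simp
    simp only [e1]
    rw [sum_reindex fun S B C => ordP e S * φ (ordP h B * Tq h q C)]
    refine sum_congr rfl fun S _ => ?_
    rw [Tq, map_sum, mul_sum]

theorem pow_eq_one {s : ℕ} (φ : R →+* R') (e : Fin s → R') (hc : ∀ i k, Commute (e i) (e k))
    (h0 : ∀ i, e i * e i = 0) (hφ : ∀ i T, Commute (e i) (φ T)) (h : Fin s → R) (q : ℕ)
    (hq : ∀ S : Finset (Fin s), S.Nonempty → Tq h q S = 0) :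
    (List.ofFn fun i => 1 + e i * φ (h i)).prod ^ q = 1 := by
  rw [pow_eq φ e hc h0 hφ, sum_eq_single ∅]
  · simp [Tq_empty, ordP_empty]
  · intro S _ hS; rw [hq S (nonempty_iff_ne_empty.2 hS), map_zero, mul_zero]
  · intro h; exact absurd (mem_univ _) h

end Abstract

section Ops
variable {ι : Type} (K L : Type) [DecidableEq ι] [Field K] [LieRing L] [LieAlgebra K L]

/-- multiplication by `e_A` -/
def shift (A : Finset ι) : Module.End K (SF ι L) where
  toFun ξ := fun S => if A ⊆ S then ξ (S \ A) else 0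
  map_add' x y := SF.ext fun S => by
    simp only [SF.add_apply]; split_ifs <;> simp
  map_smul' c x := SF.ext fun S => by
    simp only [SF.smul_apply, RingHom.id_apply]; split_ifs <;> simp

/-- action on the coefficients -/
def lift1 (T : Module.End K L) : Module.End K (SF ι L) where
  toFun ξ := fun S => T (ξ S)
  map_add' x y := SF.ext fun S => by simp
  map_smul' c x := SF.ext fun S => by simp

/-- action on the coefficients, as a ring homomorphism -/
def lift : Module.End K L →+* Module.End K (SF ι L) where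
  toFun := lift1 K L
  map_one' := rfl
  map_mul' _ _ := rfl
  map_zero' := rfl
  map_add' _ _ := rfl

variable {K L}

theorem shift_apply (A S : Finset ι) (ξ : SF ι L) :
    shift K L A ξ S = if A ⊆ S then ξ (S \ A) else 0 := rfl

theorem lift_apply (T : Module.End K L) (ξ : SF ι L) (S : Finset ι) :
    lift K L T ξ S = T (ξ S) := rfl

theorem ad_sg (A : Finset ι) (x : L) :
    ad K (SF ι L) (sg A x) = shift K L A * lift K L (ad K L x) := by
  refine LinearMap.ext fun ξ => SF.ext fun S => ?_
  rw [ad_apply, sg_lie_apply, Module.End.mul_apply, shift_apply, lift_apply, ad_apply]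

theorem shift_lift (A : Finset ι) (T : Module.End K L) :
    Commute (shift K L A) (lift K L T) := by
  refine LinearMap.ext fun ξ => SF.ext fun S => ?_
  rw [Module.End.mul_apply, Module.End.mul_apply, shift_apply, lift_apply, lift_apply, shift_apply]
  split_ifs <;> simp

theorem shift_shift_apply (A B S : Finset ι) (ξ : SF ι L) :
    (shift K L A * shift K L B) ξ S =
      if A ⊆ S ∧ B ⊆ S ∧ Disjoint A B then ξ (S \ (A ∪ B)) else 0 := by
  rw [Module.End.mul_apply, shift_apply, shift_apply]
  simp only [subset_sdiff, sdiff_sdiff_left, sup_eq_union, disjoint_comm (a := B)]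
  by_cases h1 : A ⊆ S <;> simp [h1]

theorem shift_comm (A B : Finset ι) : Commute (shift K L A) (shift K L B) := by
  refine LinearMap.ext fun ξ => SF.ext fun S => ?_
  rw [shift_shift_apply, shift_shift_apply, union_comm]
  refine if_congr ?_ rfl rfl
  rw [disjoint_comm]
  tauto

theorem shift_sq {A : Finset ι} (hA : A.Nonempty) : shift K L A * shift K L A = 0 := by
  refine LinearMap.ext fun ξ => SF.ext fun S => ?_
  rw [shift_shift_apply, if_neg]
  · rfl
  · rintro ⟨-, -, h⟩
    exact hA.ne_empty (disjoint_self.1 h)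

theorem PP_nil' {M : Type} [LieRing M] [LieAlgebra K M] : PP K ([] : List M) = 1 := rfl

theorem PP_cons' {M : Type} [LieRing M] [LieAlgebra K M] (v : M) (l : List M) :
    PP K (v :: l) = (1 + ad K M v) * PP K l := by
  simp [PP]

theorem PP_append' {M : Type} [LieRing M] [LieAlgebra K M] (l l' : List M) :
    PP K (l ++ l') = PP K l * PP K l' := by
  simp [PP]

theorem PP_abelian (i : ι) (l : List (SF ι L)) (h : ∀ v ∈ l, v ∈ II K L i) :
    PP K l = 1 + ad K (SF ι L) l.sum := by
  induction l with
  | nil => simp [PP_nil']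
  | cons v l ih =>
    have h' : ∀ w ∈ l, w ∈ II K L i := fun w hw => h w (List.mem_cons_of_mem _ hw)
    have hs : l.sum ∈ II K L i := list_sum_mem h'
    have h0 : ad K (SF ι L) v * ad K (SF ι L) l.sum = 0 := by
      refine LinearMap.ext fun ξ => ?_
      rw [Module.End.mul_apply, ad_apply, ad_apply]
      exact II_abelian (K := K) i v (h v List.mem_cons_self) _ (lie_mem_left K _ _ _ _ hs)
    rw [PP_cons', ih h', List.sum_cons, map_add, add_mul, mul_add, mul_add, h0]
    simp only [one_mul, mul_one, add_zero]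
    abel

theorem pieces [Fintype ι] (G : GrL K L) (j : ℕ) (i : ι) (h : SF ι L) (hM : h ∈ MM G ι j)
    (hI : h ∈ II K L i) : ∃ l : List (Finset ι × L), (∀ p ∈ l, i ∈ p.1 ∧ G.Hom j p.2) ∧
      (l.map fun p => sg p.1 p.2).sum = h := by
  let P : SF ι L → Prop := fun ξ => ∃ l : List (Finset ι × L),
    (∀ p ∈ l, i ∈ p.1 ∧ G.Hom j p.2) ∧ (l.map fun p => sg p.1 p.2).sum = ξ
  have P0 : P 0 := ⟨[], by simp, rfl⟩
  have Padd : ∀ x y, P x → P y → P (x + y) := by
    rintro _ _ ⟨l, hl, rfl⟩ ⟨l', hl', rfl⟩
    refine ⟨l ++ l', fun p hp => ?_, by simp⟩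
    rcases List.mem_append.1 hp with hp | hp
    · exact hl p hp
    · exact hl' p hp
  change P h
  rw [← sum_sg h]
  refine sum_induction _ P Padd P0 fun A _ => ?_
  by_cases hA : i ∈ A
  · obtain ⟨N, hN⟩ := G.fin (h A)
    rw [← hN N le_rfl, sg_sum]
    refine sum_induction _ P Padd P0 fun d _ => ?_
    by_cases hd : d < j
    · rw [hM.2 A d hd, sg_zero]; exact P0
    · refine ⟨[(A, G.π d (h A))], fun p hp => ?_, by simp⟩
      rw [List.mem_singleton.1 hp]
      exact ⟨hA, d, not_lt.1 hd, G.π_mem _ _⟩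
  · rw [hI A hA, sg_zero]; exact P0

theorem all_pieces [Fintype ι] (G : GrL K L) (j : ℕ) (hs : List (SF ι L))
    (h : ∀ h ∈ hs, h ∈ MM G ι j ∧ ∃ i : ι, h ∈ II K L i) :
    ∃ l : List (Finset ι × L), (∀ p ∈ l, p.1.Nonempty ∧ G.Hom j p.2) ∧
      PP K hs = PP K (l.map fun p => sg p.1 p.2) := by
  induction hs with
  | nil => exact ⟨[], by simp, rfl⟩
  | cons v hs ih =>
    obtain ⟨l, hl, e⟩ := ih fun w hw => h w (List.mem_cons_of_mem _ hw)
    obtain ⟨hM, i, hI⟩ := h v List.mem_cons_self
    obtain ⟨l', hl', e'⟩ := pieces G j i v hM hI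
    refine ⟨l' ++ l, fun p hp => ?_, ?_⟩
    · rcases List.mem_append.1 hp with hp | hp
      · exact ⟨⟨i, (hl' p hp).1⟩, (hl' p hp).2⟩
      · exact hl p hp
    · rw [List.map_append, PP_append', PP_cons', e, PP_abelian i (l'.map _), e']
      intro w hw
      obtain ⟨p, hp, rfl⟩ := List.mem_map.1 hw
      exact sg_mem_II (hl' p hp).1 _

end Ops

end Hb

theorem sHb : SHb := by
  intro K L _ _ _ G _ q j hH ι _ _ hs h
  obtain ⟨l, hl, e⟩ := Hb.all_pieces G j hs h
  have e2 : PP K (l.map fun p => (sg p.1 p.2 : SF ι L)) = (List.ofFn fun i : Fin l.length =>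
      1 + Hb.shift K L (l.get i).1 * Hb.lift K L (ad K L (l.get i).2)).prod := by
    unfold PP
    congr 1
    conv_lhs => rw [← List.ofFn_get l]
    rw [List.map_ofFn, List.map_ofFn]
    congr 1
    funext i
    simp only [Function.comp_apply, Hb.ad_sg]
  rw [e, e2]
  exact Hb.pow_eq_one (Hb.lift K L) (fun i => Hb.shift K L (l.get i).1)
    (fun _ _ => Hb.shift_comm _ _) (fun i => Hb.shift_sq (hl _ (l.get_mem i)).1)
    (fun _ _ => Hb.shift_lift _ _) (fun i => ad K L (l.get i).2) q
    fun S hS => hH _ (fun i => (l.get i).2) S (fun i => (hl _ (l.get_mem i)).2) hS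

end Pool.Agent.MP_3312ae_al.HR.Z30
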