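import Pool.Agent.MP_3312ae_al.HR.Z30.Defs

/-! Row statements for `ThmZ2`. Paper proof: MP_3312ae_Z_helper30.md (right operators there,
left operators here). -/

set_option autoImplicit false

namespace Pool.Agent.MP_3312ae_al.HR.Z30

open Finset LieAlgebra Submodule

section
variable {K L : Type} [Field K] [LieRing L] [LieAlgebra K L]

/-- basic facts on graded algebras generated in degree one -/
structure GrL.GB (G : GrL K L) : Prop where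
  zero : G.A 0 = ⊥
  comm_span : ∀ d, G.A d ≤ span K {x | IsComm G.a x ∧ x ∈ G.A d}
  fd : ∀ d, FiniteDimensional K (G.A d)
  succ : ∀ d, 1 ≤ d → G.A (d + 1) ≤ span K {z | ∃ i y, y ∈ G.A d ∧ z = ⁅G.a i, y⁆}
  ge_iff : ∀ j x, x ∈ G.ge j ↔ x ∈ span K {y | G.Hom j y}
  rep : ∀ j, IsRep (G.ψ j)
  rep_nil : ∀ j c, IsComm G.a c → IsNilpotent (G.ψ j c)

/-- long times long lies in `ψ L · short + ψ L` -/
def LLc (G : GrL K L) {R : Type} [Ring R] [Algebra K R] (ψ : L →ₗ[K] R) (S : ℕ) : Prop :=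
  ∀ z z', G.Hom S z → G.Hom S z' →
    ψ z * ψ z' ∈ span K {r | ∃ x c d, d < S ∧ c ∈ G.A d ∧ r = ψ x * ψ c} ⊔ LinearMap.range ψ

/-- finite rank one -/
def Rk1 {R : Type} [Ring R] [Algebra K R] (ψ : L →ₗ[K] R) : Prop :=
  ∃ B : Set R, B.Finite ∧ env ψ ≤ span K {r | ∃ b ∈ B, r = b ∨ ∃ z, r = ψ z * b}

def GenC (G : GrL K L) : Prop :=
  ∀ S, ∃ s', ∀ w, s' < w → G.A w ≤
    span K {v : L | ∃ (i : ℕ) (c y : L), S ≤ i ∧ i ≤ s' ∧ S ≤ w - i ∧ c ∈ G.A i ∧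
      y ∈ G.A (w - i) ∧ v = ⁅c, y⁆}

def CentC (G : GrL K L) : Prop := ∀ (j : ℕ) (x : L), (∀ y ∈ G.ge j, ⁅x, y⁆ = 0) → x = 0

def CaseA (G : GrL K L) : Prop :=
  ∃ (S δ : ℕ) (θ : G.ge S →ₗ[K] G.ge S), 0 < δ ∧ Function.Injective θ ∧
    (∀ x y, θ (G.ψ S x y) = G.ψ S x (θ y)) ∧
    ∀ d (y : G.ge S), (y : L) ∈ G.A d → (θ y : L) ∈ G.A (d + δ)

def CaseB (G : GrL K L) (j : ℕ) : Prop :=
  ∀ (J : ℕ) (u : Fin J → G.ge j) (d : Fin J → ℕ), Function.Injective d →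
    (∀ i, (u i : L) ∈ G.A (d i) ∧ u i ≠ 0) →
    ∃ S, ∀ i (v : G.ge j), (v : L) ∈ G.ge S →
      ∃ r ∈ env (G.ψ j), r (u i) = v ∧ ∀ k, k ≠ i → r (u k) = 0

/-- the group generated by the `1 + ad h`, `h` in some `e_i M_j`, has exponent `q` -/
def HB (G : GrL K L) (q j : ℕ) : Prop :=
  ∀ (ι : Type) [Fintype ι] [DecidableEq ι] (hs : List (SF ι L)),
    (∀ h ∈ hs, h ∈ MM G ι j ∧ ∃ i : ι, h ∈ II K L i) → PP K hs ^ q = 1

def DegC (G : GrL K L) : Prop :=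
  ∀ (ι : Type) [DecidableEq ι] (δ : Dat ι L) (m0 m : ℕ) (d : ι → ℕ) (S : Finset ι),
    (∀ i, δ.x i ∈ G.A (d i)) → δ.val K m0 m S ∈ G.A (∑ i ∈ S, d i)

def NullAbove (G : GrL K L) (m0 m n l j : ℕ) : Prop :=
  (∀ n' l', n < n' → l' ≤ 2 * l + 1 → ∀ v ∈ Cls G m0 m n' l' j, v = 0) ∧
    ∀ l', l' < l → ∀ v ∈ Cls G m0 m n l' j, v = 0

/-- the depth two relation with the weight comparison -/
def RelC (G : GrL K L) (m0 m n l j : ℕ) : Prop :=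
  ∀ (ι₁ ι₂ : Type) [Fintype ι₁] [DecidableEq ι₁] [Fintype ι₂] [DecidableEq ι₂]
    (δ₁ : Dat ι₁ L) (δ₂ : Dat ι₂ L) (d₁ : ι₁ → ℕ) (d₂ : ι₂ → ℕ) (S₁ : Finset ι₁) (S₂ : Finset ι₂)
    (i0 : ι₁), (∀ i, j ≤ d₁ i ∧ δ₁.x i ∈ G.A (d₁ i)) → (∀ i, j ≤ d₂ i ∧ δ₂.x i ∈ G.A (d₂ i)) →
    i0 ∈ S₁ → (S₁ ∩ δ₁.us.toFinset).card = n → S₁.card = l →
    (S₂ ∩ δ₂.us.toFinset).card = n → S₂.card = l →
    (∀ i ∈ S₂, ∑ k ∈ S₁.erase i0, d₁ k < d₂ i) →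
    G.ψ j (δ₁.val K m0 m S₁) * G.ψ j (δ₂.val K m0 m S₂) ∈
      span K {r | ∃ t x y, 1 ≤ t ∧ t ≤ ∑ i ∈ S₂, d₂ i ∧ x ∈ G.A (∑ i ∈ S₁, d₁ i + t) ∧
        y ∈ G.A (∑ i ∈ S₂, d₂ i - t) ∧ r = G.ψ j x * G.ψ j y} ⊔ LinearMap.range (G.ψ j)

end

/-- equivariance of the coefficients -/
def EqvC (K L : Type) [Field K] [LieRing L] [LieAlgebra K L] : Prop :=
  ∀ (ι : Type) [DecidableEq ι] (δ : Dat ι L) (m0 m : ℕ) (a : L) (S : Finset ι),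
    ⁅a, δ.val K m0 m S⁆ = ∑ i ∈ S, (δ.upd i ⁅a, δ.x i⁆).val K m0 m S

/-- the theorem for just infinite algebras -/
def Core : Prop :=
  ∀ (p : ℕ) [Fact p.Prime] (K : Type) [Field K] [Infinite K] [CharP K p]
    (L : Type) [LieRing L] [LieAlgebra K L] (G : GrL K L) (e j0 : ℕ),
    G.JI → G.Hig (p ^ e) j0 → False

/-! ### Rows: reduction and part II -/

def SGB : Prop :=
  ∀ (K L : Type) [Field K] [LieRing L] [LieAlgebra K L] (G : GrL K L), G.GB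

def SRed : Prop := SGB → Core → ThmZ2

def SColA : Prop :=
  ∀ (K L : Type) [Field K] [LieRing L] [LieAlgebra K L] (G : GrL K L), G.GB →
    ∀ (R : Type) [Ring R] [Algebra K R] (ψ : L →ₗ[K] R), IsRep ψ →
    (∀ c, IsComm G.a c → IsNilpotent (ψ c)) → ∀ S : ℕ,
    ∃ B : Set (List L), B.Finite ∧ (∀ b ∈ B, ∀ c ∈ b, ∃ d, c ∈ G.A d) ∧
      env ψ ≤ span K {r | ∃ l b, b ∈ B ∧ (∀ z ∈ l, G.Hom S z) ∧ r = word ψ l * word ψ b}

def SColB : Prop :=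
  ∀ (K L : Type) [Field K] [LieRing L] [LieAlgebra K L] (G : GrL K L), G.GB →
    ∀ (R : Type) [Ring R] [Algebra K R] (ψ : L →ₗ[K] R), IsRep ψ →
    (∀ c, IsComm G.a c → IsNilpotent (ψ c)) → ∀ S : ℕ, LLc G ψ S → Rk1 ψ

def SGen : Prop :=
  SColA → ∀ (K L : Type) [Field K] [LieRing L] [LieAlgebra K L] (G : GrL K L), G.GB →
    GenC G ∧ (G.JI → CentC G)

/-- Engel-Jacobson -/
def SEJ : Prop :=
  ∀ (K V : Type) [Field K] [AddCommGroup V] [Module K V] [FiniteDimensional K V]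
    (W : Set (Module.End K V)), (∀ a ∈ W, ∀ b ∈ W, a * b - b * a ∈ W) →
    (∀ a ∈ W, IsNilpotent a) →
    ∃ N, ∀ l : List (Module.End K V), (∀ a ∈ l, a ∈ W) → N ≤ l.length → l.prod = 0

def SDens : Prop :=
  ∀ (K L : Type) [Field K] [LieRing L] [LieAlgebra K L] (G : GrL K L), G.GB → G.JI →
    ∀ j, CaseA G ∨ CaseB G j

def SNoA : Prop :=
  SEJ → ∀ (K L : Type) [Field K] [LieRing L] [LieAlgebra K L] (G : GrL K L), G.GB → G.JI →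
    ¬ CaseA G

def SNoB : Prop :=
  ∀ (K L : Type) [Field K] [LieRing L] [LieAlgebra K L] (G : GrL K L), G.GB → G.JI →
    ∀ j, Rk1 (G.ψ j) → ¬ CaseB G j

def SLL : Prop :=
  ∀ (K L : Type) [Field K] [LieRing L] [LieAlgebra K L] (G : GrL K L), G.GB → G.JI → GenC G →
    DegC G → EqvC K L → ∀ m0 m n l j, (∀ j', ∃ v ∈ Cls G m0 m n l j', v ≠ 0) →
    RelC G m0 m n l j → ∃ S, LLc G (G.ψ j) S

/-! ### Rows: part I -/

def SHb : Prop :=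
  ∀ (K L : Type) [Field K] [LieRing L] [LieAlgebra K L] (G : GrL K L), G.GB →
    ∀ q j, G.Hig q j → HB G q j

def SDq : Prop :=
  ∀ (p : ℕ) [Fact p.Prime] (K L : Type) [Field K] [Infinite K] [CharP K p] [LieRing L]
    [LieAlgebra K L] (G : GrL K L) (e j : ℕ), HB G (p ^ e) j → NullA G (p ^ e) j

def SDm : Prop :=
  ∀ (K L : Type) [Field K] [Infinite K] [LieRing L] [LieAlgebra K L] (G : GrL K L) (m j : ℕ),
    NullA G (m + 1) j → NullB G m (2 * m + 3) j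

def SM1 : Prop :=
  ∀ (K L : Type) [Field K] [LieRing L] [LieAlgebra K L] (G : GrL K L), G.GB → CentC G →
    ∀ m0 j, NullB G m0 1 j → NullA G m0 j

/-- I-b: the image of the top coefficient is an abelian inner ideal -/
def SInner : Prop :=
  ∀ (K M : Type) [Field K] [Infinite K] [LieRing M] [LieAlgebra K M] (J : Set (LieIdeal K M)),
    (∀ I ∈ J, ∀ x ∈ I, ∀ y ∈ I, ⁅x, y⁆ = 0) → ∀ (vs : List M) (m : ℕ), 1 ≤ m →
    (∀ v ∈ vs, ∃ I ∈ J, v ∈ I) →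
    (∀ l : List M, (∀ v ∈ l, v ∈ vs) → l.length = m + 1 → (l.map fun v => ad K M v).prod = 0) →
    (∀ u u', ⁅UU K vs m u, UU K vs m u'⁆ = 0) ∧
      ∀ u u' w, ∃ w', ⁅UU K vs m u, ⁅UU K vs m u', w⁆⁆ = UU K vs m w'

/-- I-c: the components have bounded degree -/
def SBound : Prop :=
  ∀ (K M : Type) [Field K] [Infinite K] [LieRing M] [LieAlgebra K M] (J : Set (LieIdeal K M)),
    (∀ I ∈ J, ∀ x ∈ I, ∀ y ∈ I, ⁅x, y⁆ = 0) → ∀ (V : Submodule K M),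
    (∀ v ∈ V, ∀ v' ∈ V, ⁅v, v'⁆ = 0) → (∀ v ∈ V, ∀ v' ∈ V, ∀ w : M, ⁅v, ⁅v', w⁆⁆ ∈ V) →
    ∀ (N : ℕ → Submodule K M), Monotone N →
    (∀ a b x y, x ∈ N a → y ∈ N b → ⁅x, y⁆ ∈ N (a + b)) → ∀ q : ℕ, 1 ≤ q →
    (∀ hs : List M, (∀ h ∈ hs, ∃ I ∈ J, h ∈ I) → PP K hs ^ q = 1) →
    ∀ bs us : List M, (∀ b ∈ bs, b ∈ V ∧ b ∈ N 0 ∧ ∃ I ∈ J, b ∈ I) →
    (∀ u ∈ us, u ∈ N 1 ∧ ∃ I ∈ J, u ∈ I) → ∀ c ∈ con K bs us, c ∈ N (2 * q - 1)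

/-- glue: classes with many `u`-indices vanish -/
def SCls : Prop :=
  SInner → SBound → ∀ (K L : Type) [Field K] [Infinite K] [LieRing L] [LieAlgebra K L]
    (G : GrL K L), G.GB → ∀ q m0 m j, 1 ≤ q → 1 ≤ m → HB G q j → NullB G m0 (m + 1) j →
    ∀ n l, 2 * q ≤ n → ∀ v ∈ Cls G m0 m n l j, v = 0

/-- a regular class without `u`-indices -/
def SReg : Prop :=
  ∀ (K L : Type) [Field K] [LieRing L] [LieAlgebra K L] (G : GrL K L), G.GB →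
    ∀ m0 m, (∀ j, ¬ NullB G m0 m j) → ∃ l, ∀ j, ∃ v ∈ Cls G m0 m 0 l j, v ≠ 0

def SDeg : Prop :=
  ∀ (K L : Type) [Field K] [LieRing L] [LieAlgebra K L] (G : GrL K L), DegC G

def SEqv : Prop := ∀ (K L : Type) [Field K] [LieRing L] [LieAlgebra K L], EqvC K L

def SRel : Prop :=
  ∀ (K L : Type) [Field K] [LieRing L] [LieAlgebra K L] (G : GrL K L), G.GB → DegC G →
    ∀ m0 m n l j, NullAbove G m0 m n l j → RelC G m0 m n l j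

/-- assembly -/
def SAsm : Prop :=
  SGB → SColA → SColB → SGen → SEJ → SDens → SNoA → SNoB → SLL → SHb → SDq → SDm → SM1 →
    SInner → SBound → SCls → SReg → SDeg → SEqv → SRel → Core

end Pool.Agent.MP_3312ae_al.HR.Z30
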